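import Pool.Agent.H60.NN.Small

set_option autoImplicit false

/-!
# Averaging: a large set with small deficiency has a class which is nearly a coset or larger

Write `K = k!`, `g = Gs k j`, `m = |A|`, `n' = |N A|`, `C_i = i choose 2`, `S_p = ∑ v |A_pv| ^ 2`,
`N := P.nums`. Suppose that all classes at all `p ∈ N A` have at most `K - 5 g` elements.
The proof of `avg_err` in `NM/Avg.lean` (with `k = i + 1`) contains the inequality
(1) `(n' - 2) (m² + K (C_k - 1) m - K g) ≤ ∑ p ∈ N A, (k S_p + K (C_(k-1) - 1) m)`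
(averaging, `P_all i` for the classes, and `df k A ≤ g`); copy it.
* `k S_p ≤ m² + W K g` with `W = (K - 5 g) / (5 g)`, `1 + W = K / (5 g)` (`class_sq_err` with
  `k = i + 1`, `h = g`; `a (1 + W) ≤ W K` is `a ≤ K - 5 g`). With (1) as in `avg_err`:
  - `n' = k + 1`: `m ((k + 1) K - 2 m) ≤ K g ((k + 1) (W + 1) - 2) ≤ (k + 1) K² / 5`. But for
    `K ≤ m ≤ (2 k + 1) K / 4` one has `m ((k + 1) K - 2 m) = 2 m v + m K / 2` with
    `v = (2 k + 1) K / 4 - m ≥ 0`, which is at least `2 K v + m K / 2 ≥ (2 k + 1) K² / 8`, a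
    contradiction (`k ≥ 11`).
  - `n' ≥ k + 2`: `m (2 (k K - m) + (k - 1) K (n' - k - 2)) ≤ K g (n' (W + 1) - 2) ≤ n' K² / 5`.
    For `n' ≥ k + 3` the left side is at least `K · K ((k - 1) (n' - k - 2) - 1/2)` (as
    `2 (k K - m) ≥ - 8 g ≥ - K / 2`), a contradiction. For `n' = k + 2` and `m + K / 2 ≤ k K` it
    is `2 m (k K - m) ≥ (k - 1/2) K²` (`(m - K) (k K - K / 2 - m) ≥ 0`), a contradiction.
* `n' = k + 2` and `m ≥ k K - 4 g`: use instead `S_p ≤ (K - 5 g) m`. Then (1) gives
  `m (m - k K + 5 (k + 2) g) ≤ K g`, a contradiction to `m ≥ K`, `m - k K ≥ - 4 g`.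
Here `(k - 1) (k - 2) = 2 C_(k-1)`, `C_k = C_(k-1) + k - 1`, and `K > 10 k (k+1) (k+3) g` is
`N.hKbig`.
-/

open Finset Equiv Pool.H60.Transp Pool.H60.NM

namespace Pool.H60.NN

variable {n k j : ℕ} {U : ℕ → ℝ}

/-- the averaging inequality, with arbitrary bounds `B` for `k S_p` -/
private lemma avg_core {n i : ℕ} (hi : 1 ≤ i) (A : Finset (Perm (Fin n))) {B h : ℝ}
    (hN : 2 ≤ (Pool.H60.Transp.N A).card)
    (hU : ∀ p ∈ Pool.H60.Transp.N A,
      ((i : ℝ) + 1) * ∑ v, ((A.filter (fun σ => σ p = v)).card : ℝ) ^ 2 ≤ B)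
    (hdf : df (i + 1) A ≤ h) :
    (((Pool.H60.Transp.N A).card : ℝ) - 2) * ((A.card : ℝ) ^ 2
      + (((i + 1).factorial : ℕ) : ℝ) * (((i.choose 2 : ℕ) : ℝ) + i - 1) * A.card
      - (((i + 1).factorial : ℕ) : ℝ) * h)
    ≤ ((Pool.H60.Transp.N A).card : ℝ) * (B
      + (((i + 1).factorial : ℕ) : ℝ) * (((i.choose 2 : ℕ) : ℝ) - 1) * A.card) := by
  set K : ℝ := (((i + 1).factorial : ℕ) : ℝ) with hK
  set c : ℝ := ((i.choose 2 : ℕ) : ℝ) with hc
  set m : ℝ := (A.card : ℝ) with hm
  set n' : ℝ := ((Pool.H60.Transp.N A).card : ℝ) with hn'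
  have hKpos : 0 < K := by rw [hK]; exact_mod_cast Nat.factorial_pos _
  have hn2 : (2 : ℝ) ≤ n' := by rw [hn']; exact_mod_cast hN
  have hnot' : m ^ 2 + K * (c + i - 1) * m - K * h ≤ K * D A := by
    have h9 := mul_le_mul_of_nonneg_left hdf hKpos.le
    rw [hK, mul_df, choose_succ_two] at h9
    rw [hK]
    linarith
  have hav : ∑ p ∈ Pool.H60.Transp.N A, ∑ v, (D (A.filter (fun σ => σ p = v)) : ℝ) + 2 * D A
      = n' * D A := by
    rw [hn']
    exact_mod_cast averaging A
  have hPk : ∀ C : Finset (Perm (Fin n)),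
      K * D C ≤ (i + 1) * (C.card : ℝ) ^ 2 + K * (c - 1) * C.card := by
    intro C
    have h := P_all i hi C
    unfold P at h
    have h2 := mul_le_mul_of_nonneg_left h (by positivity : (0 : ℝ) ≤ (i : ℝ) + 1)
    rw [hK, factorial_succ_real]
    simp only [hc]
    linarith
  have hcl : ∀ p, K * ∑ v, (D (A.filter (fun σ => σ p = v)) : ℝ)
      ≤ (i + 1) * ∑ v, ((A.filter (fun σ => σ p = v)).card : ℝ) ^ 2 + K * (c - 1) * m := by
    intro p
    have h1 : K * ∑ v, (D (A.filter (fun σ => σ p = v)) : ℝ)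
        ≤ ∑ v, ((i + 1) * ((A.filter (fun σ => σ p = v)).card : ℝ) ^ 2
          + K * (c - 1) * (A.filter (fun σ => σ p = v)).card) := by
      rw [Finset.mul_sum]
      exact Finset.sum_le_sum (fun v _ => hPk _)
    rw [Finset.sum_add_distrib, ← Finset.mul_sum, ← Finset.mul_sum, sum_class_card] at h1
    exact h1
  have h1 : (n' - 2) * (K * D A) ≤ n' * (B + K * (c - 1) * m) := by
    have h1 : ∑ p ∈ Pool.H60.Transp.N A, K * ∑ v, (D (A.filter (fun σ => σ p = v)) : ℝ)
        ≤ ∑ p ∈ Pool.H60.Transp.N A, (B + K * (c - 1) * m) := by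
      apply Finset.sum_le_sum
      intro p hp
      have := hcl p
      have := hU p hp
      linarith
    rw [← Finset.mul_sum, Finset.sum_const, nsmul_eq_mul] at h1
    have h2 : ∑ p ∈ Pool.H60.Transp.N A, ∑ v, (D (A.filter (fun σ => σ p = v)) : ℝ)
        = (n' - 2) * D A := by
      linarith
    rw [h2] at h1
    linarith
  have hn'2 : 0 ≤ n' - 2 := by linarith
  exact le_trans (mul_le_mul_of_nonneg_left hnot' hn'2) h1

theorem finish2 (P : Par k j U) (A : Finset (Perm (Fin n)))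
    (hN : k + 1 ≤ (Pool.H60.Transp.N A).card)
    (hcl : ∀ p ∈ Pool.H60.Transp.N A, ∀ v,
      ((A.filter (fun σ => σ p = v)).card : ℝ) + 5 * Gs k j ≤ (k.factorial : ℕ))
    (hdf : df k A ≤ Gs k j) (hm : ((k.factorial : ℕ) : ℝ) ≤ A.card)
    (h1 : (Pool.H60.Transp.N A).card = k + 1 →
      4 * (A.card : ℝ) ≤ (2 * (k : ℝ) + 1) * (k.factorial : ℕ))
    (h2 : (A.card : ℝ) + (k.factorial : ℕ) / 2 ≤ k * (k.factorial : ℕ) ∨
      (k : ℝ) * (k.factorial : ℕ) ≤ A.card + 4 * Gs k j)
    (h3 : (A.card : ℝ) ≤ k * (k.factorial : ℕ) + 4 * Gs k j) : False := by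
  have N := P.nums
  have hk11 := P.hk
  have hkx := N.hk
  have hgC := N.hgC
  have hC55 := N.hC55
  have hHg := N.hH
  have hIg := N.hI
  have hbig := N.hKbig
  have hg0 : 0 < Gs k j := by linarith
  obtain ⟨i, rfl⟩ : ∃ i, k = i + 1 := ⟨k - 1, by omega⟩
  have ej : (((i + 1 : ℕ) : ℝ)) = i + 1 := by push_cast; ring
  have hi10 : (10 : ℝ) ≤ i := by rw [ej] at hkx; linarith
  rw [ej] at h1 h2 h3 hkx hHg hbig
  set K : ℝ := (((i + 1).factorial : ℕ) : ℝ) with hK
  set g : ℝ := Gs (i + 1) j with hg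
  set m : ℝ := (A.card : ℝ) with hmdef
  have hKpos : 0 < K := by rw [hK]; exact_mod_cast Nat.factorial_pos _
  have hm0 : 0 < m := lt_of_lt_of_le hKpos hm
  -- K > 10 k (k+1) (k+3) g
  have hK16 : 16 * g ≤ K := by
    rw [hHg, hIg] at hbig
    have e1 : 0 ≤ g * (i + 1) := by positivity
    nlinarith [mul_nonneg e1 (by positivity : (0 : ℝ) ≤ ((i : ℝ) + 1 + 1) * (i + 1 + 3))]
  have hc2 : ((i.choose 2 : ℕ) : ℝ) = i * (i - 1) / 2 := choose_two_real i
  set n' : ℝ := ((Pool.H60.Transp.N A).card : ℝ) with hn'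
  have hsm : ∀ p ∈ Pool.H60.Transp.N A, ∀ v,
      (A.filter (fun σ => σ p = v)).card < (i + 1).factorial := by
    intro p hp v
    have h := hcl p hp v
    have : ((A.filter (fun σ => σ p = v)).card : ℝ) < ((i + 1).factorial : ℕ) := by
      rw [← hK]
      linarith
    exact_mod_cast this
  -- first estimate
  have hfirst : (n' - 2) * (m ^ 2 + K * (((i.choose 2 : ℕ) : ℝ) + i - 1) * m - K * g)
      ≤ n' * (m ^ 2 + (K - 5 * g) / (5 * g) * (K * g) + K * (((i.choose 2 : ℕ) : ℝ) - 1) * m) := by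
    refine avg_core (by omega) A (B := m ^ 2 + (K - 5 * g) / (5 * g) * (K * g)) (h := g)
      (by omega) ?_ hdf
    intro p hp
    refine class_sq_err (by omega) A p ?_ hg0.le (hsm p hp) ?_ hdf
    · exact div_nonneg (by linarith) (by linarith)
    · intro v
      have h := hcl p hp v
      rw [← hK]
      have e : 1 + (K - 5 * g) / (5 * g) = K / (5 * g) := by field_simp; ring
      rw [e]
      have e2 : (K - 5 * g) / (5 * g) * K = (K - 5 * g) * (K / (5 * g)) := by ring
      rw [e2]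
      exact mul_le_mul_of_nonneg_right (by linarith) (by positivity)
  have eW : (K - 5 * g) / (5 * g) * (K * g) = K * K / 5 - K * g := by field_simp
  rw [eW] at hfirst
  have hKK : 0 < K * K := mul_pos hKpos hKpos
  have hiK : 10 * (K * K) ≤ i * (K * K) := mul_le_mul_of_nonneg_right hi10 hKK.le
  rcases Nat.lt_or_ge (i + 1 + 1) (Pool.H60.Transp.N A).card with hcase | hcase
  swap
  · -- n' = k + 1
    have hNk : (Pool.H60.Transp.N A).card = i + 1 + 1 := le_antisymm hcase hN
    have hn3 : n' = i + 2 := by rw [hn', hNk]; push_cast; ring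
    have hm1 := h1 hNk
    rw [hn3, hc2] at hfirst
    have h4 : m * ((i + 2) * K - 2 * m) ≤ (i + 2) * (K * K) / 5 := by
      have e : ((i : ℝ) + 2 - 2) * (m ^ 2 + K * (i * (i - 1) / 2 + i - 1) * m - K * g)
          - (i + 2) * (m ^ 2 + (K * K / 5 - K * g) + K * (i * (i - 1) / 2 - 1) * m)
          = m * ((i + 2) * K - 2 * m) - (i + 2) * (K * K) / 5 + 2 * (K * g) := by ring
      have : 0 < K * g := mul_pos hKpos hg0
      linarith
    obtain ⟨v, hv⟩ : ∃ v : ℝ, v = (2 * i + 3) * K / 4 - m := ⟨_, rfl⟩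
    have hv0 : 0 ≤ v := by linarith
    have h5 : m * ((i + 2) * K - 2 * m) = 2 * (m * v) + m * K / 2 := by rw [hv]; ring
    have h6 : K * v ≤ m * v := mul_le_mul_of_nonneg_right hm hv0
    have h7 : m * K / 2 = (2 * i + 3) * (K * K) / 8 - K * v / 2 := by rw [hv]; ring
    have h8 : 0 ≤ K * v := mul_nonneg hKpos.le hv0
    linarith
  · -- n' ≥ k + 2
    have hgen : m * (2 * ((i + 1) * K - m) + i * K * (n' - (i + 3))) ≤ n' * (K * K) / 5 := by
      rw [hc2] at hfirst
      have e : (n' - 2) * (m ^ 2 + K * (i * (i - 1) / 2 + i - 1) * m - K * g)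
          - n' * (m ^ 2 + (K * K / 5 - K * g) + K * (i * (i - 1) / 2 - 1) * m)
          = m * (2 * ((i + 1) * K - m) + i * K * (n' - (i + 3)))
            - n' * (K * K) / 5 + 2 * (K * g) := by
        ring
      have : 0 < K * g := mul_pos hKpos hg0
      linarith
    rcases Nat.lt_or_ge (i + 1 + 2) (Pool.H60.Transp.N A).card with hcase2 | hcase2
    · -- n' ≥ k + 3
      obtain ⟨t, ht⟩ : ∃ t : ℝ, t = n' - (i + 3) := ⟨_, rfl⟩
      have ht1 : 1 ≤ t := by
        have : (i : ℝ) + 1 + 2 + 1 ≤ n' := by rw [hn']; exact_mod_cast hcase2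
        rw [ht]
        linarith
      have hn4 : n' = t + (i + 3) := by rw [ht]; ring
      rw [hn4] at hgen
      have e1 : t + ((i : ℝ) + 3) - (i + 3) = t := by ring
      rw [e1] at hgen
      have h5 : K * (i * t - 1 / 2) ≤ 2 * ((i + 1) * K - m) + i * K * t := by linarith
      have hit : 0 ≤ i * t - 1 / 2 := by nlinarith
      have h6 : K * (K * (i * t - 1 / 2)) ≤ m * (2 * ((i + 1) * K - m) + i * K * t) :=
        le_trans (mul_le_mul_of_nonneg_right hm (by positivity))
          (mul_le_mul_of_nonneg_left h5 hm0.le)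
      have h7 : (K * K) * (i * t - 1 / 2) ≤ (K * K) * ((t + (i + 3)) / 5) := by linarith
      have h8 := le_of_mul_le_mul_left h7 hKK
      have h9 : 0 ≤ ((i : ℝ) - 1 / 5) * (t - 1) := mul_nonneg (by linarith) (by linarith)
      linarith
    · have hNk : (Pool.H60.Transp.N A).card = i + 1 + 2 := by omega
      have hn3 : n' = i + 3 := by rw [hn', hNk]; push_cast; ring
      rcases h2 with h2 | h2
      · rw [hn3] at hgen
        have e1 : (i : ℝ) + 3 - (i + 3) = 0 := by ring
        rw [e1, mul_zero, add_zero] at hgen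
        have h5 : 0 ≤ (m - K) * ((i + 1) * K - K / 2 - m) :=
          mul_nonneg (by linarith) (by linarith)
        have h6 : ((i : ℝ) + 1 / 2) * (K * K) / 2 ≤ m * ((i + 1) * K - m) := by
          have e2 : (m - K) * ((i + 1) * K - K / 2 - m)
              = m * ((i + 1) * K - m) - m * K / 2 - K * ((i + 1) * K - K / 2 - m) := by ring
          have h7 : m * K ≤ ((i + 1) * K - K / 2) * K :=
            mul_le_mul_of_nonneg_right (by linarith) hKpos.le
          linarith
        linarith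
      · -- second estimate
        have hsec : (n' - 2) * (m ^ 2 + K * (((i.choose 2 : ℕ) : ℝ) + i - 1) * m - K * g)
            ≤ n' * ((i + 1) * ((K - 5 * g) * m) + K * (((i.choose 2 : ℕ) : ℝ) - 1) * m) := by
          refine avg_core (by omega) A (B := ((i : ℝ) + 1) * ((K - 5 * g) * m)) (h := g)
            (by omega) ?_ hdf
          intro p hp
          refine mul_le_mul_of_nonneg_left ?_ (by linarith)
          have h5 : ∑ v, ((A.filter (fun σ => σ p = v)).card : ℝ) ^ 2
              ≤ ∑ v, (K - 5 * g) * ((A.filter (fun σ => σ p = v)).card : ℝ) := by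
            refine Finset.sum_le_sum fun v _ => ?_
            have h := hcl p hp v
            rw [sq]
            exact mul_le_mul_of_nonneg_right (by linarith) (Nat.cast_nonneg _)
          rw [← Finset.mul_sum, sum_class_card] at h5
          exact h5
        rw [hn3, hc2] at hsec
        have e : ((i : ℝ) + 3 - 2) * (m ^ 2 + K * (i * (i - 1) / 2 + i - 1) * m - K * g)
            - (i + 3) * ((i + 1) * ((K - 5 * g) * m) + K * (i * (i - 1) / 2 - 1) * m)
            = (i + 1) * (m * (m - (i + 1) * K + 5 * (i + 3) * g) - K * g) := by ring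
        have h5 : (i + 1) * (m * (m - (i + 1) * K + 5 * (i + 3) * g) - K * g) ≤ 0 := by linarith
        have h6 : m * (m - (i + 1) * K + 5 * (i + 3) * g) ≤ K * g := by
          by_contra hcon
          push Not at hcon
          have : 0 < (i + 1) * (m * (m - (i + 1) * K + 5 * (i + 3) * g) - K * g) :=
            mul_pos (by linarith) (by linarith)
          linarith
        have h7 : m * (11 * g) ≤ m * (m - (i + 1) * K + 5 * (i + 3) * g) := by
          refine mul_le_mul_of_nonneg_left ?_ hm0.le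
          have hig : 10 * g ≤ i * g := mul_le_mul_of_nonneg_right hi10 hg0.le
          linarith
        have h8 : K * (11 * g) ≤ m * (11 * g) := mul_le_mul_of_nonneg_right hm (by linarith)
        have h9 : 0 < K * g := mul_pos hKpos hg0
        linarith

end Pool.H60.NN
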