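import Pool.Agent.H60.NN.Sys

set_option autoImplicit false

/-!
# Complements in a coset of `k + 1` positions

Let `Q' = coset M σ₀`, `|M| = k + 1`, `A ⊆ Q'`, and let `Q i`, `B i` be a system of `A` with defect
`< (k - 1)!` (`Sys` in `NN/Sys.lean`; the defect is `|A \ ⋃ B i| + ∑ |Q i \ B i|`, and
`∑ |B i| ≤ |A|`, `|B i| ≤ |Q i| = k!`, so `|Q i \ B i| + |Q i' \ B i'| ≤ δ`).
1. `Q i ⊆ Q'`: let `Q i = coset M₁ σ₁`. `|Q i ∩ Q'| ≥ |B i| ≥ k! - δ > (k - 1)!` (if `k ≥ 2`;
   `k! - (k - 1)! = (k - 1) (k - 1)! ≥ (k - 1)!`). If some `q ∈ M₁ \ M`, all elements of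
   `Q i ∩ Q'` have the value `σ₀ q` at `q`, at most `(k - 1)!` elements (`card_val_le` in
   `NM/Pair.lean`). So `M₁ ⊆ M`, `M₁ = M.erase p` for some `p ∈ M`, and (a common element exists)
   `Q i = {σ ∈ Q' : σ p = v}` with `v = σ₁ p`, a value of `σ₀` on `M`.
2. `Q i`, `Q i'` for `i ≠ i'` have less than `(k - 1)!` common elements (an element of both is in
   `Q i \ B i` or in `Q i' \ B i'`). So for the pairs `(p, v)`, `(p', v')` exactly one of `p = p'`,
   `v = v'` holds: if both, the intersection has `k!` elements; if none, `(k - 1)!`.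
3. A family of pairs any two of which share exactly one coordinate has all `p` equal or all `v`
   equal.
4. All `p` equal (or the family empty, any `p ∈ M`): the new system consists of the
   `{σ ∈ Q' : σ p = w}` for the values `w` of `σ₀` on `M` which are not one of the `v`; all `v`
   equal: of the `{σ ∈ Q' : σ q = v}` for the `q ∈ M` which are not one of the `p`. In both cases
   these `k + 1 - |ι|` cosets are disjoint and their union is `Q' \ ⋃ Q i`. Put
   `B' = coset ∩ (Q' \ A)`. Then the defect is `|(Q' \ A) ∩ ⋃ Q i| + |A \ ⋃ Q i| ≤ δ`.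
-/

open Finset Equiv Pool.H60.Transp Pool.H60.NM

namespace Pool.H60.NN

variable {n : ℕ}

private lemma mem_cs {M : Finset (Fin n)} {σ₀ ρ : Perm (Fin n)} :
    ρ ∈ coset M σ₀ ↔ ∀ q, q ∉ M → ρ q = σ₀ q := by
  simp only [coset, mem_filter, mem_univ, true_and]

/-- the elements of a coset with a given value at a position -/
private def cell (M : Finset (Fin n)) (σ₀ : Perm (Fin n)) (p v : Fin n) :
    Finset (Perm (Fin n)) := (coset M σ₀).filter (fun σ => σ p = v)

private lemma mem_cell {M : Finset (Fin n)} {σ₀ ρ : Perm (Fin n)} {p v : Fin n} :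
    ρ ∈ cell M σ₀ p v ↔ ρ ∈ coset M σ₀ ∧ ρ p = v := mem_filter

private lemma val_of {M : Finset (Fin n)} {σ₀ ρ : Perm (Fin n)} (hρ : ρ ∈ coset M σ₀)
    {p : Fin n} (hp : p ∈ M) : ∃ a ∈ M, σ₀ a = ρ p := by
  refine ⟨σ₀⁻¹ (ρ p), ?_, by simp⟩
  by_contra ha
  have h1 := mem_cs.1 hρ _ ha
  have h2 : σ₀ (σ₀⁻¹ (ρ p)) = ρ p := by simp
  rw [h2] at h1
  rw [ρ.injective h1] at ha
  exact ha hp

private lemma pos_of {M : Finset (Fin n)} {σ₀ ρ : Perm (Fin n)} (hρ : ρ ∈ coset M σ₀)
    {a : Fin n} (ha : a ∈ M) : ∃ p ∈ M, ρ p = σ₀ a := by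
  refine ⟨ρ⁻¹ (σ₀ a), ?_, by simp⟩
  by_contra hp
  have h1 := mem_cs.1 hρ _ hp
  have h2 : ρ (ρ⁻¹ (σ₀ a)) = σ₀ a := by simp
  rw [h2] at h1
  rw [← σ₀.injective h1] at hp
  exact hp ha

/-- a cell is a coset -/
private lemma cell_eq {M : Finset (Fin n)} {σ₀ τ : Perm (Fin n)} (hτ : τ ∈ coset M σ₀)
    (p : Fin n) : cell M σ₀ p (τ p) = coset (M.erase p) τ := by
  ext ρ
  rw [mem_cell, mem_cs, mem_cs]
  constructor
  · rintro ⟨h2, h3⟩ x hx
    by_cases hxq : x = p
    · rw [hxq, h3]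
    · have hxM : x ∉ M := fun h => hx (mem_erase.2 ⟨hxq, h⟩)
      rw [h2 x hxM, mem_cs.1 hτ x hxM]
  · intro h2
    refine ⟨fun x hx => ?_, h2 p (notMem_erase p M)⟩
    rw [h2 x (fun h => hx (mem_of_mem_erase h)), mem_cs.1 hτ x hx]

private lemma exists_val {M : Finset (Fin n)} (σ₀ : Perm (Fin n)) {p a : Fin n} (hp : p ∈ M)
    (ha : a ∈ M) : ∃ τ ∈ coset M σ₀, τ p = σ₀ a := by
  refine ⟨σ₀ * swap p a, ?_, by simp⟩
  rw [mem_cs]
  intro x hx
  rw [Perm.mul_apply, swap_apply_of_ne_of_ne]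
  · rintro rfl
    exact hx hp
  · rintro rfl
    exact hx ha

private lemma cell_isCos {k : ℕ} {M : Finset (Fin n)} (σ₀ : Perm (Fin n)) (hM : M.card = k + 1)
    {p a : Fin n} (hp : p ∈ M) (ha : a ∈ M) : IsCos k (cell M σ₀ p (σ₀ a)) := by
  obtain ⟨τ, hτ, hv⟩ := exists_val σ₀ hp ha
  refine ⟨M.erase p, τ, ?_, ?_⟩
  · rw [card_erase_of_mem hp, hM]
    simp
  · rw [← hv]
    exact cell_eq hτ p

/-- two cells in different rows and columns have `(k - 1)!` common elements -/
private lemma inter_large {k : ℕ} {M : Finset (Fin n)} {σ₀ : Perm (Fin n)} (hM : M.card = k + 1)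
    {p p' a a' : Fin n} (hp : p ∈ M) (hp' : p' ∈ M) (ha : a ∈ M) (ha' : a' ∈ M) (hpp : p ≠ p')
    (haa : a ≠ a') :
    (k - 1).factorial ≤ (cell M σ₀ p (σ₀ a) ∩ cell M σ₀ p' (σ₀ a')).card := by
  classical
  obtain ⟨τ, hτ, hv⟩ := exists_val σ₀ hp ha
  obtain ⟨b, hb, hbv⟩ := pos_of hτ ha'
  have hpb : p ≠ b := by
    rintro rfl
    rw [hv] at hbv
    exact haa (σ₀.injective hbv)
  set π : Perm (Fin n) := τ * swap p' b with hπ
  have hπ0 : π ∈ coset M σ₀ := by
    rw [mem_cs]
    intro x hx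
    rw [hπ, Perm.mul_apply, swap_apply_of_ne_of_ne, mem_cs.1 hτ x hx]
    · rintro rfl
      exact hx hp'
    · rintro rfl
      exact hx hb
  have hπp : π p = σ₀ a := by
    rw [hπ, Perm.mul_apply, swap_apply_of_ne_of_ne hpp hpb, hv]
  have hπp' : π p' = σ₀ a' := by
    rw [hπ, Perm.mul_apply, swap_apply_left, hbv]
  have hcard : ((M.erase p).erase p').card = k - 1 := by
    rw [card_erase_of_mem (mem_erase.2 ⟨hpp.symm, hp'⟩), card_erase_of_mem hp, hM]
    omega
  rw [← hcard, ← card_coset ((M.erase p).erase p') π]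
  apply card_le_card
  intro ρ hρ
  have hρ' := mem_cs.1 hρ
  rw [mem_inter, mem_cell, mem_cell]
  have h0 : ρ ∈ coset M σ₀ := by
    rw [mem_cs]
    intro x hx
    rw [hρ' x (fun h => hx (mem_of_mem_erase (mem_of_mem_erase h))), mem_cs.1 hπ0 x hx]
  refine ⟨⟨h0, ?_⟩, ⟨h0, ?_⟩⟩
  · rw [hρ' p (fun h => notMem_erase p M (mem_of_mem_erase h)), hπp]
  · rw [hρ' p' (notMem_erase p' _), hπp']

open Classical in
/-- the complementary system -/
private lemma compl_of {k : ℕ} {S A : Finset (Perm (Fin n))} (hA : A ⊆ S) {δ : ℝ}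
    {ι ι' : Type} [Fintype ι] [Fintype ι'] {Q B : ι → Finset (Perm (Fin n))}
    {Q' : ι' → Finset (Perm (Fin n))} (h1 : ∀ i, IsCos k (Q i)) (h2 : ∀ i, B i ⊆ Q i)
    (h3 : ∀ i, B i ⊆ A) (h4 : ∀ i i', i ≠ i' → Disjoint (B i) (B i'))
    (h5 : (A.card : ℝ) + Fintype.card ι * (k.factorial : ℕ) - 2 * ∑ i, ((B i).card : ℝ) ≤ δ)
    (h1' : ∀ i, IsCos k (Q' i)) (hd : ∀ i i', i ≠ i' → Disjoint (Q i) (Q i'))
    (hd' : ∀ i i', i ≠ i' → Disjoint (Q' i) (Q' i')) (hdd : ∀ i i', Disjoint (Q i) (Q' i'))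
    (hs : ∀ i, Q i ⊆ S) (hs' : ∀ i, Q' i ⊆ S)
    (hcov : ∀ σ ∈ S, (∃ i, σ ∈ Q i) ∨ (∃ i, σ ∈ Q' i)) : Sys k (S \ A) δ := by
  refine ⟨ι', inferInstance, Q', fun i => Q' i \ A, h1', fun i => sdiff_subset,
    fun i => sdiff_subset_sdiff (hs' i) (Finset.Subset.refl _),
    fun i i' hne => (hd' i i' hne).mono sdiff_subset sdiff_subset, ?_⟩
  set V := univ.biUnion Q' with hV
  set U := univ.biUnion Q with hU
  have hVc : V.card = Fintype.card ι' * k.factorial := by
    rw [hV, Finset.card_biUnion (fun i _ i' _ h => hd' i i' h),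
      Finset.sum_congr rfl (fun i _ => (h1' i).card_eq)]
    simp
  have hUc : U.card = Fintype.card ι * k.factorial := by
    rw [hU, Finset.card_biUnion (fun i _ i' _ h => hd i i' h),
      Finset.sum_congr rfl (fun i _ => (h1 i).card_eq)]
    simp
  have hVA : (V \ A).card = ∑ i, (Q' i \ A).card := by
    rw [← Finset.card_biUnion
      (fun i _ i' _ h => (hd' i i' h).mono sdiff_subset sdiff_subset)]
    congr 1
    ext σ
    simp only [hV, mem_sdiff, mem_biUnion, mem_univ, true_and]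
    constructor
    · rintro ⟨⟨i, hi⟩, h⟩
      exact ⟨i, hi, h⟩
    · rintro ⟨i, hi, h⟩
      exact ⟨⟨i, hi⟩, h⟩
  have hB : ∑ i, (B i).card ≤ (U ∩ A).card := by
    rw [← Finset.card_biUnion (fun i _ i' _ h => h4 i i' h)]
    apply card_le_card
    intro σ hσ
    obtain ⟨i, -, hi⟩ := mem_biUnion.1 hσ
    exact mem_inter.2 ⟨mem_biUnion.2 ⟨i, mem_univ _, h2 i hi⟩, h3 i hi⟩
  -- `S` is the disjoint union of `U` and `V`
  have hUV : Disjoint U V := by
    rw [Finset.disjoint_left]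
    intro σ hσ hσ'
    obtain ⟨i, -, hi⟩ := mem_biUnion.1 hσ
    obtain ⟨i', -, hi'⟩ := mem_biUnion.1 hσ'
    exact (Finset.disjoint_left.1 (hdd i i')) hi hi'
  have hSUV : S = U ∪ V := by
    ext σ
    rw [mem_union]
    constructor
    · intro h
      rcases hcov σ h with ⟨i, hi⟩ | ⟨i, hi⟩
      · exact Or.inl (mem_biUnion.2 ⟨i, mem_univ _, hi⟩)
      · exact Or.inr (mem_biUnion.2 ⟨i, mem_univ _, hi⟩)
    · rintro (h | h)
      · obtain ⟨i, -, hi⟩ := mem_biUnion.1 h
        exact hs i hi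
      · obtain ⟨i, -, hi⟩ := mem_biUnion.1 h
        exact hs' i hi
  have c1 : (S \ A).card + A.card = S.card := by
    rw [card_sdiff_of_subset hA]
    have := card_le_card hA
    omega
  have c2 : S.card = U.card + V.card := by
    rw [hSUV, card_union_of_disjoint hUV]
  have c3 : (V \ A).card + (V ∩ A).card = V.card := card_sdiff_add_card_inter V A
  have c4 : (U ∩ A).card + (V ∩ A).card = A.card := by
    rw [← card_union_of_disjoint (hUV.mono inter_subset_left inter_subset_left),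
      ← Finset.union_inter_distrib_right, ← hSUV, inter_eq_right.2 hA]
  have c1' : ((S \ A).card : ℝ) + A.card = S.card := by exact_mod_cast c1
  have c2' : (S.card : ℝ) = U.card + V.card := by exact_mod_cast c2
  have c3' : ((V \ A).card : ℝ) + (V ∩ A).card = V.card := by exact_mod_cast c3
  have c4' : ((U ∩ A).card : ℝ) + (V ∩ A).card = A.card := by exact_mod_cast c4
  have hVc' : (V.card : ℝ) = Fintype.card ι' * (k.factorial : ℕ) := by exact_mod_cast hVc
  have hUc' : (U.card : ℝ) = Fintype.card ι * (k.factorial : ℕ) := by exact_mod_cast hUc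
  have hVA' : ((V \ A).card : ℝ) = ∑ i, ((Q' i \ A).card : ℝ) := by exact_mod_cast hVA
  have hB' : ∑ i, ((B i).card : ℝ) ≤ (U ∩ A).card := by exact_mod_cast hB
  rw [← hVA', ← hVc']
  rw [← hUc'] at h5
  linarith

theorem sys_compl {k : ℕ} (hk : 2 ≤ k) {M : Finset (Fin n)} {σ₀ : Perm (Fin n)}
    (hM : M.card = k + 1) {A : Finset (Perm (Fin n))} (hA : A ⊆ coset M σ₀) {δ : ℝ}
    (hδ : δ < ((k - 1).factorial : ℕ)) (hS : Sys k A δ) : Sys k (coset M σ₀ \ A) δ := by
  classical
  obtain ⟨ι, hι, Q, B, h1, h2, h3, h4, h5⟩ := hS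
  have hfac : k.factorial = k * (k - 1).factorial := (Nat.mul_factorial_pred (by omega)).symm
  have hfacR : ((k.factorial : ℕ) : ℝ) = k * ((k - 1).factorial : ℕ) := by
    rw [hfac]
    push_cast
    ring
  have hf1 : (1 : ℝ) ≤ ((k - 1).factorial : ℕ) := by
    exact_mod_cast Nat.succ_le_of_lt (Nat.factorial_pos (k - 1))
  have hk2 : (2 : ℝ) ≤ k := by exact_mod_cast hk
  have hf2 : 2 * ((k - 1).factorial : ℝ) ≤ ((k.factorial : ℕ) : ℝ) := by
    rw [hfacR]
    exact mul_le_mul_of_nonneg_right hk2 (by linarith)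
  -- the defect as a sum
  have hBQ : ∀ i, ((B i).card : ℝ) ≤ (k.factorial : ℕ) := by
    intro i
    have := card_le_card (h2 i)
    rw [(h1 i).card_eq] at this
    exact_mod_cast this
  have hBA : ∑ i, ((B i).card : ℝ) ≤ A.card := by
    have : ∑ i, (B i).card ≤ A.card := by
      rw [← Finset.card_biUnion (fun i _ i' _ h => h4 i i' h)]
      exact card_le_card (biUnion_subset.2 (fun i _ => h3 i))
    exact_mod_cast this
  have hsum : ∑ i, (((k.factorial : ℕ) : ℝ) - (B i).card) ≤ δ := by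
    rw [Finset.sum_sub_distrib, Finset.sum_const, Finset.card_univ, nsmul_eq_mul]
    linarith
  have hone : ∀ i, ((k.factorial : ℕ) : ℝ) - (B i).card ≤ δ := by
    intro i
    refine le_trans ?_ hsum
    exact Finset.single_le_sum (f := fun i => (((k.factorial : ℕ) : ℝ) - (B i).card))
      (fun j _ => by linarith [hBQ j]) (mem_univ i)
  have htwo : ∀ i i', i ≠ i' → ((k.factorial : ℕ) : ℝ) - (B i).card +
      (((k.factorial : ℕ) : ℝ) - (B i').card) ≤ δ := by
    intro i i' hne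
    refine le_trans ?_ hsum
    rw [← Finset.sum_pair (f := fun i => (((k.factorial : ℕ) : ℝ) - (B i).card)) hne]
    exact Finset.sum_le_sum_of_subset_of_nonneg (subset_univ _)
      (fun j _ _ => by linarith [hBQ j])
  -- every coset of the system is a cell
  have hcell : ∀ i, ∃ p ∈ M, ∃ a ∈ M, Q i = cell M σ₀ p (σ₀ a) := by
    intro i
    obtain ⟨M₁, σ₁, hM₁, hQ⟩ := h1 i
    have hBc : (k - 1).factorial < (B i).card := by
      have : (((k - 1).factorial : ℕ) : ℝ) < (B i).card := by linarith [hone i]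
      exact_mod_cast this
    have hsub : M₁ ⊆ M := by
      intro q hq
      by_contra hqM
      have h6 : B i ⊆ (coset M₁ σ₁).filter (fun ρ => ρ q = σ₀ q) := by
        intro ρ hρ
        rw [mem_filter]
        refine ⟨hQ ▸ h2 i hρ, ?_⟩
        exact mem_cs.1 (hA (h3 i hρ)) q hqM
      have h7 := card_le_card h6
      have h8 := card_val_le σ₁ hM₁ hq (σ₀ q)
      omega
    obtain ⟨τ, hτ⟩ : (B i).Nonempty := card_pos.1 (by omega)
    have hτ0 : τ ∈ coset M σ₀ := hA (h3 i hτ)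
    have hτ1 : τ ∈ coset M₁ σ₁ := hQ ▸ h2 i hτ
    have hc : (M \ M₁).card = 1 := by
      rw [card_sdiff_of_subset hsub, hM, hM₁]
      omega
    obtain ⟨p, hp⟩ := card_eq_one.1 hc
    have hpm : p ∈ M \ M₁ := by rw [hp]; exact mem_singleton_self p
    obtain ⟨hpM, hpM₁⟩ := mem_sdiff.1 hpm
    have hME : M.erase p = M₁ := by
      ext x
      rw [mem_erase]
      constructor
      · rintro ⟨hx, hxM⟩
        by_contra hx1
        have : x ∈ M \ M₁ := mem_sdiff.2 ⟨hxM, hx1⟩
        rw [hp, mem_singleton] at this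
        exact hx this
      · intro hx
        refine ⟨?_, hsub hx⟩
        rintro rfl
        exact hpM₁ hx
    obtain ⟨a, ha, hav⟩ := val_of hτ0 hpM
    refine ⟨p, hpM, a, ha, ?_⟩
    rw [hav, cell_eq hτ0 p, hME, hQ]
    ext ρ
    rw [mem_cs, mem_cs]
    constructor
    · intro h q hq
      rw [h q hq, mem_cs.1 hτ1 q hq]
    · intro h q hq
      rw [h q hq, mem_cs.1 hτ1 q hq]
  choose p hp a ha hQ using hcell
  -- intersections are small
  have hint : ∀ i i', i ≠ i' → (Q i ∩ Q i').card < (k - 1).factorial := by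
    intro i i' hne
    have hsub : Q i ∩ Q i' ⊆ (Q i \ B i) ∪ (Q i' \ B i') := by
      intro ρ hρ
      obtain ⟨hr, hr'⟩ := mem_inter.1 hρ
      rw [mem_union, mem_sdiff, mem_sdiff]
      by_cases hb : ρ ∈ B i
      · exact Or.inr ⟨hr', fun hb' => (Finset.disjoint_left.1 (h4 i i' hne)) hb hb'⟩
      · exact Or.inl ⟨hr, hb⟩
    have e1 := card_le_card hsub
    have e2 := card_union_le (Q i \ B i) (Q i' \ B i')
    have e3 : (Q i \ B i).card + (B i).card = k.factorial := by
      rw [card_sdiff_of_subset (h2 i), (h1 i).card_eq]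
      have := card_le_card (h2 i)
      rw [(h1 i).card_eq] at this
      omega
    have e4 : (Q i' \ B i').card + (B i').card = k.factorial := by
      rw [card_sdiff_of_subset (h2 i'), (h1 i').card_eq]
      have := card_le_card (h2 i')
      rw [(h1 i').card_eq] at this
      omega
    have e3' : ((Q i \ B i).card : ℝ) + (B i).card = (k.factorial : ℕ) := by exact_mod_cast e3
    have e4' : ((Q i' \ B i').card : ℝ) + (B i').card = (k.factorial : ℕ) := by
      exact_mod_cast e4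
    have e5 : ((Q i ∩ Q i').card : ℝ) ≤ (Q i \ B i).card + (Q i' \ B i').card := by
      exact_mod_cast le_trans e1 e2
    have e6 := htwo i i' hne
    have e7 : ((Q i ∩ Q i').card : ℝ) < ((k - 1).factorial : ℕ) := by linarith
    exact_mod_cast e7
  have hone' : ∀ i i', i ≠ i' → p i = p i' ∨ a i = a i' := by
    intro i i' hne
    by_contra hcon
    push Not at hcon
    have e1 := inter_large (σ₀ := σ₀) hM (hp i) (hp i') (ha i) (ha i') hcon.1 hcon.2
    rw [← hQ i, ← hQ i'] at e1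
    have e2 := hint i i' hne
    omega
  have hnot : ∀ i i', i ≠ i' → ¬ (p i = p i' ∧ a i = a i') := by
    rintro i i' hne ⟨e1, e2⟩
    have e3 : Q i = Q i' := by rw [hQ i, hQ i', e1, e2]
    have e4 := hint i i' hne
    rw [← e3, inter_self, (h1 i).card_eq, hfac] at e4
    have e5 : 1 * (k - 1).factorial ≤ k * (k - 1).factorial :=
      Nat.mul_le_mul_right _ (by omega)
    omega
  have hs : ∀ i, Q i ⊆ coset M σ₀ := by
    intro i
    rw [hQ i]
    exact filter_subset _ _
  -- all `p` equal or all `a` equal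
  by_cases hall : ∃ p₀ ∈ M, ∀ i, p i = p₀
  · obtain ⟨p₀, hp₀, hpi⟩ := hall
    have hainj : ∀ i i', i ≠ i' → a i ≠ a i' := by
      intro i i' hne h
      exact hnot i i' hne ⟨by rw [hpi i, hpi i'], h⟩
    refine compl_of (ι' := {w : Fin n // w ∈ M ∧ ∀ i, a i ≠ w})
      (Q' := fun w => cell M σ₀ p₀ (σ₀ w.1)) hA h1 h2 h3 h4 h5
      (fun w => cell_isCos σ₀ hM hp₀ w.2.1) ?_ ?_ ?_ hs (fun w => filter_subset _ _) ?_
    · intro i i' hne
      rw [Finset.disjoint_left]
      intro σ hσ hσ'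
      rw [hQ, mem_cell, hpi] at hσ hσ'
      exact hainj i i' hne (σ₀.injective (hσ.2.symm.trans hσ'.2))
    · intro w w' hne
      rw [Finset.disjoint_left]
      intro σ hσ hσ'
      rw [mem_cell] at hσ hσ'
      exact hne (Subtype.ext (σ₀.injective (hσ.2.symm.trans hσ'.2)))
    · intro i w
      rw [Finset.disjoint_left]
      intro σ hσ hσ'
      rw [hQ, mem_cell, hpi] at hσ
      rw [mem_cell] at hσ'
      exact w.2.2 i (σ₀.injective (hσ.2.symm.trans hσ'.2))
    · intro σ hσ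
      obtain ⟨w, hw, hwv⟩ := val_of hσ hp₀
      by_cases hex : ∃ i, a i = w
      · obtain ⟨i, hi⟩ := hex
        left
        refine ⟨i, ?_⟩
        rw [hQ, mem_cell, hpi, hi]
        exact ⟨hσ, hwv.symm⟩
      · push Not at hex
        right
        exact ⟨⟨w, hw, hex⟩, mem_cell.2 ⟨hσ, hwv.symm⟩⟩
  · -- two different `p`
    have hMne : M.Nonempty := card_pos.1 (by omega)
    have hιne : Nonempty ι := by
      by_contra hcon
      rw [not_nonempty_iff] at hcon
      obtain ⟨x, hx⟩ := hMne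
      exact hall ⟨x, hx, fun i => (hcon.false i).elim⟩
    obtain ⟨i₀⟩ := hιne
    have hex : ∃ i₁, p i₁ ≠ p i₀ := by
      by_contra hcon
      push Not at hcon
      exact hall ⟨p i₀, hp i₀, hcon⟩
    obtain ⟨i₁, hi₁⟩ := hex
    have hne01 : i₁ ≠ i₀ := by
      rintro rfl
      exact hi₁ rfl
    have ha01 : a i₁ = a i₀ := (hone' i₁ i₀ hne01).resolve_left hi₁
    have hai : ∀ i, a i = a i₀ := by
      intro i
      by_contra hcon
      have n0 : i ≠ i₀ := by
        rintro rfl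
        exact hcon rfl
      have n1 : i ≠ i₁ := by
        rintro rfl
        exact hcon ha01
      have e0 := (hone' i i₀ n0).resolve_right hcon
      have e1 := (hone' i i₁ n1).resolve_right (fun h => hcon (h.trans ha01))
      exact hi₁ (e1.symm.trans e0)
    have hpinj : ∀ i i', i ≠ i' → p i ≠ p i' := by
      intro i i' hne h
      exact hnot i i' hne ⟨h, by rw [hai i, hai i']⟩
    refine compl_of (ι' := {w : Fin n // w ∈ M ∧ ∀ i, p i ≠ w})
      (Q' := fun w => cell M σ₀ w.1 (σ₀ (a i₀))) hA h1 h2 h3 h4 h5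
      (fun w => cell_isCos σ₀ hM w.2.1 (ha i₀)) ?_ ?_ ?_ hs (fun w => filter_subset _ _) ?_
    · intro i i' hne
      rw [Finset.disjoint_left]
      intro σ hσ hσ'
      rw [hQ, mem_cell, hai] at hσ hσ'
      exact hpinj i i' hne (σ.injective (hσ.2.trans hσ'.2.symm))
    · intro w w' hne
      rw [Finset.disjoint_left]
      intro σ hσ hσ'
      rw [mem_cell] at hσ hσ'
      exact hne (Subtype.ext (σ.injective (hσ.2.trans hσ'.2.symm)))
    · intro i w
      rw [Finset.disjoint_left]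
      intro σ hσ hσ'
      rw [hQ, mem_cell, hai] at hσ
      rw [mem_cell] at hσ'
      exact w.2.2 i (σ.injective (hσ.2.trans hσ'.2.symm))
    · intro σ hσ
      obtain ⟨w, hw, hwv⟩ := pos_of hσ (ha i₀)
      by_cases hex : ∃ i, p i = w
      · obtain ⟨i, hi⟩ := hex
        left
        refine ⟨i, ?_⟩
        rw [hQ, mem_cell, hi, hai]
        exact ⟨hσ, hwv⟩
      · push Not at hex
        right
        exact ⟨⟨w, hw, hex⟩, mem_cell.2 ⟨hσ, hwv⟩⟩

end Pool.H60.NN
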