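import Pool.Agent.H60.NN.Step
import Pool.Agent.H60.NM.LexE

set_option autoImplicit false

/-!
# Reduction of the sizes `c * k! + d` and `c * k! - d` to the size `d`
-/

open Finset Equiv Pool.H60.Transp Pool.H60.NM

namespace Pool.H60.NN

/-! ### the initial segments -/

theorem D_lex {n m : ℕ} (hm : m ≤ n.factorial) : D (lexInit n m) = 2 * Ef n m := by
  obtain ⟨X, h1, h2, h3⟩ := exists_down_E n m hm
  rw [lexInit_eq X h1 h2, D_down X h2, h3]

theorem card_lex {n m : ℕ} (hm : m ≤ n.factorial) : (lexInit n m).card = m := by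
  obtain ⟨X, h1, h2, h3⟩ := exists_down_E n m hm
  rw [lexInit_eq X h1 h2, h1]

lemma card_le_fact {n : ℕ} (A : Finset (Perm (Fin n))) : A.card ≤ n.factorial := by
  have := Finset.card_le_univ A
  rwa [Fintype.card_perm, Fintype.card_fin] at this

lemma bd_lex_compl {n m : ℕ} (hm : m ≤ n.factorial) :
    bd (lexInit n (n.factorial - m)) = bd (lexInit n m) := by
  obtain ⟨X, h1, h2, -⟩ := exists_down_E n m hm
  have hcard : (mirror Xᶜ).card = n.factorial - m := by
    rw [card_mirror, Finset.card_compl, Fintype.card_perm, Fintype.card_fin, h1]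
  rw [lexInit_eq X h1 h2, lexInit_eq (mirror Xᶜ) hcard (mirror_down h2), bd_mirror, bd_compl]

/-! ### the maximum of `D` -/

/-- the values of `D` on the sets of `i` permutations -/
def Ds (i : ℕ) : Set ℕ := {x | ∃ (n : ℕ) (B : Finset (Perm (Fin n))), B.card = i ∧ D B = x}

/-- the maximum of `D` on the sets of `i` permutations -/
noncomputable def Dm (i : ℕ) : ℕ := sSup (Ds i)

lemma Ds_bdd (i : ℕ) : BddAbove (Ds i) := by
  refine ⟨i ^ 2, ?_⟩
  rintro x ⟨n, B, h, rfl⟩
  have := D_le B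
  rw [h] at this
  omega

lemma Ds_nonempty (i : ℕ) : (Ds i).Nonempty := by
  have h1 : i ≤ (univ : Finset (Perm (Fin i))).card := by
    rw [Finset.card_univ, Fintype.card_perm, Fintype.card_fin]
    exact Nat.self_le_factorial i
  obtain ⟨B, -, hB⟩ := Finset.exists_subset_card_eq h1
  exact ⟨D B, i, B, hB, rfl⟩

lemma Dm_spec (i : ℕ) : ∃ (n : ℕ) (B : Finset (Perm (Fin n))), B.card = i ∧ D B = Dm i :=
  Nat.sSup_mem (Ds_nonempty i) (Ds_bdd i)

lemma le_Dm {n : ℕ} (B : Finset (Perm (Fin n))) : D B ≤ Dm B.card :=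
  le_csSup (Ds_bdd _) ⟨n, B, rfl, rfl⟩

/-- removal of a vertex of small degree -/
lemma exists_erase {n : ℕ} (B : Finset (Perm (Fin n))) {i : ℕ} (hB : B.card = i + 1) :
    ∃ (B' : Finset (Perm (Fin n))) (δ : ℕ), B'.card = i ∧ D B = D B' + 2 * δ ∧
      (i + 1) * δ ≤ D B := by
  classical
  have hne : B.Nonempty := by
    rw [← Finset.card_pos]
    omega
  obtain ⟨σ, hσ, hmin⟩ : ∃ σ ∈ B, B.card * ∑ π ∈ B, e σ π ≤ D B := by
    by_contra hcon
    push Not at hcon
    have h1 : ∑ _σ ∈ B, D B < ∑ σ ∈ B, B.card * ∑ π ∈ B, e σ π :=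
      Finset.sum_lt_sum_of_nonempty hne hcon
    rw [Finset.sum_const, smul_eq_mul, ← Finset.mul_sum] at h1
    exact lt_irrefl _ h1
  have h1 := D_filter B (fun π => π = σ)
  have e1 : B.filter (fun π => π = σ) = {σ} := by
    ext π
    simp only [mem_filter, mem_singleton]
    constructor
    · exact fun h => h.2
    · rintro rfl
      exact ⟨hσ, rfl⟩
  have e2 : B.filter (fun π => ¬ π = σ) = B.erase σ := by
    ext π
    simp only [mem_filter, mem_erase]
    tauto
  rw [e1, e2] at h1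
  have h2 : D ({σ} : Finset (Perm (Fin n))) = 0 := by
    unfold D cross
    rw [Finset.sum_singleton, Finset.sum_singleton, e_self]
  have h3 : cross (B.erase σ) {σ} = ∑ π ∈ B, e σ π := by
    unfold cross
    rw [← Finset.sum_erase_add B _ hσ, e_self, add_zero]
    apply Finset.sum_congr rfl
    intro π _
    rw [Finset.sum_singleton, e_comm]
  rw [h2, h3] at h1
  refine ⟨B.erase σ, ∑ π ∈ B, e σ π, ?_, ?_, ?_⟩
  · rw [Finset.card_erase_of_mem hσ, hB]
    rfl
  · omega
  · rw [← hB]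
    exact hmin

/-- the true improvement of the bound of level `j` for the sizes up to `(j + 1)!` -/
noncomputable def Ut (j i : ℕ) : ℝ := if i ≤ (j + 1).factorial then ph j i - Dm i else 0

lemma Dm_le_ph {j : ℕ} (hj : 1 ≤ j) (i : ℕ) : (Dm i : ℝ) ≤ ph j i := by
  obtain ⟨n, B, hB, hD⟩ := Dm_spec i
  have h := df_nonneg (k := j) hj B
  rw [df_eq, hB, hD] at h
  linarith

lemma Ut_nonneg {j : ℕ} (hj : 1 ≤ j) (i : ℕ) : 0 ≤ Ut j i := by
  unfold Ut
  split_ifs
  · linarith [Dm_le_ph hj i]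
  · exact le_rfl

theorem comp_Ut {j : ℕ} (hj : 1 ≤ j) : Comp j (Ut j) := by
  refine ⟨Ut_nonneg hj, ?_, ?_, ?_⟩
  · apply le_antisymm _ (Ut_nonneg hj 0)
    unfold Ut
    rw [if_pos (Nat.zero_le _)]
    have : (0 : ℝ) ≤ Dm 0 := Nat.cast_nonneg _
    unfold ph
    simp
  · apply le_antisymm _ (Ut_nonneg hj _)
    unfold Ut
    rw [if_pos le_rfl]
    have h1 := le_Dm (lexInit (j + 1) (j + 1).factorial)
    rw [card_lex le_rfl, D_lex le_rfl, Ef_factorial] at h1
    have h2 : (((j + 1).factorial : ℕ) : ℝ) * ((j + 1).choose 2 : ℕ)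
        ≤ Dm (j + 1).factorial := by exact_mod_cast h1
    rw [ph_cross]
    have h3 := fac_pos (j + 1)
    have h4 : ph (j + 1) ((j + 1).factorial : ℕ)
        = ((j + 1).factorial : ℕ) * ((j + 1).choose 2 : ℕ) := by
      unfold ph
      field_simp
      ring
    rw [h4]
    linarith
  · intro n A
    unfold Ut
    split_ifs with h
    · rw [df_eq]
      have h1 : (D A : ℝ) ≤ Dm A.card := by exact_mod_cast le_Dm A
      linarith
    · exact df_nonneg hj A

theorem slope_Ut {j : ℕ} (hj : 1 ≤ j) (i : ℕ) :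
    Ut j i ≤ Ut j (i + 1) + ((j.choose 2 : ℕ) : ℝ) := by
  have hC : (0 : ℝ) ≤ (j.choose 2 : ℕ) := Nat.cast_nonneg _
  have hnn := Ut_nonneg hj (i + 1)
  by_cases h : i + 1 ≤ (j + 1).factorial
  · obtain ⟨n, B, hB, hD⟩ := Dm_spec (i + 1)
    obtain ⟨B', δ, h1, h2, h3⟩ := exists_erase B hB
    have h4 := le_Dm B'
    rw [h1] at h4
    have h5 := Dm_le_ph hj (i + 1)
    have hJ := fac_pos j
    have hJ1 : (1 : ℝ) ≤ (j.factorial : ℕ) := by exact_mod_cast Nat.factorial_pos j
    have r2 : (Dm (i + 1) : ℝ) = D B' + 2 * δ := by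
      rw [← hD]
      exact_mod_cast h2
    have r3 : ((i : ℝ) + 1) * δ ≤ Dm (i + 1) := by
      rw [← hD]
      exact_mod_cast h3
    have r4 : (D B' : ℝ) ≤ Dm i := by exact_mod_cast h4
    have hi0 : (0 : ℝ) < (i : ℝ) + 1 := by positivity
    -- the degree
    have r5 : (δ : ℝ) ≤ ((i : ℝ) + 1) / (j.factorial : ℕ) + (((j.choose 2 : ℕ) : ℝ) - 1) := by
      have h6 : ((i : ℝ) + 1) * δ
          ≤ ((i : ℝ) + 1) * (((i : ℝ) + 1) / (j.factorial : ℕ)
            + (((j.choose 2 : ℕ) : ℝ) - 1)) := by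
        refine le_trans r3 (le_trans h5 (le_of_eq ?_))
        unfold ph
        push_cast
        ring
      exact le_of_mul_le_mul_left h6 hi0
    have h7 : (1 : ℝ) / (j.factorial : ℕ) ≤ 1 := by
      rw [div_le_one hJ]
      exact hJ1
    have e1 : ph j (i + 1 : ℕ) = ph j i + (2 * (((i : ℝ) + 1) / (j.factorial : ℕ))
        - 1 / (j.factorial : ℕ)) + (((j.choose 2 : ℕ) : ℝ) - 1) := by
      unfold ph
      push_cast
      ring
    unfold Ut
    rw [if_pos (by omega), if_pos h, e1]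
    linarith
  · have h1 : Ut j i = 0 := by
      rcases Nat.lt_or_ge (j + 1).factorial i with h2 | h2
      · unfold Ut
        rw [if_neg (by omega)]
      · have h3 : i = (j + 1).factorial := by omega
        rw [h3]
        exact (comp_Ut hj).top
    rw [h1]
    linarith

lemma Ut_iter {j : ℕ} (hj : 1 ≤ j) (a b : ℕ) :
    Ut j a ≤ Ut j (a + b) + ((j.choose 2 : ℕ) : ℝ) * b := by
  induction b with
  | zero => simp
  | succ b ih =>
    have h := slope_Ut hj (a + b)
    rw [← Nat.add_assoc]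
    push_cast
    linarith

theorem par_Ut {k j : ℕ} (hj : 2 ≤ j) (hk : j + 8 + (j + 3) / 4 ≤ k) : Par k j (Ut j) := by
  have hs : ((j.choose 2 : ℕ) : ℝ) ≤ sl k j := by
    have h1 : 5 * j + 32 ≤ 4 * k := by omega
    have h2 : 5 * (j : ℝ) + 32 ≤ 4 * k := by exact_mod_cast h1
    have hj0 : (0 : ℝ) ≤ j := Nat.cast_nonneg j
    unfold sl
    rw [choose_two_real, choose_two_real]
    nlinarith
  refine ⟨by omega, by omega, by omega, comp_Ut (by omega), ?_, ?_⟩
  · intro a b _
    have h1 := Ut_iter (j := j) (by omega) a b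
    have h2 := Ut_nonneg (j := j) (by omega) b
    have hb0 : (0 : ℝ) ≤ b := Nat.cast_nonneg b
    have h3 := mul_le_mul_of_nonneg_right hs hb0
    linarith
  · intro a ha
    have h1 := Ut_iter (j := j) (by omega) a ((j + 1).factorial - a)
    rw [Nat.add_sub_cancel' ha, (comp_Ut (by omega)).top, Nat.cast_sub ha] at h1
    have ha' : (a : ℝ) ≤ ((j + 1).factorial : ℕ) := by exact_mod_cast ha
    have h3 := mul_le_mul_of_nonneg_right hs
      (by linarith : 0 ≤ (((j + 1).factorial : ℕ) : ℝ) - a)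
    linarith

/-! ### the reduction -/

lemma Ef_plus_real {k c d : ℕ} (hc : c ≤ k) (hdk : d ≤ k.factorial) :
    2 * (Ef (k + 1) (c * k.factorial + d) : ℝ) - 2 * (Ef k d : ℝ)
      = ph k (c * k.factorial + d : ℕ) - ph k d := by
  have hK := fac_pos k
  have h1 := Ef_add_real (n := k + 1) le_rfl hc hdk
  have e : ph k (c * k.factorial + d : ℕ) = ph k d + c * (c - 1) * (k.factorial : ℕ)
      + c * ((k.factorial : ℕ) * (k.choose 2 : ℕ)) + 2 * (c * d) := by
    unfold ph
    push_cast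
    field_simp
    ring
  rw [e, h1]
  ring

lemma Ef_minus_real {k c d : ℕ} (hc1 : 1 ≤ c) (hc : c ≤ k + 1) (hdk : d ≤ k.factorial) :
    2 * (Ef (k + 1) (c * k.factorial - d) : ℝ) - 2 * (Ef k d : ℝ)
      = ph k (c * k.factorial - d : ℕ) - ph k d := by
  have hK := fac_pos k
  obtain ⟨b, rfl⟩ : ∃ b, c = b + 1 := ⟨c - 1, by omega⟩
  have e1 : (b + 1) * k.factorial - d = b * k.factorial + (k.factorial - d) := by
    rw [Nat.add_mul, Nat.one_mul]
    omega
  have h1 := Ef_add_real (n := k + 1) (c := b) (r := k.factorial - d) le_rfl (by omega)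
    (Nat.sub_le _ _)
  have h2 := Ef_rev k d hdk
  rw [e1, h1]
  have e : ph k (b * k.factorial + (k.factorial - d) : ℕ) = ph k d
      + b * (b - 1) * (k.factorial : ℕ) + b * ((k.factorial : ℕ) * (k.choose 2 : ℕ))
      + 2 * (b * ((k.factorial : ℕ) - d))
      + ((k.factorial : ℕ) * (k.choose 2 : ℕ) - 2 * (d * (k.choose 2 : ℕ))) := by
    rw [Nat.cast_add, Nat.cast_mul, Nat.cast_sub hdk]
    unfold ph
    field_simp
    ring
  rw [e, Nat.cast_sub hdk]
  linarith

lemma Ef_eq_of_card {n k m : ℕ} (hn : m ≤ n.factorial) (hk : m ≤ k.factorial) :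
    Ef n m = Ef k m := by
  rcases le_total k n with h | h
  · exact Ef_stable h hk
  · exact (Ef_stable h hn).symm

/-- the excess of a set of `c * k! + d` or `c * k! - d` permutations is at most the excess of a
set of `d` permutations -/
theorem red_D {j k c d n : ℕ} (hj : 2 ≤ j) (hk : j + 8 + (j + 3) / 4 ≤ k) (hc : c ≤ k)
    (hd : d ≤ (j + 1).factorial) (A : Finset (Perm (Fin n)))
    (hA : A.card = c * k.factorial + d ∨ (1 ≤ c ∧ A.card = c * k.factorial - d)) :
    ∃ (N : ℕ) (B : Finset (Perm (Fin N))), B.card = d ∧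
      D A + 2 * Ef N d ≤ D B + 2 * Ef n A.card := by
  have P := par_Ut hj hk
  obtain ⟨hdg, h4d⟩ := d_small P hd
  have hg := Gs_pos P
  have hdk : d ≤ k.factorial := by omega
  obtain ⟨N, B, hB, hD⟩ := Dm_spec d
  refine ⟨N, B, hB, ?_⟩
  have hN : Ef N d = Ef k d := by
    apply Ef_eq_of_card _ hdk
    rw [← hB]
    exact card_le_fact B
  have hle : A.card ≤ c * k.factorial + d := by
    rcases hA with h | ⟨-, h⟩ <;> omega
  have hn : Ef n A.card = Ef (k + 1) A.card := by
    apply Ef_eq_of_card (card_le_fact A)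
    exact le_trans hle (plus_le hc hdk)
  have h1 := near P A hc (d := d) (by linarith) (by
    rcases hA with h | ⟨h0, h⟩
    · exact Or.inr h
    · left
      have h3 : 1 * k.factorial ≤ c * k.factorial := Nat.mul_le_mul_right _ h0
      omega)
  have hval : 2 * (Ef (k + 1) A.card : ℝ) - 2 * (Ef k d : ℝ) = ph k A.card - ph k d := by
    rcases hA with h | ⟨h0, h⟩
    · rw [h]
      exact Ef_plus_real hc hdk
    · rw [h]
      exact Ef_minus_real h0 (by omega) hdk
  have e : gg k j (Ut j) d = G k j (Ut j) d := by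
    unfold gg
    rw [min_eq_left hd]
  rw [e, df_eq] at h1
  unfold G Ut at h1
  rw [if_pos hd, ← hD] at h1
  rw [hN, hn]
  have h3 : (D A : ℝ) + 2 * (Ef k d : ℝ) ≤ D B + 2 * (Ef (k + 1) A.card : ℝ) := by linarith
  exact_mod_cast h3

theorem red_bd {j k c d n : ℕ} (hj : 2 ≤ j) (hk : j + 8 + (j + 3) / 4 ≤ k) (hc : c ≤ k)
    (hd : d ≤ (j + 1).factorial) (A : Finset (Perm (Fin n)))
    (hA : A.card = c * k.factorial + d ∨ (1 ≤ c ∧ A.card = c * k.factorial - d)) :
    ∃ (N : ℕ) (B : Finset (Perm (Fin N))), B.card = d ∧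
      bd (lexInit n A.card) + bd B ≤ bd A + bd (lexInit N d) := by
  obtain ⟨N, B, hB, h⟩ := red_D hj hk hc hd A hA
  refine ⟨N, B, hB, ?_⟩
  have hN : d ≤ N.factorial := by
    rw [← hB]
    exact card_le_fact B
  have h1 := bd_add_D A
  have h2 := bd_add_D (lexInit n A.card)
  have h3 := bd_add_D B
  have h4 := bd_add_D (lexInit N d)
  rw [card_lex (card_le_fact A), D_lex (card_le_fact A)] at h2
  rw [card_lex hN, D_lex hN] at h4
  rw [hB] at h3
  omega

/-- the reduction, with complements -/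
theorem reduction {j k c d n : ℕ} (hj : 2 ≤ j) (hk : j + 8 + (j + 3) / 4 ≤ k)
    (hc : c ≤ k) (hd : d ≤ (j + 1).factorial)
    (A : Finset (Perm (Fin n)))
    {m : ℕ} (hm : m = c * k.factorial + d ∨ (1 ≤ c ∧ m = c * k.factorial - d))
    (hA : A.card = m ∨ n.factorial - A.card = m) :
    ∃ (N : ℕ) (B : Finset (Perm (Fin N))), B.card = d ∧
      bd (lexInit n A.card) + bd B ≤ bd A + bd (lexInit N d) := by
  rcases hA with hA | hA
  · subst hA
    exact red_bd hj hk hc hd A hm
  · have hcard : Aᶜ.card = n.factorial - A.card := by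
      rw [Finset.card_compl, Fintype.card_perm, Fintype.card_fin]
    have h0 := card_le_fact A
    rw [← hA, ← hcard] at hm
    obtain ⟨N, B, hB, h⟩ := red_bd hj hk hc hd Aᶜ hm
    refine ⟨N, B, hB, ?_⟩
    rw [hcard, bd_lex_compl h0, bd_compl] at h
    exact h

end Pool.H60.NN
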