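import Pool.Agent.H60.NN.Base24
import Pool.Agent.H60.NN.Red

set_option autoImplicit false

/-!
# Sizes near a multiple of `k!`
-/

open Finset Equiv Pool.H60.Transp Pool.H60.NM

namespace Pool.H60.NN

/-- `Adm k d`: the number `d` is admissible at level `k`. Every `d ≤ 24` is admissible at the
levels `≥ 11`; every `c j!` with `3 ≤ j` and `c ≤ j + 1` is admissible at the levels `≥ j + 8`; if
`d` is admissible at level `j` and `c ≤ j`, then `c j! + d` and, if `c ≥ 1`, `c j! - d` are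
admissible at the levels `≥ j + 8`. -/
inductive Adm : ℕ → ℕ → Prop
  | small (k d : ℕ) : 11 ≤ k → d ≤ 24 → Adm k d
  | single (k j c : ℕ) : 3 ≤ j → j + 8 ≤ k → c ≤ j + 1 → Adm k (c * j.factorial)
  | plus (k j c d : ℕ) : Adm j d → j + 8 ≤ k → c ≤ j → Adm k (c * j.factorial + d)
  | minus (k j c d : ℕ) : Adm j d → j + 8 ≤ k → 1 ≤ c → c ≤ j → Adm k (c * j.factorial - d)

lemma par_zero {k j : ℕ} (hj : 1 ≤ j) (hjk : j + 8 ≤ k) (hk : 11 ≤ k) :
    Par k j (fun _ => 0) := by
  have hs := sl_ge hjk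
  refine ⟨hj, hjk, hk, comp_zero hj, ?_, ?_⟩
  · intro a b _
    have hb0 : (0 : ℝ) ≤ b := Nat.cast_nonneg b
    have h := mul_le_mul_of_nonneg_right hs hb0
    linarith
  · intro a ha
    have ha' : (a : ℝ) ≤ ((j + 1).factorial : ℕ) := by exact_mod_cast ha
    exact mul_nonneg (by linarith) (by linarith)

lemma wsub_zero (j : ℕ) : Wsub j (fun _ => 0) := by
  intro a b _
  have hJ := fac_pos j
  have h : (0 : ℝ) ≤ 3 / 2 * ((a : ℝ) * b / (j.factorial : ℕ)) := by positivity
  linarith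

theorem Adm.par {k d : ℕ} (h : Adm k d) :
    ∃ (j : ℕ) (U : ℕ → ℝ), Par k j U ∧ Wsub j U ∧ Ex j U d := by
  induction h with
  | small k d hk hd => exact ⟨3, U3, par_three hk, wsub_three, Ex_three hd⟩
  | single k j c hj hjk hc =>
    exact ⟨j, fun _ => 0, par_zero (by omega) hjk (by omega), wsub_zero j, Ex_zero hc⟩
  | plus k j c d _ hjk hc ih =>
    obtain ⟨i, U, P, W, hE⟩ := ih
    exact ⟨j, Un2 j i U, par_Un2 P W hjk, Un2_sub P W, Ex_plus P hc hE⟩
  | minus k j c d _ hjk hc1 hc ih =>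
    obtain ⟨i, U, P, W, hE⟩ := ih
    exact ⟨j, Un2 j i U, par_Un2 P W hjk, Un2_sub P W, Ex_minus P hc1 hc hE⟩

/-- sizes near `c * k!` -/
theorem D_near {k j : ℕ} {U : ℕ → ℝ} (P : Par k j U) {c d n : ℕ} (hc : c ≤ k)
    (hE : Ex j U d) (A : Finset (Perm (Fin n)))
    (hA : A.card = c * k.factorial + d ∨ (1 ≤ c ∧ A.card = c * k.factorial - d)) :
    D A ≤ 2 * Ef n A.card := by
  obtain ⟨hd, hE⟩ := hE
  have hjk := P.hjk
  obtain ⟨hdg, h4d⟩ := d_small P hd
  have hg := Gs_pos P
  have hdk : d ≤ k.factorial := by omega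
  have hle : A.card ≤ c * k.factorial + d := by
    rcases hA with h | ⟨-, h⟩ <;> omega
  have hn : Ef n A.card = Ef (k + 1) A.card := by
    apply Ef_eq_of_card (card_le_fact A)
    exact le_trans hle (plus_le hc hdk)
  have h1 := near P A hc (d := d) (by linarith) (by
    rcases hA with h | ⟨h0, h⟩
    · exact Or.inr h
    · left
      have h3 : 1 * k.factorial ≤ c * k.factorial := Nat.mul_le_mul_right _ h0
      omega)
  have e : gg k j U d = G k j U d := by
    unfold gg
    rw [min_eq_left hd]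
  have h2 : ph k A.card - G k j U d ≤ 2 * (Ef (k + 1) A.card : ℝ) := by
    rcases hA with h | ⟨h0, h⟩
    · rw [h]
      exact ph_sub_G (by omega) hc hd hE
    · rw [h]
      exact ph_sub_G' (by omega) h0 (by omega) hd hE
  rw [e, df_eq] at h1
  rw [hn]
  have h6 : (D A : ℝ) ≤ 2 * (Ef (k + 1) A.card : ℝ) := by linarith
  exact_mod_cast h6

/-- the minimum for the sizes `c * k! + d` and `c * k! - d`, `d` admissible, and complements -/
theorem bd_adm {k c d m n : ℕ} (hd : Adm k d) (hc : c ≤ k)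
    (hm : m = c * k.factorial + d ∨ (1 ≤ c ∧ m = c * k.factorial - d))
    (A : Finset (Perm (Fin n))) (hA : A.card = m ∨ n.factorial - A.card = m) :
    bd (lexInit n A.card) ≤ bd A := by
  obtain ⟨j, U, P, -, hE⟩ := hd.par
  have hcard : A.card + Aᶜ.card = n.factorial := by
    rw [Finset.card_add_card_compl, Fintype.card_perm, Fintype.card_fin]
  rcases hA with hA | hA
  · subst hA
    exact bd_lex_of_D A (D_near P hc hE A hm)
  · have hA' : Aᶜ.card = m := by omega
    subst hA'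
    exact bd_lex_of_D_compl A (D_near P hc hE Aᶜ hm)

end Pool.H60.NN
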