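import Pool.Agent.H60.NN.Small
import Pool.Agent.H60.NM.Pair

set_option autoImplicit false

/-!
# Sets close to a union of matched cosets

For a family of pairwise disjoint and perfectly matched cosets with union `Z` the deficiency of
any `A` is at least `gg |Z \ A| + gg |A \ Z| - 2 |Z \ A| |A \ Z| / k!`.
-/

open Finset Equiv Pool.H60.Transp Pool.H60.NM

namespace Pool.H60.NN

variable {n k j : ℕ} {U : ℕ → ℝ}

/-- the cosets of the stabilisers of `n - k` points -/
def IsCos (k : ℕ) (Q : Finset (Perm (Fin n))) : Prop :=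
  ∃ (M : Finset (Fin n)) (σ₀ : Perm (Fin n)), M.card = k ∧ Q = coset M σ₀

lemma IsCos.card_eq {Q : Finset (Perm (Fin n))} (h : IsCos k Q) : Q.card = k.factorial := by
  obtain ⟨M, σ₀, hM, rfl⟩ := h
  rw [card_coset, hM]

lemma IsCos.degree {Q : Finset (Perm (Fin n))} (h : IsCos k Q) {ρ : Perm (Fin n)} (hρ : ρ ∈ Q) :
    ∑ π ∈ Q, e ρ π = k.choose 2 := by
  obtain ⟨M, σ₀, hM, rfl⟩ := h
  rw [degree_coset M σ₀ hρ, hM]

lemma IsCos.nb {Q : Finset (Perm (Fin n))} (h : IsCos k Q) {ρ : Perm (Fin n)} (hρ : ρ ∉ Q) :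
    ∑ π ∈ Q, e ρ π ≤ 1 := by
  obtain ⟨M, σ₀, hM, rfl⟩ := h
  exact nb_le_one M σ₀ hρ

/-- pairwise disjoint and perfectly matched cosets -/
structure Fam (k : ℕ) {ι : Type} (Q : ι → Finset (Perm (Fin n))) : Prop where
  cos : ∀ i, IsCos k (Q i)
  dis : ∀ i i', i ≠ i' → Disjoint (Q i) (Q i')
  mat : ∀ i i', i ≠ i' → ∀ ρ ∈ Q i, ∑ π ∈ Q i', e ρ π = 1

variable {ι : Type} [Fintype ι] {Q : ι → Finset (Perm (Fin n))}

open Classical in
lemma Fam.card_union (F : Fam k Q) :
    (univ.biUnion Q).card = Fintype.card ι * k.factorial := by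
  rw [Finset.card_biUnion (fun i _ i' _ h => F.dis i i' h)]
  rw [Finset.sum_congr rfl (fun i _ => (F.cos i).card_eq)]
  simp

open Classical in
lemma Fam.sum_union (F : Fam k Q) (ρ : Perm (Fin n)) :
    ∑ π ∈ univ.biUnion Q, e ρ π = ∑ i, ∑ π ∈ Q i, e ρ π :=
  Finset.sum_biUnion (fun i _ i' _ h => F.dis i i' h)

open Classical in
lemma Fam.degree (F : Fam k Q) {ρ : Perm (Fin n)} (hρ : ρ ∈ univ.biUnion Q) :
    ∑ π ∈ univ.biUnion Q, e ρ π + 1 = k.choose 2 + Fintype.card ι := by
  rw [F.sum_union]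
  obtain ⟨i₀, -, hi₀⟩ := Finset.mem_biUnion.1 hρ
  have h1 : ∑ i, ∑ π ∈ Q i, e ρ π = ∑ i, (1 + if i = i₀ then (∑ π ∈ Q i₀, e ρ π - 1 : ℤ) else 0) := by
    push_cast
    apply Finset.sum_congr rfl
    intro i _
    by_cases h : i = i₀
    · subst h
      simp
    · have h2 := F.mat i₀ i (Ne.symm h) ρ hi₀
      rw [if_neg h]
      have : ((∑ π ∈ Q i, e ρ π : ℕ) : ℤ) = 1 := by exact_mod_cast h2
      push_cast at this
      rw [this]
      norm_num
  have h3 := (F.cos i₀).degree hi₀
  rw [Finset.sum_add_distrib, Finset.sum_ite_eq' univ i₀] at h1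
  simp only [Finset.sum_const, Finset.card_univ, mem_univ, if_true] at h1
  have h4 : ((∑ π ∈ Q i₀, e ρ π : ℕ) : ℤ) = k.choose 2 := by exact_mod_cast h3
  push_cast at h4 h1
  rw [h4] at h1
  zify
  rw [h1]
  simp
  ring

open Classical in
lemma Fam.out (F : Fam k Q) {ρ : Perm (Fin n)} (hρ : ρ ∉ univ.biUnion Q) :
    ∑ π ∈ univ.biUnion Q, e ρ π ≤ Fintype.card ι := by
  rw [F.sum_union]
  calc ∑ i, ∑ π ∈ Q i, e ρ π ≤ ∑ _i : ι, 1 := by
        apply Finset.sum_le_sum
        intro i _
        apply (F.cos i).nb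
        intro h
        exact hρ (Finset.mem_biUnion.2 ⟨i, mem_univ _, h⟩)
    _ = Fintype.card ι := by simp

open Classical in
/-- the number of edges of a set close to the union -/
lemma Fam.D_le (F : Fam k Q) (A : Finset (Perm (Fin n))) :
    (D A : ℝ) ≤ ((k.choose 2 : ℕ) + Fintype.card ι - 1)
        * (Fintype.card ι * (k.factorial : ℕ) - 2 * (univ.biUnion Q \ A).card)
      + D (univ.biUnion Q \ A) + D (A \ univ.biUnion Q)
      + 2 * Fintype.card ι * (A \ univ.biUnion Q).card := by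
  set Z := univ.biUnion Q with hZ
  have h1 := D_filter A (fun σ => σ ∈ Z)
  have h2 := D_filter Z (fun σ => σ ∈ A)
  have e1 : A.filter (fun σ => ¬ σ ∈ Z) = A \ Z := by ext; simp
  have e2 : Z.filter (fun σ => ¬ σ ∈ A) = Z \ A := by ext; simp
  have e3 : Z.filter (fun σ => σ ∈ A) = A.filter (fun σ => σ ∈ Z) := by
    ext σ; simp only [mem_filter]; tauto
  rw [e1] at h1
  rw [e2, e3] at h2
  set W := A.filter (fun σ => σ ∈ Z) with hW
  set X := Z \ A with hX
  set L := A \ Z with hL
  -- `cross L W ≤ c |L|`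
  have h3 : cross L W ≤ Fintype.card ι * L.card := by
    have h4 : cross L W ≤ cross L Z := by
      unfold cross
      apply Finset.sum_le_sum
      intro σ _
      apply Finset.sum_le_sum_of_subset
      intro π hπ
      exact (mem_filter.1 hπ).2
    refine le_trans h4 ?_
    unfold cross
    rw [mul_comm, Finset.card_eq_sum_ones, Finset.sum_mul]
    apply Finset.sum_le_sum
    intro σ hσ
    rw [one_mul]
    exact F.out (Finset.mem_sdiff.1 hσ).2
  -- `cross X Z`
  have hsub : ∀ S ⊆ Z, cross S Z + S.card = S.card * (k.choose 2 + Fintype.card ι) := by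
    intro S hS
    unfold cross
    rw [Finset.card_eq_sum_ones, ← Finset.sum_add_distrib, Finset.sum_mul]
    apply Finset.sum_congr rfl
    intro σ hσ
    rw [one_mul]
    exact F.degree (hS hσ)
  have h4 := hsub X Finset.sdiff_subset
  have h5 := hsub Z (Finset.Subset.refl _)
  have h6 : cross X Z = cross X W + D X := by
    have := cross_filter_right X Z (fun σ => σ ∈ A)
    rw [e2, e3] at this
    exact this
  have h7 : cross Z Z = D Z := rfl
  have hcard : Z.card = Fintype.card ι * k.factorial := F.card_union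
  rw [h7] at h5
  -- real numbers
  have r1 : (D A : ℝ) = D W + D L + 2 * cross L W := by exact_mod_cast h1
  have r2 : (D Z : ℝ) = D W + D X + 2 * cross X W := by exact_mod_cast h2
  have r3 : (cross L W : ℝ) ≤ Fintype.card ι * L.card := by exact_mod_cast h3
  have r4 : (cross X Z : ℝ) + X.card = X.card * ((k.choose 2 : ℕ) + Fintype.card ι) := by
    exact_mod_cast h4
  have r5 : (D Z : ℝ) + Z.card = Z.card * ((k.choose 2 : ℕ) + Fintype.card ι) := by
    exact_mod_cast h5
  have r6 : (cross X Z : ℝ) = cross X W + D X := by exact_mod_cast h6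
  have r7 : (Z.card : ℝ) = Fintype.card ι * (k.factorial : ℕ) := by exact_mod_cast hcard
  rw [r7] at r5
  nlinarith

open Classical in
theorem Fam.df_ge (F : Fam k Q) (P : Par k j U) (A : Finset (Perm (Fin n)))
    (hX : (univ.biUnion Q \ A).card ≤ Is k j) (hL : (A \ univ.biUnion Q).card ≤ Is k j) :
    gg k j U (univ.biUnion Q \ A).card + gg k j U (A \ univ.biUnion Q).card
      - 2 * (univ.biUnion Q \ A).card * (A \ univ.biUnion Q).card / (k.factorial : ℕ)
      ≤ df k A := by
  have h1 := F.D_le A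
  have h2 := small_gg P _ hX
  have h3 := small_gg P _ hL
  have hcard : A.card + (univ.biUnion Q \ A).card
      = Fintype.card ι * k.factorial + (A \ univ.biUnion Q).card := by
    rw [← F.card_union]
    have h4 := Finset.card_sdiff_add_card_inter A (univ.biUnion Q)
    have h5 := Finset.card_sdiff_add_card_inter (univ.biUnion Q) A
    rw [Finset.inter_comm] at h5
    omega
  have hK := fac_pos k
  have hm0 : (A.card : ℝ) + (univ.biUnion Q \ A).card
      = Fintype.card ι * (k.factorial : ℕ) + (A \ univ.biUnion Q).card := by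
    exact_mod_cast hcard
  rw [df_eq] at h2 h3 ⊢
  set Z := univ.biUnion Q
  set x : ℝ := ((Z \ A).card : ℝ)
  set l : ℝ := ((A \ Z).card : ℝ)
  set c : ℝ := (Fintype.card ι : ℝ)
  have hm : (A.card : ℝ) = c * (k.factorial : ℕ) + l - x := by linarith
  rw [hm]
  unfold ph at h2 h3 ⊢
  have e1 : (c * (k.factorial : ℕ) + l - x) ^ 2 / (k.factorial : ℕ)
      = c ^ 2 * (k.factorial : ℕ) + 2 * c * (l - x) + l ^ 2 / (k.factorial : ℕ)
        + x ^ 2 / (k.factorial : ℕ) - 2 * x * l / (k.factorial : ℕ) := by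
    field_simp
    ring
  rw [e1]
  nlinarith

end Pool.H60.NN
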