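import Pool.Agent.H60.NN.Small

set_option autoImplicit false

/-!
# The function `gg` is nearly a norm

`gg k j U` is subadditive, and `gg a ≤ gg (a + b) + gg b`.
-/

open Finset Equiv Pool.H60.Transp Pool.H60.NM

namespace Pool.H60.NN

variable {n k j : ℕ} {U : ℕ → ℝ}

/-- the function `G` is at least the identity -/
lemma G_ge (P : Par k j U) {i : ℕ} (hi : i ≤ (j + 1).factorial) : (i : ℝ) ≤ G k j U i := by
  have hjk : j + 7 ≤ k := by have := P.hjk; omega
  have h1 := choose_diff7 hjk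
  have hK := fac_pos k
  have hJ := fac_pos j
  have hU := P.comp.nonneg i
  have hi' : (i : ℝ) ≤ (j + 1) * (j.factorial : ℕ) := by
    rw [← factorial_succ_real]
    exact_mod_cast hi
  have hi0 : (0 : ℝ) ≤ i := Nat.cast_nonneg i
  have h2 : (i : ℝ) ^ 2 / (j.factorial : ℕ) ≤ (j + 1) * i := by
    rw [div_le_iff₀ hJ]
    nlinarith
  have h3 : 0 ≤ (i : ℝ) ^ 2 / (k.factorial : ℕ) := by positivity
  have hj0 : (0 : ℝ) ≤ j := Nat.cast_nonneg j
  unfold G ph
  nlinarith

lemma gg_pair (P : Par k j U) {x l : ℕ} (hx : (x : ℝ) ≤ 2 * Gs k j)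
    (hl : (l : ℝ) ≤ 2 * Gs k j) :
    2 * (x : ℝ) * l / (k.factorial : ℕ) ≤ gg k j U l := by
  have N := P.nums
  have hK := fac_pos k
  have hk := N.hk
  have hD := N.hD
  have hH := N.hH
  have hg := N.hg
  have hC := N.hC
  have hI := N.hI
  have hgC := N.hgC
  have hC55 := N.hC55
  have hx0 : (0 : ℝ) ≤ x := Nat.cast_nonneg x
  have hl0 : (0 : ℝ) ≤ l := Nat.cast_nonneg l
  have hgpos : 0 ≤ Gs k j := by linarith
  have hKg : 100 * Gs k j ≤ (k.factorial : ℕ) := by
    have h := N.hKbig'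
    rw [hI, hH] at h
    nlinarith
  -- `8 C g ≤ K`
  have hKg2 : 8 * ((k.choose 2 : ℕ) : ℝ) * Gs k j ≤ (k.factorial : ℕ) := by
    have h := N.hKbig
    rw [hI, hH] at h
    have h1 : 8 * ((k.choose 2 : ℕ) : ℝ) ≤ 10 * (k : ℝ) * (((k : ℝ) + 1) * (k + 3)) := by
      rw [hC]
      nlinarith
    have h2 := mul_le_mul_of_nonneg_right h1 hgpos
    nlinarith
  rcases le_total l (j + 1).factorial with h | h
  · have h1 := G_ge P h
    have h2 : gg k j U l = G k j U l := by
      unfold gg
      rw [min_eq_left h]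
    rw [h2]
    refine le_trans ?_ h1
    rw [div_le_iff₀ hK]
    nlinarith
  · have h1 := G_ge P (le_refl (j + 1).factorial)
    have h2 : gg k j U l = G k j U (j + 1).factorial := by
      unfold gg
      rw [min_eq_right h]
    rw [h2]
    refine le_trans ?_ h1
    rw [div_le_iff₀ hK]
    have h3 : (x : ℝ) * l ≤ (2 * Gs k j) * (2 * Gs k j) := mul_le_mul hx hl hl0 (by linarith)
    have h4 : 2 * ((2 * Gs k j) * (2 * Gs k j))
        = (((j + 1).factorial : ℕ) : ℝ) * (8 * ((k.choose 2 : ℕ) : ℝ) * Gs k j) := by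
      have h5 : Gs k j * Gs k j = ((j + 1).factorial : ℕ) * ((k.choose 2 : ℕ) : ℝ) * Gs k j := by
        rw [← hg]
      linarith
    have h5 : (((j + 1).factorial : ℕ) : ℝ) * (8 * ((k.choose 2 : ℕ) : ℝ) * Gs k j)
        ≤ ((j + 1).factorial : ℕ) * (k.factorial : ℕ) :=
      mul_le_mul_of_nonneg_left hKg2 (by linarith)
    linarith

/-- the improvement is subadditive up to an error -/
def Wsub (j : ℕ) (U : ℕ → ℝ) : Prop :=
  ∀ a b, a + b ≤ (j + 1).factorial →
    U (a + b) ≤ U a + U b + 3 / 2 * ((a : ℝ) * b / (j.factorial : ℕ))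

lemma gg_of_le {i : ℕ} (h : i ≤ (j + 1).factorial) : gg k j U i = G k j U i := by
  unfold gg
  rw [min_eq_left h]

lemma gg_of_ge {i : ℕ} (h : (j + 1).factorial ≤ i) :
    gg k j U i = G k j U (j + 1).factorial := by
  unfold gg
  rw [min_eq_right h]

/-- the value at `(j + 1)!` -/
lemma G_top_form (P : Par k j U) : G k j U (j + 1).factorial
    = Ld k j * ((j + 1).factorial : ℕ) - bt k j * (((j + 1).factorial : ℕ) : ℝ) ^ 2 := by
  rw [G_form, P.comp.top, add_zero]

/-- subadditivity -/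
theorem ggS (P : Par k j U) (W : Wsub j U) (a b : ℕ) :
    gg k j U (a + b) ≤ gg k j U a + gg k j U b := by
  have hβ := bt_nonneg P
  have hβD := bt_mul P
  have hL := Ld_ge P
  have hJ := fac_pos j
  have hK := fac_pos k
  have ha0 : (0 : ℝ) ≤ a := Nat.cast_nonneg a
  have hb0 : (0 : ℝ) ≤ b := Nat.cast_nonneg b
  have hj0 : (0 : ℝ) ≤ j := Nat.cast_nonneg j
  rcases le_total (a + b) (j + 1).factorial with h | h
  · rw [gg_of_le h, gg_of_le (by omega), gg_of_le (by omega), G_form, G_form, G_form]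
    have h1 := W a b h
    push_cast
    -- `3 / (4 J) ≤ β`
    have h2 : 3 / 4 * (1 / ((j.factorial : ℕ) : ℝ)) ≤ bt k j := by
      have h3 : 4 * ((j.factorial : ℕ) : ℝ) ≤ (k.factorial : ℕ) := by
        have h5 : (k - 1).factorial * 4 ≤ k.factorial := by
          have h6 : k.factorial = k * (k - 1).factorial :=
            (Nat.mul_factorial_pred (by have := P.hk; omega)).symm
          rw [h6, Nat.mul_comm]
          exact Nat.mul_le_mul_right _ (by have := P.hk; omega)
        have h7 : j.factorial ≤ (k - 1).factorial :=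
          Nat.factorial_le (by have := P.hjk; omega)
        have h8 : 4 * j.factorial ≤ k.factorial := by omega
        exact_mod_cast h8
      have h4 : 1 / ((k.factorial : ℕ) : ℝ) ≤ 1 / 4 * (1 / ((j.factorial : ℕ) : ℝ)) := by
        have h5 := one_div_le_one_div_of_le (by positivity : (0 : ℝ) < 4 * (j.factorial : ℕ)) h3
        refine le_trans h5 (le_of_eq ?_)
        field_simp
      unfold bt
      linarith
    have h3 : (a : ℝ) * b / (j.factorial : ℕ) = a * b * (1 / ((j.factorial : ℕ) : ℝ)) := by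
      ring
    rw [h3] at h1
    have h4 := mul_le_mul_of_nonneg_left h2 (mul_nonneg ha0 hb0)
    nlinarith
  rcases le_total (j + 1).factorial a with h2 | h2
  · rw [gg_of_ge h, gg_of_ge h2]
    linarith [gg_nonneg P b]
  rcases le_total (j + 1).factorial b with h3 | h3
  · rw [gg_of_ge h, gg_of_ge h3]
    linarith [gg_nonneg P a]
  rw [gg_of_ge h, gg_of_le h2, gg_of_le h3, G_top_form P, G_form, G_form]
  have h4 := P.comp.nonneg a
  have h5 := P.comp.nonneg b
  have ha : (a : ℝ) ≤ ((j + 1).factorial : ℕ) := by exact_mod_cast h2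
  have hb : (b : ℝ) ≤ ((j + 1).factorial : ℕ) := by exact_mod_cast h3
  have hab : (((j + 1).factorial : ℕ) : ℝ) ≤ a + b := by exact_mod_cast h
  set D : ℝ := (((j + 1).factorial : ℕ) : ℝ)
  set β := bt k j
  set L := Ld k j
  -- `a ^ 2 + b ^ 2 ≤ D ^ 2 + y ^ 2`
  have h6 : (a : ℝ) ^ 2 + (b : ℝ) ^ 2 ≤ D ^ 2 + (a + b - D) ^ 2 := by
    nlinarith [mul_nonneg (sub_nonneg.2 ha) (sub_nonneg.2 hb)]
  have h7 := mul_le_mul_of_nonneg_left h6 hβ
  have h8 : β * (a + b - D) ≤ L := by
    have : β * (a + b - D) ≤ β * D := mul_le_mul_of_nonneg_left (by linarith) hβ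
    linarith
  have h9 : 0 ≤ (L - β * (a + b - D)) * (a + b - D) := mul_nonneg (by linarith) (by linarith)
  nlinarith

/-- the case `a ≤ (j + 1)! ≤ a + b` -/
lemma ggR_mid (P : Par k j U) {a b : ℕ} (ha : a ≤ (j + 1).factorial)
    (hab : (j + 1).factorial ≤ a + b) :
    gg k j U a + (min b (j + 1).factorial : ℕ) ≤ gg k j U (a + b) + gg k j U b := by
  have hβ := bt_nonneg P
  have hβD := bt_mul P
  have hL := Ld_ge P
  have hj0 : (0 : ℝ) ≤ j := Nat.cast_nonneg j
  have hb' : min b (j + 1).factorial ≤ (j + 1).factorial := min_le_right _ _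
  have htop := P.top a ha
  have hU := P.comp.nonneg (min b (j + 1).factorial)
  have e1 : gg k j U b = G k j U (min b (j + 1).factorial) := rfl
  rw [gg_of_ge hab, gg_of_le ha, e1, G_top_form P, G_form, G_form]
  rw [sl_eq] at htop
  have r1 : (a : ℝ) ≤ ((j + 1).factorial : ℕ) := by exact_mod_cast ha
  have r2 : ((min b (j + 1).factorial : ℕ) : ℝ) ≤ ((j + 1).factorial : ℕ) := by
    exact_mod_cast hb'
  have r3 : (((j + 1).factorial : ℕ) : ℝ) - a ≤ (min b (j + 1).factorial : ℕ) := by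
    have h : (j + 1).factorial ≤ min b (j + 1).factorial + a := by omega
    have h' : (((j + 1).factorial : ℕ) : ℝ) ≤ (min b (j + 1).factorial : ℕ) + a := by
      exact_mod_cast h
    linarith
  have ha0 : (0 : ℝ) ≤ a := Nat.cast_nonneg a
  set D : ℝ := (((j + 1).factorial : ℕ) : ℝ)
  set b' : ℝ := ((min b (j + 1).factorial : ℕ) : ℝ)
  set β := bt k j
  set L := Ld k j
  have hb'0 : 0 ≤ b' := Nat.cast_nonneg _
  -- `β (D ^ 2 - a ^ 2) ≤ 2 (j + 1) (D - a)`
  have h1 : β * (D + a) ≤ 2 * (j + 1) := by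
    have : β * a ≤ β * D := mul_le_mul_of_nonneg_left r1 hβ
    linarith
  have h2 := mul_le_mul_of_nonneg_right h1 (by linarith : 0 ≤ D - a)
  have h3 : β * b' ≤ j + 1 := le_trans (mul_le_mul_of_nonneg_left r2 hβ) hβD
  have h4 := mul_le_mul_of_nonneg_right h3 hb'0
  have h5 : (L - j - 2) * (D - a) ≤ (L - j - 2) * b' :=
    mul_le_mul_of_nonneg_left r3 (by linarith)
  nlinarith

/-- the reverse inequality -/
theorem ggR (P : Par k j U) (a b : ℕ) : gg k j U a ≤ gg k j U (a + b) + gg k j U b := by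
  have hβ := bt_nonneg P
  have hβD := bt_mul P
  have hj0 : (0 : ℝ) ≤ j := Nat.cast_nonneg j
  have hb0 : (0 : ℝ) ≤ b := Nat.cast_nonneg b
  rcases le_total (a + b) (j + 1).factorial with h | h
  · rw [gg_of_le h, gg_of_le (by omega), gg_of_le (by omega), G_form, G_form, G_form]
    have h1 := P.rev a b h
    rw [sl_eq] at h1
    have hab : (a : ℝ) + b ≤ ((j + 1).factorial : ℕ) := by exact_mod_cast h
    have h2 : bt k j * (a + b) ≤ j + 1 := le_trans (mul_le_mul_of_nonneg_left hab hβ) hβD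
    have h3 := mul_le_mul_of_nonneg_right h2 hb0
    have h4 := mul_nonneg hj0 hb0
    push_cast
    nlinarith
  rcases le_total (j + 1).factorial a with h2 | h2
  · rw [gg_of_ge h, gg_of_ge h2]
    linarith [gg_nonneg P b]
  · have h3 := ggR_mid P h2 h
    have h4 : (0 : ℝ) ≤ (min b (j + 1).factorial : ℕ) := Nat.cast_nonneg _
    linarith

/-- the reverse inequality with the loss of `NN/Form.lean` -/
theorem ggN (P : Par k j U) {a b : ℕ} (hab : ((a : ℝ) + b) ≤ 2 * Gs k j) :
    gg k j U a + 2 * (b : ℝ) * ((a + b : ℕ) : ℝ) / (k.factorial : ℕ)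
      ≤ gg k j U (a + b) + gg k j U b := by
  have N := P.nums
  have hK := fac_pos k
  have hβ := bt_nonneg P
  have hβD := bt_mul P
  have hj0 : (0 : ℝ) ≤ j := Nat.cast_nonneg j
  have ha0 : (0 : ℝ) ≤ a := Nat.cast_nonneg a
  have hb0 : (0 : ℝ) ≤ b := Nat.cast_nonneg b
  have hgC := N.hgC
  have hC55 := N.hC55
  have hkx := N.hk
  have hg0 : 0 < Gs k j := by linarith
  have hKg : 17600 * Gs k j < (k.factorial : ℕ) := by
    have h1 := N.hKbig'
    have hkg := mul_le_mul_of_nonneg_right hkx hg0.le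
    rw [N.hH, N.hI] at h1
    linarith
  have hloss : 2 * (b : ℝ) * ((a + b : ℕ) : ℝ) / (k.factorial : ℕ) ≤ b := by
    rw [div_le_iff₀ hK]
    push_cast
    have : 2 * ((a : ℝ) + b) ≤ (k.factorial : ℕ) := by linarith
    nlinarith
  rcases le_total (a + b) (j + 1).factorial with h | h
  · rw [gg_of_le h, gg_of_le (by omega : a ≤ (j + 1).factorial),
      gg_of_le (by omega : b ≤ (j + 1).factorial), G_form, G_form, G_form]
    have h1 := P.rev a b h
    rw [sl_eq] at h1
    have hab : (a : ℝ) + b ≤ ((j + 1).factorial : ℕ) := by exact_mod_cast h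
    have h2 : bt k j * (a + b) ≤ j + 1 := le_trans (mul_le_mul_of_nonneg_left hab hβ) hβD
    have h3 := mul_le_mul_of_nonneg_right h2 hb0
    have h4 := mul_nonneg hj0 hb0
    push_cast at hloss ⊢
    nlinarith
  rcases le_total (j + 1).factorial a with h2 | h2
  · rw [gg_of_ge h, gg_of_ge h2]
    have h3 := gg_pair P (x := a + b) (l := b) (by push_cast; linarith) (by linarith)
    have e : 2 * (b : ℝ) * ((a + b : ℕ) : ℝ) / (k.factorial : ℕ)
        = 2 * ((a + b : ℕ) : ℝ) * b / (k.factorial : ℕ) := by ring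
    rw [e]
    linarith
  · have h3 := ggR_mid P h2 h
    rcases le_total b (j + 1).factorial with h4 | h4
    · rw [min_eq_left h4] at h3
      linarith
    · rw [min_eq_right h4] at h3
      have h5 : 2 * (b : ℝ) * ((a + b : ℕ) : ℝ) / (k.factorial : ℕ)
          ≤ ((j + 1).factorial : ℕ) := by
        have h6 : 8 * ((k.choose 2 : ℕ) : ℝ) * Gs k j ≤ (k.factorial : ℕ) := by
          have h := N.hKbig
          rw [N.hI, N.hH] at h
          have h0 : (k : ℝ) - 1 ≤ ((k : ℝ) + 1) * (k + 3) := by nlinarith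
          have h00 := mul_le_mul_of_nonneg_left h0 (by linarith : (0 : ℝ) ≤ 4 * k)
          have h000 : 0 ≤ 6 * (k : ℝ) * (((k : ℝ) + 1) * (k + 3)) := by positivity
          have h1 : 8 * ((k.choose 2 : ℕ) : ℝ) ≤ 10 * (k : ℝ) * (((k : ℝ) + 1) * (k + 3)) := by
            rw [N.hC]
            linarith
          have h2 := mul_le_mul_of_nonneg_right h1 hg0.le
          linarith
        rw [div_le_iff₀ hK]
        push_cast
        have h7 : (b : ℝ) * ((a : ℝ) + b) ≤ (2 * Gs k j) * (2 * Gs k j) :=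
          mul_le_mul (by linarith) hab (by linarith) (by linarith)
        have hD0 : (0 : ℝ) ≤ ((j + 1).factorial : ℕ) := Nat.cast_nonneg _
        have h8 := mul_le_mul_of_nonneg_left h6 hD0
        have h9 : Gs k j * Gs k j
            = ((j + 1).factorial : ℕ) * ((k.choose 2 : ℕ) : ℝ) * Gs k j := by
          rw [← N.hg]
        nlinarith
      linarith

end Pool.H60.NN
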