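import Pool.Agent.H60.NN.Mid
import Pool.Agent.H60.NN.Avg2

set_option autoImplicit false

/-!
# Structure of sets with small deficiency

Write `K = k!`, `g = Gs k j`, `m = |A|`, `N := P.nums`. Strong induction on `|A|` (for all `c`).
* `m ≤ K`: `str_small` (`g ≤ Hs k j`, `2 k - 1 ≥ 1`, `0 ≤ df k A`).
* `m > K` (so `c ≥ 1`) and `Big k A`: `step_compl` or (`2 c = k + 1`) `step_mid`, and induction.
* `m > K`, not `Big k A`. Then `|N A| ≥ k + 1` (`card_le_factorial`); if `|N A| = k + 1` then
  `A ⊆ coset (N A) σ`, so `4 m < (2 k + 1) K`. By `finish2` there are `p ∈ N A`, `v` such that the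
  class `B = A.filter (σ p = v)` has `|B| > K - 5 g` (the hypothesis `h2` of `finish2`: `c ≤ k - 1`
  and `m ≤ c K + 4 g ≤ k K - K / 2`, or `c = k`). Let `R` be the rest, `a = |B|`, `b = |R| ≥ 1`
  (`rest_pos`). `df_split`: `df k A ≥ df k B + df k R - 2 b (K - a) / K`. All `df ≥ 0`.
  (a) `a ≥ K`, `2 b < K`: `df k B + df k R ≤ df k A`. `str_small` for `R`, `sys_dist` (in
      `NN/Sys.lean`): `b ≤ df k R / (2 k - 1)` (not `K - b`, since `2 b < K`). So `B` satisfies
      the condition with the same `c` (`| |B| - c K | ≤ |m - c K| + b`, `b ≤ df k R`); induction,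
      `sys_union`: `2 df k B + df k R / (2 k - 1) ≤ 2 df k A`.
  (b) `a ≥ K`, `2 b ≥ K`: put `Δ = a - K`; `2 b (a - K) / K ≥ Δ`, so
      `df k A ≥ df k B + df k R + Δ`. `B` satisfies the condition with `1` and `R` with `c - 1`
      (`| |R| - (c - 1) K | ≤ |m - c K| + Δ`). Induction for both, `sys_union`.
  (c) `K - 5 g < a < K`: put `i = K - a`. `b = m - a ≤ (k - 1) K + 9 g`, so the loss is at most
      `(2 k - 2 + 18 g / K) i ≤ (2 k - 2 + 1 / 10) i` (`K ≥ 180 g`). `df k B ≤ df k A +
      (2 k - 1) 5 g ≤ Hs k j`, so `str_small` for `B`: `Sys k B (df k B / (2 k - 1))` and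
      `i ≤ df k B / (2 k - 1)` (`sys_dist`, `2 i < K`). Hence the loss is at most
      `(1 - 9 / (10 (2 k - 1))) df k B`, so `df k B / (2 k - 1) ≤ (10 / 9) (df k A - df k R)
      ≤ 2 (df k A - df k R)`; in particular `i ≤ 2 (df k A - df k R)`. `R` satisfies the condition
      with `c - 1`; induction for `R`, `sys_union`.
-/

open Finset Equiv Pool.H60.Transp Pool.H60.NM

namespace Pool.H60.NN

variable {n k j : ℕ} {U : ℕ → ℝ}

theorem str_main (P : Par k j U) : ∀ (A : Finset (Perm (Fin n))) (c : ℕ), c ≤ k →
    |(A.card : ℝ) - c * (k.factorial : ℕ)| + 2 * df k A ≤ 4 * Gs k j → df k A ≤ Gs k j →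
    Sys k A (2 * df k A) := by
  have N := P.nums
  have hk11 := P.hk
  have hkx := N.hk
  have hK := fac_pos k
  have hKbig := N.hKbig'
  have hgC := N.hgC
  have hC := N.hC55
  have hI := N.hI
  have hH := N.hH
  have hk0 : (0 : ℝ) < k := by linarith
  have hg0 : 0 < Gs k j := by linarith
  have hkg : 11 * Gs k j ≤ k * Gs k j := mul_le_mul_of_nonneg_right hkx hg0.le
  have hKg : 17600 * Gs k j < (k.factorial : ℕ) := by
    rw [hI, hH] at hKbig
    linarith
  have hgH : Gs k j ≤ Hs k j := by rw [hH]; linarith
  have h2k1 : (0 : ℝ) < 2 * k - 1 := by linarith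
  intro A
  induction hm : A.card using Nat.strong_induction_on generalizing A with
  | _ m ih =>
  intro c hck hQ hdf
  subst hm
  have hA0 := df_nonneg (k := k) (by omega) A
  by_cases hlt : A.card ≤ k.factorial
  · refine sys_mono ?_ (str_small P A hlt (by linarith))
    rw [div_le_iff₀ h2k1]
    have h1 := mul_le_mul_of_nonneg_left hkx hA0
    linarith
  push Not at hlt
  have hlt' : ((k.factorial : ℕ) : ℝ) ≤ A.card := by exact_mod_cast hlt.le
  by_cases hBA : Big k A
  · by_cases h2c : 2 * c = k + 1
    · obtain ⟨A', h1, h2, h3, h4⟩ := step_mid P A h2c hQ hdf hBA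
      exact h4 (ih A'.card h1 A' rfl (c - 1) (by omega) h2 h3)
    · obtain ⟨A', c', h1, h2, h3, h4, h5, h6⟩ := step_compl P A hck h2c hQ hdf hBA
      exact h6 (ih A'.card h1 A' rfl c' h2 h4 h5)
  have hn : k + 1 ≤ (Pool.H60.Transp.N A).card := by
    by_contra h
    have h1 := card_le_factorial A
    have h2 : ((Pool.H60.Transp.N A).card).factorial ≤ k.factorial :=
      Nat.factorial_le (by omega)
    omega
  have habs := abs_le.1 (le_trans (le_add_of_nonneg_right (by linarith : 0 ≤ 2 * df k A)) hQ)
  have hckR : (c : ℝ) ≤ k := by exact_mod_cast hck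
  have hcK : (c : ℝ) * (k.factorial : ℕ) ≤ k * (k.factorial : ℕ) :=
    mul_le_mul_of_nonneg_right hckR hK.le
  have hc1 : 1 ≤ c := by
    by_contra h
    have h0 : c = 0 := by omega
    rw [h0] at habs
    push_cast at habs
    linarith [habs.2]
  have hm3 : (A.card : ℝ) ≤ k * (k.factorial : ℕ) + 4 * Gs k j := by linarith [habs.2]
  by_cases hcl : ∀ p ∈ Pool.H60.Transp.N A, ∀ v,
      ((A.filter (fun σ => σ p = v)).card : ℝ) + 5 * Gs k j ≤ (k.factorial : ℕ)
  · exfalso
    refine finish2 P A hn hcl hdf hlt' ?_ ?_ hm3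
    · intro hN1
      by_contra h
      push Not at h
      apply hBA
      have hne : A.Nonempty := by
        rw [← Finset.card_pos]
        omega
      obtain ⟨σ₀, hσ₀⟩ := hne
      refine ⟨Pool.H60.Transp.N A, σ₀, hN1, ?_⟩
      rw [Finset.filter_true_of_mem (fun σ hσ => subset_coset hσ₀ hσ)]
      have h' : ((2 * k + 1) * k.factorial : ℕ) ≤ 4 * A.card := by
        have h'' : (((2 * k + 1) * k.factorial : ℕ) : ℝ) ≤ ((4 * A.card : ℕ) : ℝ) := by
          push_cast
          exact h.le
        exact_mod_cast h''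
      exact h'
    · rcases Nat.lt_or_ge c k with hc | hc
      · left
        have h1 : (c : ℝ) + 1 ≤ k := by exact_mod_cast hc
        have h2 := mul_le_mul_of_nonneg_right h1 hK.le
        linarith [habs.2]
      · right
        have h1 : c = k := le_antisymm hck hc
        rw [h1] at habs
        linarith [habs.1]
  push Not at hcl
  obtain ⟨p, hp, v, hc⟩ := hcl
  have hs := df_split k A p v
  have hr := rest_pos hp v
  have hcard := Finset.card_filter_add_card_filter_not (s := A) (fun σ => σ p = v)
  have hR0 := df_nonneg (k := k) (by omega) (A.filter (fun σ => ¬ σ p = v))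
  have hB0 := df_nonneg (k := k) (by omega) (A.filter (fun σ => σ p = v))
  have hU : ∀ {δ δ' : ℝ}, Sys k (A.filter (fun σ => σ p = v)) δ →
      Sys k (A.filter (fun σ => ¬ σ p = v)) δ' → Sys k A (δ + δ') :=
    fun h h' => sys_union (fun σ => σ p = v) h h'
  set B := A.filter (fun σ => σ p = v) with hB
  set R := A.filter (fun σ => ¬ σ p = v) with hR
  have hcard' : (B.card : ℝ) + R.card = A.card := by exact_mod_cast hcard
  have hb0 : (0 : ℝ) ≤ B.card := Nat.cast_nonneg _
  have hr0 : (0 : ℝ) ≤ R.card := Nat.cast_nonneg _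
  have hBm : B.card < A.card := by omega
  have hRm : R.card < A.card := by
    by_contra h
    have h1 : B.card = 0 := by omega
    rw [h1] at hc
    push_cast at hc
    linarith
  have hc1R : (((c - 1 : ℕ)) : ℝ) = c - 1 := by
    rw [Nat.cast_sub hc1]
    norm_num
  have hQ' := hQ
  set K : ℝ := ((k.factorial : ℕ) : ℝ) with hKdef
  set g : ℝ := Gs k j with hgdef
  by_cases haK : k.factorial ≤ B.card
  · have haK' : K ≤ B.card := by rw [hKdef]; exact_mod_cast haK
    by_cases h2b : 2 * (R.card : ℝ) < K
    · -- (a)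
      have h1 : 2 * (R.card : ℝ) * (K - B.card) / K ≤ 0 := by
        apply div_nonpos_of_nonpos_of_nonneg _ hK.le
        exact mul_nonpos_of_nonneg_of_nonpos (by linarith) (by linarith)
      have hRle : R.card ≤ k.factorial := by
        have h2 : (R.card : ℝ) ≤ (k.factorial : ℕ) := by
          rw [← hKdef]
          linarith
        exact_mod_cast h2
      have hRF := str_small P R hRle (by linarith)
      have hq : df k R / (2 * k - 1) ≤ df k R := by
        rw [div_le_iff₀ h2k1]
        have h1 := mul_le_mul_of_nonneg_left hkx hR0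
        linarith
      have hbR : (R.card : ℝ) ≤ df k R / (2 * k - 1) := by
        rcases sys_dist hRF with h | h
        · exact h
        · exfalso
          rw [← hKdef] at h
          linarith
      have hcond : |(B.card : ℝ) - c * (k.factorial : ℕ)| + 2 * df k B ≤ 4 * Gs k j := by
        rw [← hKdef, ← hgdef]
        have h2 : |(B.card : ℝ) - c * K| ≤ |(A.card : ℝ) - c * K| + R.card := by
          have e : (B.card : ℝ) - c * K = ((A.card : ℝ) - c * K) - R.card := by linarith
          rw [e]
          refine le_trans (abs_sub _ _) ?_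
          rw [abs_of_nonneg hr0]
        linarith
      have hBF := ih B.card hBm B rfl c hck hcond (by linarith)
      refine sys_mono ?_ (hU hBF hRF)
      linarith
    · -- (b)
      push Not at h2b
      have h1 : (B.card : ℝ) - K ≤ - (2 * (R.card : ℝ) * (K - B.card) / K) := by
        rw [← neg_div, le_div_iff₀ hK]
        have h2 := mul_le_mul_of_nonneg_right h2b (by linarith : (0 : ℝ) ≤ B.card - K)
        linarith
      have hcondB : |(B.card : ℝ) - (1 : ℕ) * (k.factorial : ℕ)| + 2 * df k B ≤ 4 * Gs k j := by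
        rw [← hKdef, ← hgdef]
        push_cast
        rw [one_mul, abs_of_nonneg (by linarith)]
        linarith
      have hcondR : |(R.card : ℝ) - ((c - 1 : ℕ) : ℝ) * (k.factorial : ℕ)| + 2 * df k R
          ≤ 4 * Gs k j := by
        rw [← hKdef, ← hgdef, hc1R]
        have h2 : |(R.card : ℝ) - ((c : ℝ) - 1) * K|
            ≤ |(A.card : ℝ) - c * K| + (B.card - K) := by
          have e : (R.card : ℝ) - ((c : ℝ) - 1) * K
              = ((A.card : ℝ) - c * K) - (B.card - K) := by linarith
          rw [e]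
          refine le_trans (abs_sub _ _) ?_
          rw [abs_of_nonneg (by linarith : (0 : ℝ) ≤ B.card - K)]
        linarith
      have hBF := ih B.card hBm B rfl 1 (by omega) hcondB (by linarith)
      have hRF := ih R.card hRm R rfl (c - 1) (by omega) hcondR (by linarith)
      refine sys_mono ?_ (hU hBF hRF)
      linarith
  · -- (c)
    push Not at haK
    have haK' : (B.card : ℝ) < K := by rw [hKdef]; exact_mod_cast haK
    have hi0 : 0 < K - B.card := by linarith
    have hbk : (R.card : ℝ) ≤ ((k : ℝ) - 1) * K + 9 * g := by linarith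
    have hloss : 2 * (R.card : ℝ) * (K - B.card) / K
        ≤ (2 * (k : ℝ) - 19 / 10) * (K - B.card) := by
      rw [div_le_iff₀ hK]
      have h5 : 2 * (R.card : ℝ) ≤ (2 * (k : ℝ) - 19 / 10) * K := by linarith
      have h6 := mul_le_mul_of_nonneg_right h5 hi0.le
      linarith
    have hloss2 : (2 * (k : ℝ) - 19 / 10) * (K - B.card) ≤ (2 * (k : ℝ) - 19 / 10) * (5 * g) :=
      mul_le_mul_of_nonneg_left (by linarith) (by linarith)
    have hBH : df k B ≤ Hs k j := by
      rw [hH]
      linarith
    have hBF := str_small P B haK.le hBH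
    set x : ℝ := df k B / (2 * k - 1) with hx
    have hxB : df k B = (2 * k - 1) * x := by
      rw [hx]
      field_simp
    have hx0 : 0 ≤ x := div_nonneg hB0 h2k1.le
    have hx10 : x ≤ 10 * g := by
      rw [hx, div_le_iff₀ h2k1]
      rw [hH] at hBH
      linarith
    have hix : K - B.card ≤ x := by
      rcases sys_dist hBF with h | h
      · exfalso
        linarith
      · exact h
    have hl3 : (2 * (k : ℝ) - 19 / 10) * (K - B.card) ≤ (2 * (k : ℝ) - 19 / 10) * x :=
      mul_le_mul_of_nonneg_left hix (by linarith)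
    have hmain : df k R + 9 / 10 * x ≤ df k A := by linarith
    have hcondR : |(R.card : ℝ) - ((c - 1 : ℕ) : ℝ) * (k.factorial : ℕ)| + 2 * df k R
        ≤ 4 * Gs k j := by
      rw [← hKdef, ← hgdef, hc1R]
      have h2 : |(R.card : ℝ) - ((c : ℝ) - 1) * K|
          ≤ |(A.card : ℝ) - c * K| + (K - B.card) := by
        have e : (R.card : ℝ) - ((c : ℝ) - 1) * K
            = ((A.card : ℝ) - c * K) + (K - B.card) := by linarith
        rw [e]
        refine le_trans (abs_add_le _ _) ?_
        rw [abs_of_nonneg hi0.le]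
      linarith
    have hRF := ih R.card hRm R rfl (c - 1) (by omega) hcondR (by linarith)
    refine sys_mono ?_ (hU hBF hRF)
    linarith

end Pool.H60.NN
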