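import Pool.Agent.H60.NN.Par

set_option autoImplicit false

/-!
# Averaging over `k + 1` positions
-/

open Finset Equiv Pool.H60.Transp Pool.H60.NM

namespace Pool.H60.NN

variable {n k j : ℕ} {U : ℕ → ℝ}

/-- averaging over the positions: with `K = k!`, `m = |A|`, `g`, `S_p = ∑ v |A_pv| ^ 2`,
`C_i = i choose 2` and `n' = |N A| = k + 1`: as in `avg_err` (`NM/Avg.lean`, there `k` is our
`k - 1`), `(k - 1) (m² + K (C_k - 1) m - K g) ≤ (n' - 2) K D A ≤
∑ p ∈ N A, (k S_p + K (C_(k-1) - 1) m)`, `C_k = C_(k-1) + k - 1`, `2 C_(k-1) = (k - 1) (k - 2)`. -/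
theorem avg_mid (hk : 2 ≤ k) (A : Finset (Perm (Fin n)))
    (hN : (Pool.H60.Transp.N A).card = k + 1) {g : ℝ} (hdf : df k A ≤ g) :
    ∑ p ∈ Pool.H60.Transp.N A, ((A.card : ℝ) ^ 2
        - k * ∑ v, ((A.filter (fun σ => σ p = v)).card : ℝ) ^ 2)
      ≤ A.card * (2 * A.card - (k + 1) * (k.factorial : ℕ)) + (k - 1) * ((k.factorial : ℕ) * g) := by
  obtain ⟨i, rfl⟩ : ∃ i, k = i + 1 := ⟨k - 1, by omega⟩
  have hi : 1 ≤ i := by omega
  set K : ℝ := (((i + 1).factorial : ℕ) : ℝ) with hK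
  set c : ℝ := ((i.choose 2 : ℕ) : ℝ) with hc
  set m : ℝ := (A.card : ℝ) with hm
  have hKpos : 0 < K := by rw [hK]; exact_mod_cast Nat.factorial_pos _
  have hn' : ((Pool.H60.Transp.N A).card : ℝ) = i + 2 := by rw [hN]; push_cast; ring
  have hc2 : c = i * (i - 1) / 2 := choose_two_real i
  have hnot' : m ^ 2 + K * (c + i - 1) * m - K * g ≤ K * D A := by
    have h9 := mul_le_mul_of_nonneg_left hdf hKpos.le
    rw [hK, mul_df, choose_succ_two] at h9
    rw [hK]
    linarith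
  -- averaging
  have hav : ∑ p ∈ Pool.H60.Transp.N A, ∑ v, (D (A.filter (fun σ => σ p = v)) : ℝ) + 2 * D A
      = (i + 2) * D A := by
    rw [← hn']
    exact_mod_cast averaging A
  have hPk : ∀ C : Finset (Perm (Fin n)),
      K * D C ≤ (i + 1) * (C.card : ℝ) ^ 2 + K * (c - 1) * C.card := by
    intro C
    have h := P_all i hi C
    unfold P at h
    have h2 := mul_le_mul_of_nonneg_left h (by positivity : (0 : ℝ) ≤ (i : ℝ) + 1)
    rw [hK, factorial_succ_real]
    simp only [hc]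
    linarith
  have hcl : ∀ p, K * ∑ v, (D (A.filter (fun σ => σ p = v)) : ℝ)
      ≤ (i + 1) * ∑ v, ((A.filter (fun σ => σ p = v)).card : ℝ) ^ 2 + K * (c - 1) * m := by
    intro p
    have h1 : K * ∑ v, (D (A.filter (fun σ => σ p = v)) : ℝ)
        ≤ ∑ v, ((i + 1) * ((A.filter (fun σ => σ p = v)).card : ℝ) ^ 2
          + K * (c - 1) * (A.filter (fun σ => σ p = v)).card) := by
      rw [Finset.mul_sum]
      exact Finset.sum_le_sum (fun v _ => hPk _)
    rw [Finset.sum_add_distrib, ← Finset.mul_sum, ← Finset.mul_sum, sum_class_card] at h1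
    exact h1
  have h1 : (i : ℝ) * (K * D A) ≤ (i + 1) * ∑ p ∈ Pool.H60.Transp.N A,
      ∑ v, ((A.filter (fun σ => σ p = v)).card : ℝ) ^ 2 + (i + 2) * (K * (c - 1) * m) := by
    have h1 : ∑ p ∈ Pool.H60.Transp.N A, K * ∑ v, (D (A.filter (fun σ => σ p = v)) : ℝ)
        ≤ ∑ p ∈ Pool.H60.Transp.N A, ((i + 1) * ∑ v, ((A.filter (fun σ => σ p = v)).card : ℝ) ^ 2
          + K * (c - 1) * m) := Finset.sum_le_sum fun p _ => hcl p
    rw [← Finset.mul_sum, Finset.sum_add_distrib, Finset.sum_const, nsmul_eq_mul, hn',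
      ← Finset.mul_sum] at h1
    have h2 : ∑ p ∈ Pool.H60.Transp.N A, ∑ v, (D (A.filter (fun σ => σ p = v)) : ℝ) = i * D A := by
      linarith
    rw [h2] at h1
    linarith
  have h3 := mul_le_mul_of_nonneg_left hnot' (by positivity : (0 : ℝ) ≤ (i : ℝ))
  rw [Finset.sum_sub_distrib, Finset.sum_const, nsmul_eq_mul, hn', ← Finset.mul_sum]
  push_cast
  rw [hc2] at h1 h3
  nlinarith [h1, h3]

/-- the numbers: `k = q + 7`, `q ≥ 4`, `(j + 1)! ≤ q!` as in `Par.nums` (`NN/Par.lean`; use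
`fac7`); `g = Gs k j = (j + 1)! * (k choose 2)`, and with `R = q!`, `(k - 2)! = (q + 5)! =
(q + 5) ⋯ (q + 1) R`, `k! = (q + 7) (q + 6) (q + 5)!` the claim follows from
`7 (q + 7)² (q + 6)² < (q + 8) (q + 5) (q + 4) (q + 3) (q + 2) (q + 1)` (put `q = t + 4`, all
coefficients of the difference are positive). -/
theorem num_mid (P : Par k j U) :
    14 * Gs k j * (k.factorial : ℕ)
      < ((k : ℝ) + 1) * (((k - 2).factorial : ℕ) * ((k - 2).factorial : ℕ)) := by
  obtain ⟨q, rfl⟩ : ∃ q, k = q + 7 := ⟨k - 7, by have := P.hk; omega⟩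
  have hq4 : (4 : ℝ) ≤ q := by
    have : 4 ≤ q := by have := P.hk; omega
    exact_mod_cast this
  have hC := choose_two_real (q + 7)
  have hDR : (((j + 1).factorial : ℕ) : ℝ) ≤ (q.factorial : ℕ) := by
    have : (j + 1).factorial ≤ q.factorial := Nat.factorial_le (by have := P.hjk; omega)
    exact_mod_cast this
  have hR0 : 0 < (((q.factorial : ℕ)) : ℝ) := by exact_mod_cast Nat.factorial_pos q
  have e1 : q + 7 - 2 = q + 5 := by omega
  have hK : (((q + 7).factorial : ℕ) : ℝ) = (q + 7) * (q + 6) * ((q + 5).factorial : ℕ) := by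
    rw [factorial_succ_real, factorial_succ_real]
    push_cast
    ring
  have h5 : (((q + 5).factorial : ℕ) : ℝ)
      = (q + 5) * (q + 4) * (q + 3) * (q + 2) * (q + 1) * (q.factorial : ℕ) := by
    rw [factorial_succ_real, factorial_succ_real, factorial_succ_real, factorial_succ_real,
      factorial_succ_real]
    push_cast
    ring
  have ek : ((q + 7 : ℕ) : ℝ) = q + 7 := by push_cast; ring
  have hg : Gs (q + 7) j = (((j + 1).factorial : ℕ) : ℝ) * (((q + 7).choose 2 : ℕ) : ℝ) := rfl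
  rw [e1, hK, hg, hC, ek]
  have hF0 : 0 < (((q + 5).factorial : ℕ) : ℝ) := by exact_mod_cast Nat.factorial_pos _
  generalize (((q + 5).factorial : ℕ) : ℝ) = F at *
  generalize (((j + 1).factorial : ℕ) : ℝ) = d at *
  generalize ((q.factorial : ℕ) : ℝ) = R at *
  generalize (q : ℝ) = x at *
  have hpoly : 7 * ((x + 7) * (x + 6)) * ((x + 7) * (x + 6))
      < (x + 8) * ((x + 5) * (x + 4) * (x + 3) * (x + 2) * (x + 1)) := by
    obtain ⟨t, ht⟩ : ∃ t : ℝ, t = x - 4 := ⟨_, rfl⟩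
    have ht0 : 0 ≤ t := by linarith
    have hxt : x = t + 4 := by linarith
    rw [hxt]
    have e : (t + 4 + 8) * ((t + 4 + 5) * (t + 4 + 4) * (t + 4 + 3) * (t + 4 + 2) * (t + 4 + 1))
        - 7 * ((t + 4 + 7) * (t + 4 + 6)) * ((t + 4 + 7) * (t + 4 + 6))
        = 96740 + 118068 * t + 46547 * t ^ 2 + 8851 * t ^ 3 + 898 * t ^ 4 + 47 * t ^ 5 + t ^ 6 := by
      ring
    have h2 : 0 ≤ 118068 * t + 46547 * t ^ 2 + 8851 * t ^ 3 + 898 * t ^ 4 + 47 * t ^ 5 + t ^ 6 := by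
      positivity
    linarith
  have h6 : 7 * ((x + 7) * (x + 6)) * ((x + 7) * (x + 6)) * d
      ≤ 7 * ((x + 7) * (x + 6)) * ((x + 7) * (x + 6)) * R :=
    mul_le_mul_of_nonneg_left hDR (by positivity)
  have h7 := mul_lt_mul_of_pos_right hpoly hR0
  have h8 : 7 * ((x + 7) * (x + 6)) * ((x + 7) * (x + 6)) * d < (x + 8) * F := by
    rw [h5]
    calc _ ≤ _ := h6
      _ < _ := h7
      _ = _ := by ring
  have h9 := mul_lt_mul_of_pos_right h8 hF0
  calc 14 * (d * ((x + 7) * (x + 7 - 1) / 2)) * ((x + 7) * (x + 6) * F)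
      = 7 * ((x + 7) * (x + 6)) * ((x + 7) * (x + 6)) * d * F := by ring
    _ < (x + 8) * F * F := h9
    _ = (x + 7 + 1) * (F * F) := by ring

end Pool.H60.NN
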