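import Pool.Agent.H60.NN.MidRow
import Pool.Agent.H60.NN.MidAvg

set_option autoImplicit false

/-!
# Half of a coset of `k + 1` positions: a class which is nearly empty or nearly a coset

`K = k!`, `g = Gs k j`, `T = (k - 2)!`, `m = |A|`. Suppose that for all `p ∈ M` and all values
`v ∈ V = M.image σ₀` (`|V| = k + 1`; the classes of the other values are empty) the class `a_pv`
satisfies `T ≤ a_pv ≤ K - T`. `N A ⊆ M` (`A ⊆ coset M σ₀`), and `|N A| ≥ k + 1` as otherwise
`|A| ≤ k!` (`card_le_factorial`), so `N A = M`. By `avg_mid` there is `p ∈ M` with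
`(k + 1) y ≤ m (2 m - (k + 1) K) + (k - 1) K g`, `y = m ^ 2 - k S_p`. Let `z` be the minimum and
`w` the maximum of the `a_pv`, `v ∈ V` (`Finset.exists_min_image`, `exists_max_image`);
`T ≤ z ≤ w ≤ K - T`. By `row_mid`,
`(k + 1) K (z (2 m - (k + 1) w) - (w - z) g) ≤ (k + 1) y (K - w + z)`. Write
`2 m = (k + 1) K + e`, `|e| ≤ 8 g`.
* The right side is at most `K (m * 8 g + (k - 1) K g) ≤ 5 (k + 1) K * K g` (`0 ≤ K - w + z ≤ K`,
  and the bound for `(k + 1) y` is at most `8 g m + (k - 1) K g`; `m ≤ (k + 1) K / 2 + 4 g`,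
  `32 g ≤ 2 K`).
* The left side is at least `(k + 1) K ((k + 1) z (K - w) - 9 g K)`, `z (K - w) ≥ T ^ 2`.
So `(k + 1) T ^ 2 ≤ 14 g K`, contradiction to `num_mid`.
-/

open Finset Equiv Pool.H60.Transp Pool.H60.NM

namespace Pool.H60.NN

variable {n k j : ℕ} {U : ℕ → ℝ}

/-- the elements of a coset map `M` to the image of `M` -/
private lemma midcls_image {M : Finset (Fin n)} {σ₀ σ : Perm (Fin n)} (hσ : σ ∈ coset M σ₀)
    {p : Fin n} (hp : p ∈ M) : σ p ∈ M.image σ₀ := by
  rw [Finset.mem_image]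
  refine ⟨σ₀.symm (σ p), ?_, by simp⟩
  by_contra h
  simp only [coset, mem_filter, mem_univ, true_and] at hσ
  have h1 := hσ _ h
  rw [Equiv.apply_symm_apply] at h1
  have h2 := σ.injective h1
  rw [h2] at h
  exact h hp

/-- the arithmetic of the proof -/
private lemma midcls_real {k K T g m y z w : ℝ} (hk : 11 ≤ k) (hK : 0 < K) (hT : 0 ≤ T)
    (hg : 0 < g) (hKg : 16 * g ≤ K) (hm0 : 0 ≤ m) (hm : |2 * m - (k + 1) * K| ≤ 8 * g)
    (hz : T ≤ z) (hzw : z ≤ w) (hw : w ≤ K - T)
    (hy : (k + 1) * y ≤ m * (2 * m - (k + 1) * K) + (k - 1) * (K * g))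
    (hrow : K * (z * (2 * m - (k + 1) * w) - (w - z) * g) ≤ y * (K - w + z)) :
    (k + 1) * (T * T) ≤ 14 * g * K := by
  obtain ⟨hm1, hm2⟩ := abs_le.1 hm
  have hk1 : (0 : ℝ) < k + 1 := by linarith
  have hz0 : 0 ≤ z := hT.trans hz
  have hwK : w ≤ K := by linarith
  have hzK : z ≤ K := hzw.trans hwK
  have hd0 : 0 ≤ K - w + z := by linarith
  -- the right side
  have h1 : (k + 1) * y ≤ 5 * (k + 1) * (K * g) := by
    have e1 : m * (2 * m - (k + 1) * K) ≤ m * (8 * g) := mul_le_mul_of_nonneg_left hm2 hm0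
    have e2 : m ≤ (k + 1) * K / 2 + 4 * g := by linarith
    have e3 : m * (8 * g) ≤ ((k + 1) * K / 2 + 4 * g) * (8 * g) :=
      mul_le_mul_of_nonneg_right e2 (by linarith)
    have e4 : g * (16 * g) ≤ g * K := mul_le_mul_of_nonneg_left hKg hg.le
    have e5 : ((k + 1) * K / 2 + 4 * g) * (8 * g) = 4 * (k + 1) * (K * g) + 2 * (g * (16 * g)) := by
      ring
    have e6 : 5 * (k + 1) * (K * g) - 4 * (k + 1) * (K * g) - (k - 1) * (K * g) - 2 * (g * K) = 0 := by
      ring
    linarith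
  have h2 : (k + 1) * y * (K - w + z) ≤ 5 * (k + 1) * (K * g) * K := by
    have e1 : (k + 1) * y * (K - w + z) ≤ 5 * (k + 1) * (K * g) * (K - w + z) :=
      mul_le_mul_of_nonneg_right h1 hd0
    have e2 : 5 * (k + 1) * (K * g) * (K - w + z) ≤ 5 * (k + 1) * (K * g) * K :=
      mul_le_mul_of_nonneg_left (by linarith) (by positivity)
    exact e1.trans e2
  -- the left side
  have h3 : (k + 1) * (z * (K - w)) - 9 * (g * K) ≤ z * (2 * m - (k + 1) * w) - (w - z) * g := by
    have e1 : z * ((k + 1) * K - 8 * g - (k + 1) * w) ≤ z * (2 * m - (k + 1) * w) :=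
      mul_le_mul_of_nonneg_left (by linarith) hz0
    have e2 : g * z ≤ g * K := mul_le_mul_of_nonneg_left hzK hg.le
    have e3 : g * (w - z) ≤ g * K := mul_le_mul_of_nonneg_left (by linarith) hg.le
    have e4 : z * ((k + 1) * K - 8 * g - (k + 1) * w) = (k + 1) * (z * (K - w)) - 8 * (g * z) := by
      ring
    have e5 : (w - z) * g = g * (w - z) := by ring
    linarith
  have h4 : (k + 1) * K * ((k + 1) * (z * (K - w)) - 9 * (g * K)) ≤ 5 * (k + 1) * (K * g) * K := by
    have e1 := mul_le_mul_of_nonneg_left h3 (by positivity : 0 ≤ (k + 1) * K)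
    have e2 := mul_le_mul_of_nonneg_left hrow hk1.le
    have e3 : (k + 1) * (K * (z * (2 * m - (k + 1) * w) - (w - z) * g))
        = (k + 1) * K * (z * (2 * m - (k + 1) * w) - (w - z) * g) := by ring
    have e4 : (k + 1) * (y * (K - w + z)) = (k + 1) * y * (K - w + z) := by ring
    linarith
  have h5 : (k + 1) * (z * (K - w)) - 9 * (g * K) ≤ 5 * (g * K) := by
    have hp : 0 < (k + 1) * K := by positivity
    refine le_of_mul_le_mul_left ?_ hp
    have e1 : 5 * (k + 1) * (K * g) * K = (k + 1) * K * (5 * (g * K)) := by ring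
    linarith
  have h6 : T * T ≤ z * (K - w) := mul_le_mul hz (by linarith) hT hz0
  have h7 := mul_le_mul_of_nonneg_left h6 hk1.le
  linarith

theorem mid_class (P : Par k j U) {M : Finset (Fin n)} {σ₀ : Perm (Fin n)}
    (hM : M.card = k + 1) {A : Finset (Perm (Fin n))} (hA : A ⊆ coset M σ₀)
    (hm : |2 * (A.card : ℝ) - (k + 1) * (k.factorial : ℕ)| ≤ 8 * Gs k j)
    (hdf : df k A ≤ Gs k j) :
    ∃ p ∈ M, ∃ a ∈ M,
      ((A.filter (fun σ => σ p = σ₀ a)).card : ℝ) < ((k - 2).factorial : ℕ) ∨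
      ((k.factorial : ℕ) : ℝ) - ((k - 2).factorial : ℕ)
        < (A.filter (fun σ => σ p = σ₀ a)).card := by
  by_contra hcon
  push Not at hcon
  have N := P.nums
  have hk11 := P.hk
  have hkx := N.hk
  have hK := fac_pos k
  have hgC := N.hgC
  have hC := N.hC55
  have hg0 : 0 < Gs k j := by linarith
  have hKg : 17600 * Gs k j < (k.factorial : ℕ) := by
    have h1 := N.hKbig'
    rw [N.hI, N.hH] at h1
    have h2 : 11 * Gs k j ≤ k * Gs k j := mul_le_mul_of_nonneg_right hkx hg0.le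
    linarith
  -- the positions
  have hNM : Pool.H60.Transp.N A ⊆ M := by
    intro p hp
    by_contra hpM
    simp only [Pool.H60.Transp.N, mem_filter, mem_univ, true_and] at hp
    obtain ⟨σ, hσ, π, hπ, hne⟩ := hp
    have h1 := hA hσ
    have h2 := hA hπ
    simp only [coset, mem_filter, mem_univ, true_and] at h1 h2
    exact hne ((h1 p hpM).trans (h2 p hpM).symm)
  have hAK : ((k.factorial : ℕ) : ℝ) < A.card := by
    have h1 := (abs_le.1 hm).1
    have h2 : (12 : ℝ) * (k.factorial : ℕ) ≤ (k + 1) * (k.factorial : ℕ) :=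
      mul_le_mul_of_nonneg_right (by linarith) hK.le
    linarith
  have hNcard : k + 1 ≤ (Pool.H60.Transp.N A).card := by
    by_contra h
    have h1 := card_le_factorial A
    have h2 : ((Pool.H60.Transp.N A).card).factorial ≤ k.factorial :=
      Nat.factorial_le (by omega)
    have h3 : A.card ≤ k.factorial := h1.trans h2
    have h4 : (A.card : ℝ) ≤ (k.factorial : ℕ) := by exact_mod_cast h3
    linarith
  have hNeq : Pool.H60.Transp.N A = M := Finset.eq_of_subset_of_card_le hNM (by omega)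
  -- averaging
  have hav := avg_mid (by omega : 2 ≤ k) A (by rw [hNeq, hM]) hdf
  rw [hNeq] at hav
  have hMne : M.Nonempty := by
    rw [← Finset.card_pos]
    omega
  obtain ⟨p, hp, hyp⟩ := Finset.exists_le_of_sum_le hMne
    (f := fun p => ((k : ℝ) + 1) * ((A.card : ℝ) ^ 2
      - k * ∑ v, ((A.filter (fun σ => σ p = v)).card : ℝ) ^ 2))
    (g := fun _ => A.card * (2 * A.card - (k + 1) * (k.factorial : ℕ))
      + (k - 1) * ((k.factorial : ℕ) * Gs k j))
    (by
      rw [← Finset.mul_sum, Finset.sum_const, hM, nsmul_eq_mul]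
      push_cast
      exact mul_le_mul_of_nonneg_left hav (by linarith))
  -- the classes
  have hVcard : (M.image σ₀).card = k + 1 := by
    rw [Finset.card_image_of_injective _ σ₀.injective, hM]
  have hVne : (M.image σ₀).Nonempty := hMne.image _
  have hout : ∀ v, v ∉ M.image σ₀ → A.filter (fun σ => σ p = v) = ∅ := by
    intro v hv
    rw [Finset.filter_eq_empty_iff]
    rintro σ hσ rfl
    exact hv (midcls_image (hA hσ) hp)
  obtain ⟨v₀, hv₀, hmin⟩ := Finset.exists_min_image (M.image σ₀)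
    (fun v => (A.filter (fun σ => σ p = v)).card) hVne
  obtain ⟨v₁, hv₁, hmax⟩ := Finset.exists_max_image (M.image σ₀)
    (fun v => (A.filter (fun σ => σ p = v)).card) hVne
  have hrow := row_mid (by omega : 2 ≤ k) A p (M.image σ₀) hVcard hout hdf hv₀
    (z := ((A.filter (fun σ => σ p = v₀)).card : ℝ))
    (w := ((A.filter (fun σ => σ p = v₁)).card : ℝ)) rfl
    (fun v hv => by exact_mod_cast hmin v hv) (fun v hv => by exact_mod_cast hmax v hv)
  have hzw : ((A.filter (fun σ => σ p = v₀)).card : ℝ) ≤ (A.filter (fun σ => σ p = v₁)).card := by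
    exact_mod_cast hmin v₁ hv₁
  have hzT : (((k - 2).factorial : ℕ) : ℝ) ≤ (A.filter (fun σ => σ p = v₀)).card := by
    obtain ⟨a, ha, rfl⟩ := Finset.mem_image.1 hv₀
    exact (hcon p hp a ha).1
  have hwT : ((A.filter (fun σ => σ p = v₁)).card : ℝ)
      ≤ ((k.factorial : ℕ) : ℝ) - ((k - 2).factorial : ℕ) := by
    obtain ⟨a, ha, rfl⟩ := Finset.mem_image.1 hv₁
    exact (hcon p hp a ha).2
  have hfin := midcls_real (T := ((k - 2).factorial : ℕ)) hkx hK (Nat.cast_nonneg _) hg0
    (by linarith) (Nat.cast_nonneg _) hm hzT hzw hwT hyp hrow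
  have hnum := num_mid P
  linarith

end Pool.H60.NN
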