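import Pool.Agent.H60.NN.Sys

set_option autoImplicit false

/-!
# Structure of sets of at most `k!` permutations with small deficiency

The version of `NM/StrS.lean` (helper23) for the new constants `I = Is k j = 30 g`,
`H = Hs k j = 10 k g`, `g = Gs k j`, `k ≥ 11` (see `NN/Par.lean`), with the hypothesis
`df k A ≤ H` and the better conclusion `df k A / (2 k - 1)`. Same proof:
* `|A| ≤ I`: `2 k |A| ≤ df k A`.
* `I < |A| < K - I`: `df k A ≥ (k - 1) I (K - I) / K > H` (`I ≤ K / 100`, `29 (k - 1) > 10 k`).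
* `|A| = K - i`, `i ≤ I`, inside a coset of `k` positions: `df k A ≥ 2 k i`.
* otherwise a class with `(k + 1) |B| ≥ 3 K`, `R` the rest: if `i + |R| ≤ I` then
  `df k A ≥ df k B + 2 k |R| - 2 |R| I / K ≥ df k B + (2 k - 1) |R|`, induction; if `i + |R| > I`
  then `df k A > H`: as in `below` (`NM/TT.lean`): for `2 |B| ≥ K` because
  `(k - 3) / 2 * I = 15 (k - 3) g > 10 k g`, for `2 |B| < K` because `K - |B| ≥ K / 2 > H`.
* all classes small: `finish` (in `NN/Small.lean`).
-/

open Finset Equiv Pool.H60.Transp Pool.H60.NM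

namespace Pool.H60.NN

variable {n k j : ℕ} {U : ℕ → ℝ}

theorem str_small (P : Par k j U) : ∀ A : Finset (Perm (Fin n)), A.card ≤ k.factorial →
    df k A ≤ Hs k j → Sys k A (df k A / (2 * k - 1)) := by
  have N := P.nums
  have hk9 := P.hk
  have hkx := N.hk
  have hK := fac_pos k
  have hKbig := N.hKbig'
  have hgC := N.hgC
  have hC := N.hC55
  have hI := N.hI
  have hH := N.hH
  have hk0 : (0 : ℝ) < k := by linarith
  have hk1 : (0 : ℝ) < 2 * k - 1 := by linarith
  have hg0 : 0 < Gs k j := by linarith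
  have hHg : 110 * Gs k j ≤ Hs k j := by
    rw [hH]
    have h := mul_le_mul_of_nonneg_right hkx hg0.le
    linarith
  intro A
  induction hm : A.card using Nat.strong_induction_on generalizing A with
  | _ m ih =>
  intro hle hdf
  subst hm
  have hA0 : (0 : ℝ) ≤ A.card := Nat.cast_nonneg _
  by_cases hsm : A.card ≤ Is k j
  · -- small sets
    have h1 := small_lin P A hsm
    refine sys_mono ?_ (sys_empty A)
    rw [le_div_iff₀ hk1]
    linarith
  push Not at hsm
  have hsm' : ((Is k j : ℕ) : ℝ) < A.card := by exact_mod_cast hsm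
  by_cases hiI : k.factorial - A.card ≤ Is k j
  swap
  · -- sizes in the middle
    exfalso
    push Not at hiI
    have h2' : ((Is k j : ℕ) : ℝ) < (k.factorial : ℕ) - A.card := by
      rw [← Nat.cast_sub hle]
      exact_mod_cast hiI
    have h1 := df_mid' (k := k) (by omega) A
    have h1' := le_trans h1 hdf
    rw [div_le_iff₀ hK] at h1'
    set K : ℝ := ((k.factorial : ℕ) : ℝ)
    set a : ℝ := (A.card : ℝ)
    have h3 : 15 * Gs k j * K ≤ a * (K - a) := by
      have h4 : 0 ≤ (a - (Is k j : ℕ)) * (K - a - (Is k j : ℕ)) :=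
        mul_nonneg (by linarith) (by linarith)
      have h5 : ((Is k j : ℕ) : ℝ) * (K - (Is k j : ℕ)) ≤ a * (K - a) := by nlinarith
      have h7 : ((Is k j : ℕ) : ℝ) * (K / 2) ≤ ((Is k j : ℕ) : ℝ) * (K - (Is k j : ℕ)) :=
        mul_le_mul_of_nonneg_left (by linarith) (Nat.cast_nonneg _)
      have h8 : 15 * Gs k j * K = ((Is k j : ℕ) : ℝ) * (K / 2) := by
        rw [hI]
        ring
      linarith
    have hgK : 0 < Gs k j * K := mul_pos hg0 hK
    have h8 : ((k : ℝ) - 1) * (15 * Gs k j * K) ≤ ((k : ℝ) - 1) * (a * (K - a)) :=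
      mul_le_mul_of_nonneg_left h3 (by linarith)
    have h9 : ((k : ℝ) - 1) * a * (K - a) = ((k : ℝ) - 1) * (a * (K - a)) := by ring
    rw [h9, hH] at h1'
    have h10 : 11 * (Gs k j * K) ≤ k * (Gs k j * K) :=
      mul_le_mul_of_nonneg_right hkx hgK.le
    have h11 : ((k : ℝ) - 1) * (15 * Gs k j * K) - 10 * k * Gs k j * K
        = 5 * (k * (Gs k j * K)) - 15 * (Gs k j * K) := by ring
    linarith
  obtain ⟨i, hmi⟩ : ∃ i, A.card + i = k.factorial := ⟨k.factorial - A.card, by omega⟩
  have hi : i ≤ Is k j := by omega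
  have hi' : (i : ℝ) ≤ (Is k j : ℕ) := by exact_mod_cast hi
  have hi0 : (0 : ℝ) ≤ i := Nat.cast_nonneg _
  have hmi' : (A.card : ℝ) + i = (k.factorial : ℕ) := by exact_mod_cast hmi
  have hApos : 0 < A.card := by omega
  obtain ⟨σ₀, hσ₀⟩ := Finset.card_pos.1 hApos
  by_cases hn : (Pool.H60.Transp.N A).card ≤ k
  · -- a coset of `S_k`
    have hnk : (Pool.H60.Transp.N A).card = k := by
      by_contra hne
      have h1 := card_le_factorial A
      have h2 : ((Pool.H60.Transp.N A).card).factorial ≤ (k - 1).factorial :=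
        Nat.factorial_le (by omega)
      have h3 : k.factorial = k * (k - 1).factorial := by
        obtain ⟨j, rfl⟩ : ∃ j, k = j + 1 := ⟨k - 1, by omega⟩
        rw [Nat.factorial_succ]; simp
      have h4 : k * A.card ≤ k.factorial := by
        rw [h3]
        exact Nat.mul_le_mul_left _ (by omega)
      have h5 : (k : ℝ) * A.card ≤ (k.factorial : ℕ) := by exact_mod_cast h4
      have h6 : 2 * (A.card : ℝ) ≤ k * A.card :=
        mul_le_mul_of_nonneg_right (by linarith) (Nat.cast_nonneg _)
      linarith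
    have hsub := subset_coset hσ₀
    have h1 := df_compl _ σ₀ hnk hsub
    have h2 : (coset (Pool.H60.Transp.N A) σ₀ \ A).card = i := by
      rw [Finset.card_sdiff_of_subset hsub, card_coset, hnk]
      omega
    have h3 := small_lin P (coset (Pool.H60.Transp.N A) σ₀ \ A) (by omega)
    rw [h2, h1] at h3
    refine sys_mono ?_ (sys_coset ⟨Pool.H60.Transp.N A, σ₀, hnk, rfl⟩ hsub)
    rw [le_div_iff₀ hk1]
    have h4 : ((k.factorial : ℕ) : ℝ) - A.card = i := by linarith
    rw [h4]
    linarith
  push Not at hn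
  by_cases hcl : ∀ p ∈ Pool.H60.Transp.N A, ∀ v,
      ((k : ℝ) + 1) * (A.filter (fun σ => σ p = v)).card < 3 * (k.factorial : ℕ)
  · exfalso
    refine finish P A (by omega) (s := 0) (by linarith) ?_ ?_ ?_ hdf
    · intro p hp v
      have h1 := hcl p hp v
      have h2 : 3 * ((k.factorial : ℕ) : ℝ) ≤ k * (k.factorial : ℕ) :=
        mul_le_mul_of_nonneg_right (by linarith) hK.le
      linarith
    · have h1 : (2 : ℝ) * (k.factorial : ℕ) ≤ k * (k.factorial : ℕ) :=
        mul_le_mul_of_nonneg_right (by linarith) hK.le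
      linarith
    · linarith
  push Not at hcl
  obtain ⟨p, hp, v, hc⟩ := hcl
  have hs := df_split k A p v
  have hr := rest_pos hp v
  have hcard := Finset.card_filter_add_card_filter_not (s := A) (fun σ => σ p = v)
  have hR0 := df_nonneg (k := k) (by omega) (A.filter (fun σ => ¬ σ p = v))
  have hB0 := df_mid' (k := k) (by omega) (A.filter (fun σ => σ p = v))
  have hU : ∀ {δ δ' : ℝ}, Sys k (A.filter (fun σ => σ p = v)) δ →
      Sys k (A.filter (fun σ => ¬ σ p = v)) δ' → Sys k A (δ + δ') :=
    fun h h' => sys_union (fun σ => σ p = v) h h'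
  set B := A.filter (fun σ => σ p = v) with hB
  set R := A.filter (fun σ => ¬ σ p = v) with hR
  have hcard' : (B.card : ℝ) + R.card = A.card := by exact_mod_cast hcard
  have hb0 : (0 : ℝ) ≤ B.card := Nat.cast_nonneg _
  have hr0 : (0 : ℝ) ≤ R.card := Nat.cast_nonneg _
  by_cases hi2 : i + R.card ≤ Is k j
  · have hi2' : (i : ℝ) + R.card ≤ (Is k j : ℕ) := by exact_mod_cast hi2
    have h2 := small_lin P R (by omega)
    -- the loss of the splitting is at most `|R|`
    have h3 : 2 * (R.card : ℝ) * ((k.factorial : ℕ) - B.card) / (k.factorial : ℕ)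
        ≤ R.card := by
      rw [div_le_iff₀ hK]
      have h4 : 2 * (((k.factorial : ℕ) : ℝ) - B.card) ≤ (k.factorial : ℕ) := by linarith
      have h5 := mul_le_mul_of_nonneg_left h4 hr0
      linarith
    have h6 : 11 * (R.card : ℝ) ≤ (k : ℝ) * R.card :=
      mul_le_mul_of_nonneg_right hkx hr0
    have hBdf : df k B ≤ Hs k j := by linarith
    have h1 := ih B.card (by omega) B rfl (by omega) hBdf
    refine sys_mono ?_ (hU h1 (sys_empty R))
    rw [← sub_nonneg]
    have h7 : df k A / (2 * k - 1) - (df k B / (2 * k - 1) + R.card)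
        = (df k A - df k B - (2 * k - 1) * R.card) / (2 * k - 1) := by
      field_simp
      ring
    rw [h7]
    apply div_nonneg _ hk1.le
    linarith
  · exfalso
    push Not at hi2
    have hi2' : ((Is k j : ℕ) : ℝ) < i + R.card := by exact_mod_cast hi2
    have hH2 : Hs k j < df k A := by
      set K : ℝ := ((k.factorial : ℕ) : ℝ) with hKdef
      set a : ℝ := (B.card : ℝ) with ha
      set b : ℝ := (R.card : ℝ) with hb
      have hKa : K - a = i + b := by linarith
      have hbK : b ≤ K - a := by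
        rw [hKa]; linarith
      have haK : 0 ≤ K - a := le_trans hr0 hbK
      -- `df A ≥ (K - a) ((k - 1) a - 2 b) / K`
      have h1 : (K - a) * (((k : ℝ) + 1) * a - 2 * K) / K ≤ df k A := by
        have h2 : (K - a) * (((k : ℝ) + 1) * a - 2 * K) / K
            ≤ ((k : ℝ) - 1) * a * (K - a) / K - 2 * b * (K - a) / K := by
          rw [← sub_div]
          apply div_le_div_of_nonneg_right _ hK.le
          nlinarith
        linarith
      refine lt_of_lt_of_le ?_ h1
      rw [lt_div_iff₀ hK]
      rcases le_total K (2 * a) with h2 | h2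
      · have h3 : ((k : ℝ) - 3) / 2 * K ≤ ((k : ℝ) + 1) * a - 2 * K := by nlinarith
        have h4 : ((Is k j : ℕ) : ℝ) ≤ K - a := by linarith
        have h5 : Hs k j < ((Is k j : ℕ) : ℝ) * (((k : ℝ) - 3) / 2) := by
          rw [hI, hH]
          have h6 := mul_le_mul_of_nonneg_right hkx hg0.le
          have h7 : 30 * Gs k j * (((k : ℝ) - 3) / 2) - 10 * k * Gs k j
              = 5 * (k * Gs k j) - 45 * Gs k j := by ring
          linarith
        have hk3 : 0 ≤ ((k : ℝ) - 3) / 2 := by linarith
        calc Hs k j * K < ((Is k j : ℕ) : ℝ) * (((k : ℝ) - 3) / 2) * K :=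
              mul_lt_mul_of_pos_right h5 hK
          _ = ((Is k j : ℕ) : ℝ) * (((k : ℝ) - 3) / 2 * K) := by ring
          _ ≤ (K - a) * (((k : ℝ) + 1) * a - 2 * K) :=
              mul_le_mul h4 h3 (mul_nonneg hk3 hK.le) haK
      · have h3 : K ≤ ((k : ℝ) + 1) * a - 2 * K := by linarith
        have h4 : Hs k j < K - a := by linarith
        exact lt_of_lt_of_le (mul_lt_mul_of_pos_right h4 hK) (mul_le_mul_of_nonneg_left h3 haK)
    linarith

end Pool.H60.NN
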