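import Pool.Agent.H60.NN.StepC
import Pool.Agent.H60.NN.StrS
import Pool.Agent.H60.NN.MidCls

set_option autoImplicit false

/-!
# Sets which contain about half of a coset of `k + 1` positions
-/

open Finset Equiv Pool.H60.Transp Pool.H60.NM

namespace Pool.H60.NN

variable {n k j : ℕ} {U : ℕ → ℝ}

/-- level `k - 3` -/
lemma small_lin2 (hk : 4 ≤ k) (M : Finset (Perm (Fin n))) (hM : M.card ≤ (k - 2).factorial) :
    (2 * (k : ℝ) - 4) * M.card ≤ df k M := by
  have h := D_le_level (j := k - 3) (by omega) M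
  have hK := fac_pos k
  have hL := fac_pos (k - 3)
  have hi0 : (0 : ℝ) ≤ M.card := Nat.cast_nonneg _
  have e0 : k - 2 = (k - 3) + 1 := by omega
  have e1 : ((k - 3 : ℕ) : ℝ) = (k : ℝ) - 3 := by
    rw [Nat.cast_sub (by omega)]
    norm_num
  have hi : (M.card : ℝ) ≤ ((k : ℝ) - 2) * ((k - 3).factorial : ℕ) := by
    have h1 : (M.card : ℝ) ≤ ((k - 2).factorial : ℕ) := by exact_mod_cast hM
    rw [e0, factorial_succ_real, e1] at h1
    linarith
  have h1 := choose_diff (k := k) (l := k - 3)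
  rw [e1] at h1
  have h2 : (0 : ℝ) ≤ (M.card : ℝ) ^ 2 / (k.factorial : ℕ) := by positivity
  have h3 : (M.card : ℝ) ^ 2 / ((k - 3).factorial : ℕ) ≤ ((k : ℝ) - 2) * M.card := by
    rw [div_le_iff₀ hL]
    nlinarith
  unfold df
  nlinarith

/-- a class of a subset of a coset lies in a coset -/
lemma class_sub_coset {M : Finset (Fin n)} {σ₀ : Perm (Fin n)} {A : Finset (Perm (Fin n))}
    (hA : A ⊆ coset M σ₀) {p v : Fin n} {σ₁ : Perm (Fin n)}
    (hσ₁ : σ₁ ∈ A.filter (fun σ => σ p = v)) :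
    A.filter (fun σ => σ p = v) ⊆ coset (M.erase p) σ₁ := by
  intro σ hσ
  obtain ⟨h1, h2⟩ := mem_filter.1 hσ
  obtain ⟨h3, h4⟩ := mem_filter.1 hσ₁
  have h5 := hA h1
  have h6 := hA h3
  simp only [coset, mem_filter, mem_univ, true_and] at h5 h6 ⊢
  intro q hq
  by_cases hqp : q = p
  · rw [hqp, h2, h4]
  · have hqM : q ∉ M := fun h => hq (Finset.mem_erase.2 ⟨hqp, h⟩)
    rw [h5 q hqM, h6 q hqM]

/-- numbers -/
lemma fac_two (P : Par k j U) : 110 * (((k - 2).factorial : ℕ) : ℝ) ≤ (k.factorial : ℕ) := by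
  have hk := P.hk
  obtain ⟨i, rfl⟩ : ∃ i, k = i + 2 := ⟨k - 2, by omega⟩
  rw [Nat.add_sub_cancel]
  have h1 := factorial_succ_real (i + 1)
  rw [factorial_succ_real i] at h1
  rw [h1]
  have hi : (9 : ℝ) ≤ i := by
    have : 9 ≤ i := by omega
    exact_mod_cast this
  have hf := fac_pos i
  push_cast
  have h2 : (110 : ℝ) ≤ ((i : ℝ) + 1 + 1) * ((i : ℝ) + 1) := by nlinarith
  calc 110 * ((i.factorial : ℕ) : ℝ) ≤ (((i : ℝ) + 1 + 1) * ((i : ℝ) + 1)) * (i.factorial : ℕ) :=
        mul_le_mul_of_nonneg_right h2 hf.le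
    _ = _ := by ring

theorem mid_split (P : Par k j U) {M : Finset (Fin n)} {σ₀ : Perm (Fin n)}
    (hM : M.card = k + 1) {A : Finset (Perm (Fin n))} (hA : A ⊆ coset M σ₀) {c : ℕ}
    (h2c : 2 * c = k + 1)
    (hQ : |(A.card : ℝ) - c * (k.factorial : ℕ)| + 2 * df k A ≤ 4 * Gs k j)
    (hdf : df k A ≤ Gs k j) {p v : Fin n} (hp : p ∈ M)
    (hB : ((k.factorial : ℕ) : ℝ) - ((k - 2).factorial : ℕ)
        < (A.filter (fun σ => σ p = v)).card) :
    ∃ R : Finset (Perm (Fin n)),
      (R.card : ℝ) + ((k.factorial : ℕ) - ((k - 2).factorial : ℕ)) < A.card ∧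
      |(R.card : ℝ) - ((c - 1 : ℕ) : ℝ) * (k.factorial : ℕ)| + 2 * df k R ≤ 4 * Gs k j ∧
      df k R ≤ Gs k j ∧ (Sys k R (2 * df k R) → Sys k A (2 * df k A)) := by
  classical
  have N := P.nums
  have hk11 := P.hk
  have hkx := N.hk
  have hK := fac_pos k
  have hT := fac_two P
  have hT0 := fac_pos (k - 2)
  have hKbig := N.hKbig'
  have hgC := N.hgC
  have hC := N.hC55
  have hI := N.hI
  have hH := N.hH
  have hg0 : 0 < Gs k j := by linarith
  have hkg : 11 * Gs k j ≤ k * Gs k j := mul_le_mul_of_nonneg_right hkx hg0.le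
  have hKg : 17600 * Gs k j < (k.factorial : ℕ) := by
    rw [hI, hH] at hKbig
    linarith
  have h2k1 : (0 : ℝ) < 2 * k - 1 := by linarith
  -- the coset of the class
  have hne : (A.filter (fun σ => σ p = v)).Nonempty := by
    rw [← Finset.card_pos]
    have h1 : (0 : ℝ) < (A.filter (fun σ => σ p = v)).card := by linarith
    exact_mod_cast h1
  obtain ⟨σ₁, hσ₁⟩ := hne
  have hsub := class_sub_coset hA hσ₁
  have hMe : (M.erase p).card = k := by
    rw [Finset.card_erase_of_mem hp, hM]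
    simp
  have hcos := card_coset (M.erase p) σ₁
  rw [hMe] at hcos
  have hBle : (A.filter (fun σ => σ p = v)).card ≤ k.factorial := by
    rw [← hcos]
    exact Finset.card_le_card hsub
  have hcd : (coset (M.erase p) σ₁ \ A.filter (fun σ => σ p = v)).card
      + (A.filter (fun σ => σ p = v)).card = k.factorial := by
    rw [Finset.card_sdiff_of_subset hsub, hcos]
    omega
  have hdc := df_compl (M.erase p) σ₁ hMe hsub
  have hs := df_split k A p v
  have hcard := Finset.card_filter_add_card_filter_not (s := A) (fun σ => σ p = v)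
  have hR0 := df_nonneg (k := k) (by omega) (A.filter (fun σ => ¬ σ p = v))
  have hB0 := df_nonneg (k := k) (by omega) (A.filter (fun σ => σ p = v))
  have hU : ∀ {δ δ' : ℝ}, Sys k (A.filter (fun σ => σ p = v)) δ →
      Sys k (A.filter (fun σ => ¬ σ p = v)) δ' → Sys k A (δ + δ') :=
    fun h h' => sys_union (fun σ => σ p = v) h h'
  have hB'le : (coset (M.erase p) σ₁ \ A.filter (fun σ => σ p = v)).card
      ≤ (k - 2).factorial := by
    have h1 : ((coset (M.erase p) σ₁ \ A.filter (fun σ => σ p = v)).card : ℝ)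
        + (A.filter (fun σ => σ p = v)).card = (k.factorial : ℕ) := by exact_mod_cast hcd
    have h2 : ((coset (M.erase p) σ₁ \ A.filter (fun σ => σ p = v)).card : ℝ)
        ≤ ((k - 2).factorial : ℕ) := by linarith
    exact_mod_cast h2
  have hlin := small_lin2 (k := k) (by omega) _ hB'le
  rw [hdc] at hlin
  have hcd' : ((coset (M.erase p) σ₁ \ A.filter (fun σ => σ p = v)).card : ℝ)
      = (k.factorial : ℕ) - (A.filter (fun σ => σ p = v)).card := by
    have h1 : ((coset (M.erase p) σ₁ \ A.filter (fun σ => σ p = v)).card : ℝ)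
        + (A.filter (fun σ => σ p = v)).card = (k.factorial : ℕ) := by exact_mod_cast hcd
    linarith
  rw [hcd'] at hlin
  have hBleR : ((A.filter (fun σ => σ p = v)).card : ℝ) ≤ (k.factorial : ℕ) := by
    exact_mod_cast hBle
  have hstr := str_small P (A.filter (fun σ => σ p = v)) hBle
  refine ⟨A.filter (fun σ => ¬ σ p = v), ?_⟩
  set B := A.filter (fun σ => σ p = v) with hBdef
  set R := A.filter (fun σ => ¬ σ p = v) with hRdef
  have hcard' : (B.card : ℝ) + R.card = A.card := by exact_mod_cast hcard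
  have habs := abs_le.1 (show |(A.card : ℝ) - c * (k.factorial : ℕ)| ≤ 4 * Gs k j by
    have := df_nonneg (k := k) (by omega) A
    linarith)
  have h2cR : 2 * (c : ℝ) = k + 1 := by exact_mod_cast h2c
  have hc1R : (((c - 1 : ℕ)) : ℝ) = c - 1 := by
    rw [Nat.cast_sub (by omega)]
    norm_num
  have hcKe : 2 * ((c : ℝ) * (k.factorial : ℕ)) = (k + 1) * (k.factorial : ℕ) := by
    rw [← mul_assoc, h2cR]
  set K : ℝ := ((k.factorial : ℕ) : ℝ) with hKdef
  set T : ℝ := (((k - 2).factorial : ℕ) : ℝ) with hTdef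
  set g : ℝ := Gs k j with hgdef
  have hi0 : 0 ≤ K - B.card := by linarith
  have hloss : 2 * (R.card : ℝ) * (K - B.card) / K ≤ k * (K - B.card) := by
    rw [div_le_iff₀ hK]
    have h5 : 2 * (R.card : ℝ) ≤ k * K := by linarith [habs.2]
    have h6 := mul_le_mul_of_nonneg_right h5 hi0
    linarith
  have hk11i : 0 ≤ ((k : ℝ) - 11) * (K - B.card) := mul_nonneg (by linarith) hi0
  have hB3 : df k B ≤ 3 * g := by linarith
  have hBF := hstr (by rw [hH]; linarith)
  set x : ℝ := df k B / (2 * k - 1) with hx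
  have hxB : df k B = (2 * k - 1) * x := by
    rw [hx]
    field_simp
  have hx0 : 0 ≤ x := div_nonneg hB0 h2k1.le
  have hx3 : x ≤ 3 * g := by
    rw [hx, div_le_iff₀ h2k1]
    linarith
  have hix : K - B.card ≤ x := by
    rcases sys_dist hBF with h | h
    · exfalso
      linarith
    · exact h
  have hl3 : (k : ℝ) * (K - B.card) ≤ k * x := mul_le_mul_of_nonneg_left hix (by linarith)
  have hmain : df k R + (k - 1) * x ≤ df k A := by linarith
  have hkx0 : 10 * x ≤ (k - 1) * x := mul_le_mul_of_nonneg_right (by linarith) hx0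
  refine ⟨by linarith, ?_, by linarith, ?_⟩
  · rw [hc1R]
    have h2 : |(R.card : ℝ) - ((c : ℝ) - 1) * K|
        ≤ |(A.card : ℝ) - c * K| + (K - B.card) := by
      have e : (R.card : ℝ) - ((c : ℝ) - 1) * K
          = ((A.card : ℝ) - c * K) + (K - B.card) := by linarith
      rw [e]
      refine le_trans (abs_add_le _ _) ?_
      rw [abs_of_nonneg hi0]
    linarith
  · intro hRF
    refine sys_mono ?_ (hU hBF hRF)
    linarith

/-- numbers -/
lemma two_Gs_lt (P : Par k j U) : 2 * Gs k j < ((k - 1).factorial : ℕ) := by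
  have Nn := P.nums
  have hk11 := P.hk
  have hkx := Nn.hk
  have hg0 : 0 < Gs k j := by
    have h1 := Nn.hgC
    have h2 := Nn.hC55
    linarith
  have h2 := Nn.hKbig
  rw [Nn.hH, Nn.hI] at h2
  obtain ⟨i, rfl⟩ : ∃ i, k = i + 1 := ⟨k - 1, by omega⟩
  rw [Nat.add_sub_cancel]
  rw [factorial_succ_real i] at h2
  have h4 : ((i + 1 : ℕ) : ℝ) = i + 1 := by push_cast; ring
  rw [h4] at h2 hkx
  have hi0 : (0 : ℝ) ≤ i := by linarith
  have h6 : (1 : ℝ) ≤ ((i : ℝ) + 1 + 1) * ((i : ℝ) + 1 + 3) := by nlinarith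
  have h7 : 0 ≤ 10 * ((i : ℝ) + 1) * Gs (i + 1) j := by positivity
  have h8 := mul_le_mul_of_nonneg_left h6 h7
  have h5 : ((i : ℝ) + 1) * (2 * Gs (i + 1) j) < (i + 1) * (i.factorial : ℕ) := by
    linarith
  exact lt_of_mul_lt_mul_left h5 (by linarith)

/-- a class of a coset -/
lemma card_class_coset {M : Finset (Fin n)} (σ₀ : Perm (Fin n)) (hM : M.card = k + 1)
    {p a : Fin n} (hp : p ∈ M) (ha : a ∈ M) :
    ((coset M σ₀).filter (fun σ => σ p = σ₀ a)).card = k.factorial := by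
  classical
  have h1 : σ₀ * swap p a ∈ (coset M σ₀).filter (fun σ => σ p = σ₀ a) := by
    rw [mem_filter]
    refine ⟨?_, by simp⟩
    simp only [coset, mem_filter, mem_univ, true_and]
    intro q hq
    rw [Perm.mul_apply, swap_apply_of_ne_of_ne]
    · rintro rfl
      exact hq hp
    · rintro rfl
      exact hq ha
  have h2 : (coset M σ₀).filter (fun σ => σ p = σ₀ a) = coset (M.erase p) (σ₀ * swap p a) := by
    apply Finset.Subset.antisymm (class_sub_coset (Finset.Subset.refl _) h1)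
    intro σ hσ
    simp only [coset, mem_filter, mem_univ, true_and] at hσ ⊢
    have h3 := (mem_filter.1 h1).2
    constructor
    · intro q hq
      rw [hσ q (fun h => hq (Finset.mem_of_mem_erase h)), Perm.mul_apply,
        swap_apply_of_ne_of_ne]
      · rintro rfl
        exact hq hp
      · rintro rfl
        exact hq ha
    · rw [hσ p (Finset.notMem_erase p M), h3]
  rw [h2, card_coset, Finset.card_erase_of_mem hp, hM]
  simp

theorem step_mid (P : Par k j U) (A : Finset (Perm (Fin n))) {c : ℕ} (h2c : 2 * c = k + 1)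
    (hQ : |(A.card : ℝ) - c * (k.factorial : ℕ)| + 2 * df k A ≤ 4 * Gs k j)
    (hdf : df k A ≤ Gs k j) (hB : Big k A) :
    ∃ A' : Finset (Perm (Fin n)), A'.card < A.card ∧
      |(A'.card : ℝ) - (c - 1 : ℕ) * (k.factorial : ℕ)| + 2 * df k A' ≤ 4 * Gs k j ∧
      df k A' ≤ Gs k j ∧ (Sys k A' (2 * df k A') → Sys k A (2 * df k A)) := by
  classical
  obtain ⟨M, σ₀, hM, hbig⟩ := hB
  have Nn := P.nums
  have hk11 := P.hk
  have hkx : (11 : ℝ) ≤ k := Nn.hk
  have hK := fac_pos k
  have hT := fac_two P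
  have hT0 := fac_pos (k - 2)
  have hg0 : 0 < Gs k j := by
    have h1 := Nn.hgC
    have h2 := Nn.hC55
    linarith
  have hKg : 160 * (110 * Gs k j) < (k.factorial : ℕ) := by
    have h1 := Nn.hKbig'
    rw [Nn.hH, Nn.hI] at h1
    nlinarith
  have hA1Q : A.filter (fun σ => σ ∈ coset M σ₀) ⊆ coset M σ₀ :=
    fun σ hσ => (mem_filter.1 hσ).2
  -- the parts of `A`
  have hD := D_filter A (fun σ => σ ∈ coset M σ₀)
  have hcr : cross (A.filter (fun σ => ¬ σ ∈ coset M σ₀)) (A.filter (fun σ => σ ∈ coset M σ₀))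
      ≤ (A.filter (fun σ => ¬ σ ∈ coset M σ₀)).card := by
    unfold cross
    rw [Finset.card_eq_sum_ones]
    apply Finset.sum_le_sum
    intro σ hσ
    refine le_trans ?_ (nb_le_one M σ₀ (mem_filter.1 hσ).2)
    exact Finset.sum_le_sum_of_subset hA1Q
  have hcard := Finset.card_filter_add_card_filter_not (s := A) (fun σ => σ ∈ coset M σ₀)
  have hcompl := D_compl M σ₀ hA1Q
  have hcc : (coset M σ₀ \ A.filter (fun σ => σ ∈ coset M σ₀)).card
      + (A.filter (fun σ => σ ∈ coset M σ₀)).card = (k + 1).factorial := by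
    rw [Finset.card_sdiff_of_subset hA1Q, card_coset, hM]
    have := Finset.card_le_card hA1Q
    rw [card_coset, hM] at this
    omega
  have hback : coset M σ₀ \ (coset M σ₀ \ A.filter (fun σ => σ ∈ coset M σ₀))
      = A.filter (fun σ => σ ∈ coset M σ₀) := Finset.sdiff_sdiff_eq_self hA1Q
  have hsub : coset M σ₀ \ A.filter (fun σ => σ ∈ coset M σ₀) ⊆ coset M σ₀ :=
    Finset.sdiff_subset
  have hunion := @sys_union n k A (fun σ => σ ∈ coset M σ₀) _
  have hsc := fun (δ : ℝ) (hδ : δ < ((k - 1).factorial : ℕ)) =>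
    @sys_compl n k (by omega) M σ₀ hM _ hsub δ hδ
  rw [hback] at hsc
  have hempty := sys_empty (k := k) (A.filter (fun σ => ¬ σ ∈ coset M σ₀))
  -- the classes of the complement
  have hclc : ∀ p ∈ M, ∀ a ∈ M,
      ((coset M σ₀ \ A.filter (fun σ => σ ∈ coset M σ₀)).filter (fun σ => σ p = σ₀ a)).card
        + ((A.filter (fun σ => σ ∈ coset M σ₀)).filter (fun σ => σ p = σ₀ a)).card
        = k.factorial := by
    intro p hp a ha
    rw [← card_class_coset σ₀ hM hp ha]
    have e1 : (coset M σ₀ \ A.filter (fun σ => σ ∈ coset M σ₀)).filter (fun σ => σ p = σ₀ a)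
        = (coset M σ₀).filter (fun σ => σ p = σ₀ a)
          \ (A.filter (fun σ => σ ∈ coset M σ₀)).filter (fun σ => σ p = σ₀ a) := by
      ext σ
      simp only [mem_filter, mem_sdiff]
      tauto
    rw [e1]
    exact Finset.card_sdiff_add_card_eq_card (Finset.filter_subset_filter _ hA1Q)
  set A₁ := A.filter (fun σ => σ ∈ coset M σ₀) with hA₁
  set E := A.filter (fun σ => ¬ σ ∈ coset M σ₀) with hE
  set A' := coset M σ₀ \ A₁ with hA'
  rw [hM] at hcompl
  -- real numbers
  have rD : (D A : ℝ) = D A₁ + D E + 2 * cross E A₁ := by exact_mod_cast hD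
  have rcr : (cross E A₁ : ℝ) ≤ E.card := by exact_mod_cast hcr
  have rcard : (A₁.card : ℝ) + E.card = A.card := by exact_mod_cast hcard
  have rcompl : (D A₁ : ℝ) + ((k + 1).choose 2 : ℕ) * A'.card
      = D A' + ((k + 1).choose 2 : ℕ) * A₁.card := by exact_mod_cast hcompl
  have rcc : (A'.card : ℝ) + A₁.card = ((k + 1).factorial : ℕ) := by exact_mod_cast hcc
  have rbig : (2 * (k : ℝ) + 1) * (k.factorial : ℕ) ≤ 4 * A₁.card := by exact_mod_cast hbig
  rw [choose_succ_two] at rcompl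
  rw [factorial_succ_real] at rcc
  have hE0 : 0 ≤ df k E := df_nonneg (by omega) E
  have hdA0 : 0 ≤ df k A := df_nonneg (by omega) A
  have hdA1 : 0 ≤ df k A₁ := df_nonneg (by omega) A₁
  have hε0 : (0 : ℝ) ≤ E.card := Nat.cast_nonneg _
  -- `df k A₁ + |E| ≤ df k A`
  have hkey : df k A₁ + E.card ≤ df k A := by
    have h1 : df k A = df k A₁ + df k E + 2 * A₁.card * E.card / (k.factorial : ℕ)
        - 2 * cross E A₁ := by
      rw [df_eq, df_eq, df_eq, ← rcard, rD]
      unfold ph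
      field_simp
      ring
    have h2 : 3 * (E.card : ℝ) ≤ 2 * A₁.card * E.card / (k.factorial : ℕ) := by
      rw [le_div_iff₀ hK]
      have h3 : 3 * ((k.factorial : ℕ) : ℝ) ≤ 2 * A₁.card := by nlinarith
      nlinarith
    linarith
  -- `df k A' = df k A₁`
  have hdf' : df k A' = df k A₁ := by
    rw [df_eq, df_eq]
    unfold ph
    have h1 : (A'.card : ℝ) ^ 2 / (k.factorial : ℕ) - (A₁.card : ℝ) ^ 2 / (k.factorial : ℕ)
        = ((k : ℝ) + 1) * (A'.card - A₁.card) := by
      rw [← sub_div, div_eq_iff hK.ne']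
      have h2 : (A'.card : ℝ) ^ 2 - (A₁.card : ℝ) ^ 2
          = (A'.card + A₁.card) * (A'.card - A₁.card) := by ring
      rw [h2, rcc]
      ring
    linarith
  -- `c`
  have habs := abs_le.1 (show |(A.card : ℝ) - c * (k.factorial : ℕ)| ≤ 4 * Gs k j by linarith)
  have h2cR : 2 * (c : ℝ) = k + 1 := by exact_mod_cast h2c
  have hcKe : 2 * ((c : ℝ) * (k.factorial : ℕ)) = (k + 1) * (k.factorial : ℕ) := by
    rw [← mul_assoc, h2cR]
  have hQ1 : |(A₁.card : ℝ) - c * (k.factorial : ℕ)| + 2 * df k A₁ ≤ 4 * Gs k j := by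
    have h1 : (A₁.card : ℝ) - c * (k.factorial : ℕ)
        = ((A.card : ℝ) - c * (k.factorial : ℕ)) - E.card := by linarith
    have h2 := abs_sub ((A.card : ℝ) - c * (k.factorial : ℕ)) (E.card : ℝ)
    rw [h1]
    rw [abs_of_nonneg hε0] at h2
    linarith
  have hQ' : |(A'.card : ℝ) - c * (k.factorial : ℕ)| + 2 * df k A' ≤ 4 * Gs k j := by
    have h1 : (A'.card : ℝ) - c * (k.factorial : ℕ)
        = -((A₁.card : ℝ) - c * (k.factorial : ℕ)) := by linarith
    rw [h1, abs_neg, hdf']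
    exact hQ1
  have hdf1 : df k A₁ ≤ Gs k j := by linarith
  have hm1 : |2 * (A₁.card : ℝ) - (k + 1) * (k.factorial : ℕ)| ≤ 8 * Gs k j := by
    have h1 : 2 * (A₁.card : ℝ) - (k + 1) * (k.factorial : ℕ)
        = 2 * ((A₁.card : ℝ) - c * (k.factorial : ℕ)) := by linarith
    rw [h1, abs_mul, abs_of_pos (by norm_num : (0 : ℝ) < 2)]
    linarith
  have hSA1 : Sys k A₁ (2 * df k A₁) → Sys k A (2 * df k A) := by
    intro hS
    exact sys_mono (by linarith) (hunion hS hempty)
  have hSA' : Sys k A' (2 * df k A') → Sys k A (2 * df k A) := by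
    intro hS
    apply hSA1
    rw [hdf'] at hS
    apply hsc _ _ hS
    have h1 := two_Gs_lt P
    linarith
  obtain ⟨p, hp, a, ha, hcl⟩ := mid_class P hM hA1Q hm1 hdf1
  have hclc' : ((A'.filter (fun σ => σ p = σ₀ a)).card : ℝ)
      + (A₁.filter (fun σ => σ p = σ₀ a)).card = (k.factorial : ℕ) := by
    exact_mod_cast hclc p hp a ha
  rcases hcl with hcl | hcl
  · obtain ⟨R, h1, h2, h3, h4⟩ := mid_split P hM hsub h2c hQ' (by rw [hdf']; exact hdf1) hp
      (v := σ₀ a) (by linarith)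
    refine ⟨R, ?_, h2, h3, fun h => hSA' (h4 h)⟩
    have h5 := (abs_le.1 (show |(A'.card : ℝ) - c * (k.factorial : ℕ)| ≤ 4 * Gs k j by
      rw [hdf'] at hQ'
      linarith)).2
    have h6 : (R.card : ℝ) < A.card := by linarith [habs.1]
    exact_mod_cast h6
  · obtain ⟨R, h1, h2, h3, h4⟩ := mid_split P hM hA1Q h2c hQ1 hdf1 hp (v := σ₀ a) hcl
    refine ⟨R, ?_, h2, h3, fun h => hSA1 (h4 h)⟩
    have h6 : (R.card : ℝ) < A.card := by linarith
    exact_mod_cast h6

end Pool.H60.NN
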