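import Pool.Agent.H60.NN.Par

set_option autoImplicit false

/-!
# One position of a nearly extremal set in a coset of `k + 1` positions

`a_v = |A.filter (σ p = v)|` for `v ∈ V`, `|V| = k + 1`, `m = ∑ a_v = |A|` (`sum_class_card`; the
other classes are empty), `S = ∑ a_v ^ 2`, `y = m ^ 2 - k S`, `K = k!`, `d = w - z`,
`z = a_(v₀) ≤ a_v ≤ w` for `v ∈ V`.
* Every `σ` with `σ p = u ≠ v` has at most one neighbour `π` with `π p = v` (`cross_class_le` for
  `A.filter (σ p = u ∨ σ p = v)`), so the number of edges between two classes is at most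
  `min a_u a_v`. Hence `D A ≤ ∑ v D (class v) + ∑_{u, v ∈ V} min a_u a_v - m`, and
  `∑_{u, v ∈ V} min a_u a_v = (k + 1) m - X`, `X = (1/2) ∑_{u, v ∈ V} |a_u - a_v|`.
* `K * D (class v) ≤ k a_v ^ 2 + K (C_(k-1) - 1) a_v` (`P_all (k - 1)` as in `avg_err`,
  `NM/Avg.lean`, with `k = i + 1`), and `m ^ 2 + K (C_k - 1) m - K g ≤ K * D A` (`mul_df`),
  `C_k = C_(k-1) + k - 1`. So (1): `K X ≤ - y + K m + K g`.
* `X₂ = (1/2) ∑_{u, v ∈ V} (a_u - a_v) ^ 2 = (k + 1) S - m ^ 2`.
* As `(a_u - a_v) ^ 2 ≤ d |a_u - a_v|` for all pairs, the sum over the pairs without `v₀` gives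
  (2): `P₂ ≤ d P₁` with `P₁ = X - ∑_u (a_u - z) = X - m + (k + 1) z` and
  `P₂ = X₂ - ∑_u (a_u - z) ^ 2 = (k + 1) S - m ^ 2 - (S - 2 z m + (k + 1) z ^ 2)
  = - y + 2 z m - (k + 1) z ^ 2`.
* `K P₂ ≤ d (K P₁) ≤ d (- y + K g + K (k + 1) z)` is the claim.
-/

open Finset Equiv Pool.H60.Transp Pool.H60.NM

namespace Pool.H60.NN

variable {n : ℕ}

private lemma midrow_real {ι : Type*} [DecidableEq ι] (V : Finset ι) (a : ι → ℝ) {v₀ : ι} (hv₀ : v₀ ∈ V)
    {z w : ℝ} (hz₀ : a v₀ = z) (hz : ∀ v ∈ V, z ≤ a v) (hw : ∀ v ∈ V, a v ≤ w) :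
    (V.card : ℝ) * (∑ v ∈ V, a v ^ 2) - (∑ v ∈ V, a v) ^ 2
        - (∑ v ∈ V, a v ^ 2 - 2 * z * ∑ v ∈ V, a v + V.card * z ^ 2)
      ≤ (w - z) * ((∑ u ∈ V, ∑ v ∈ V, |a u - a v|) / 2 - ∑ v ∈ V, a v + V.card * z) := by
  set S : ℝ := ∑ v ∈ V, a v ^ 2 with hS
  set m : ℝ := ∑ v ∈ V, a v with hm
  set N : ℝ := (V.card : ℝ) with hN
  set Y : ℝ := ∑ u ∈ V, ∑ v ∈ V, |a u - a v| with hY
  set f : ι → ι → ℝ := fun u v => (w - z) * |a u - a v| - (a u - a v) ^ 2 with hf
  have hf0 : ∀ u ∈ V, ∀ v ∈ V, 0 ≤ f u v := by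
    intro u hu v hv
    have h1 : |a u - a v| ≤ w - z := by
      rw [abs_le]
      have := hz u hu
      have := hz v hv
      have := hw u hu
      have := hw v hv
      constructor <;> linarith
    have h2 : (a u - a v) ^ 2 = |a u - a v| * |a u - a v| := by
      rw [← sq, sq_abs]
    have h3 : |a u - a v| * |a u - a v| ≤ (w - z) * |a u - a v| :=
      mul_le_mul_of_nonneg_right h1 (abs_nonneg _)
    simp only [hf]
    rw [h2]
    linarith
  have hf00 : f v₀ v₀ = 0 := by simp [hf]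
  have hrow : ∀ u ∈ V, f u v₀ + (if u = v₀ then ∑ v ∈ V, f v₀ v else 0) ≤ ∑ v ∈ V, f u v := by
    intro u hu
    by_cases h : u = v₀
    · rw [if_pos h, h, hf00, zero_add]
    · rw [if_neg h, add_zero]
      exact Finset.single_le_sum (f := fun v => f u v) (fun v hv => hf0 u hu v hv) hv₀
  have hsum := Finset.sum_le_sum hrow
  rw [Finset.sum_add_distrib, Finset.sum_ite_eq', if_pos hv₀] at hsum
  have e1 : ∑ u ∈ V, f u v₀ = (w - z) * (m - N * z) - (S - 2 * z * m + N * z ^ 2) := by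
    have h1 : ∀ u ∈ V, f u v₀ = (w - z) * (a u - z) - (a u ^ 2 - 2 * z * a u + z ^ 2) := by
      intro u hu
      simp only [hf]
      rw [hz₀, abs_of_nonneg (by have := hz u hu; linarith)]
      ring
    rw [Finset.sum_congr rfl h1, Finset.sum_sub_distrib, ← Finset.mul_sum, Finset.sum_sub_distrib,
      Finset.sum_add_distrib, Finset.sum_sub_distrib, ← Finset.mul_sum, Finset.sum_const,
      Finset.sum_const, nsmul_eq_mul, nsmul_eq_mul]
  have e2 : ∑ v ∈ V, f v₀ v = ∑ u ∈ V, f u v₀ := by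
    refine Finset.sum_congr rfl fun v _ => ?_
    simp only [hf]
    rw [abs_sub_comm]
    ring
  have e3 : ∑ u ∈ V, ∑ v ∈ V, f u v = (w - z) * Y - 2 * (N * S - m ^ 2) := by
    have h1 : ∀ u ∈ V, ∑ v ∈ V, f u v
        = (w - z) * (∑ v ∈ V, |a u - a v|) - (N * a u ^ 2 - 2 * m * a u + S) := by
      intro u _
      simp only [hf]
      rw [Finset.sum_sub_distrib, ← Finset.mul_sum]
      have h2 : ∑ v ∈ V, (a u - a v) ^ 2 = N * a u ^ 2 - 2 * m * a u + S := by
        have h3 : ∀ v ∈ V, (a u - a v) ^ 2 = a u ^ 2 - 2 * a u * a v + a v ^ 2 := by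
          intro v _
          ring
        rw [Finset.sum_congr rfl h3, Finset.sum_add_distrib, Finset.sum_sub_distrib,
          ← Finset.mul_sum, Finset.sum_const, nsmul_eq_mul]
        ring
      rw [h2]
    rw [Finset.sum_congr rfl h1, Finset.sum_sub_distrib, ← Finset.mul_sum, Finset.sum_add_distrib,
      Finset.sum_sub_distrib, ← Finset.mul_sum, ← Finset.mul_sum, Finset.sum_const, nsmul_eq_mul]
    ring
  rw [e2, e1, e3] at hsum
  nlinarith [hsum]

private lemma cross_fiber {n : ℕ} (A B : Finset (Perm (Fin n))) (p : Fin n) :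
    cross A B = ∑ u, cross (A.filter (fun σ => σ p = u)) B := by
  unfold cross
  exact (Finset.sum_fiberwise A (fun σ => σ p) (fun σ => ∑ π ∈ B, e σ π)).symm

private lemma cross_two_class {n : ℕ} (A : Finset (Perm (Fin n))) (p : Fin n) {u v : Fin n} (h : u ≠ v) :
    cross (A.filter (fun σ => σ p = u)) (A.filter (fun σ => σ p = v))
      ≤ (A.filter (fun σ => σ p = u)).card := by
  have h1 := cross_class_le (A.filter (fun σ => σ p = u ∨ σ p = v)) p v
  have e1 : (A.filter (fun σ => σ p = u ∨ σ p = v)).filter (fun σ => ¬ σ p = v)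
      = A.filter (fun σ => σ p = u) := by
    ext σ
    simp only [mem_filter]
    constructor
    · rintro ⟨⟨h1, h2⟩, h3⟩
      exact ⟨h1, h2.resolve_right h3⟩
    · rintro ⟨h1, h2⟩
      exact ⟨⟨h1, Or.inl h2⟩, by rw [h2]; exact h⟩
  have e2 : (A.filter (fun σ => σ p = u ∨ σ p = v)).filter (fun σ => σ p = v)
      = A.filter (fun σ => σ p = v) := by
    ext σ
    simp only [mem_filter]
    constructor
    · rintro ⟨⟨h1, _⟩, h3⟩
      exact ⟨h1, h3⟩
    · rintro ⟨h1, h2⟩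
      exact ⟨⟨h1, Or.inr h2⟩, h2⟩
  rw [e1, e2] at h1
  exact h1

theorem row_mid {k : ℕ} (hk : 2 ≤ k) (A : Finset (Perm (Fin n))) (p : Fin n)
    (V : Finset (Fin n)) (hV : V.card = k + 1)
    (hout : ∀ v, v ∉ V → A.filter (fun σ => σ p = v) = ∅)
    {z w g : ℝ} (hdf : df k A ≤ g) {v₀ : Fin n} (hv₀ : v₀ ∈ V)
    (hz₀ : ((A.filter (fun σ => σ p = v₀)).card : ℝ) = z)
    (hz : ∀ v ∈ V, z ≤ ((A.filter (fun σ => σ p = v)).card : ℝ))
    (hw : ∀ v ∈ V, ((A.filter (fun σ => σ p = v)).card : ℝ) ≤ w) :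
    ((k.factorial : ℕ) : ℝ) * (z * (2 * A.card - (k + 1) * w) - (w - z) * g)
      ≤ ((A.card : ℝ) ^ 2 - k * ∑ v, ((A.filter (fun σ => σ p = v)).card : ℝ) ^ 2)
        * ((k.factorial : ℕ) - w + z) := by
  set cl : Fin n → Finset (Perm (Fin n)) := fun v => A.filter (fun σ => σ p = v) with hcl
  set a : Fin n → ℝ := fun v => ((cl v).card : ℝ) with ha
  set K : ℝ := ((k.factorial : ℕ) : ℝ) with hK
  have hKpos : 0 < K := fac_pos k
  obtain ⟨i, rfl⟩ : ∃ i, k = i + 1 := ⟨k - 1, by omega⟩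
  have hi : 1 ≤ i := by omega
  set c : ℝ := ((i.choose 2 : ℕ) : ℝ) with hc
  -- sums over all values are sums over `V`
  have hout0 : ∀ v, v ∉ V → a v = 0 := by
    intro v hv
    simp only [ha, hcl]
    rw [hout v hv]
    simp
  have hS : ∑ v, a v ^ 2 = ∑ v ∈ V, a v ^ 2 := by
    symm
    apply Finset.sum_subset (Finset.subset_univ V)
    intro v _ hv
    rw [hout0 v hv]
    norm_num
  have hm : ∑ v ∈ V, a v = (A.card : ℝ) := by
    rw [← sum_class_card A p]
    apply Finset.sum_subset (Finset.subset_univ V)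
    intro v _ hv
    exact hout0 v hv
  have hreal := midrow_real V a hv₀ hz₀ hz hw
  rw [hm, hV] at hreal
  -- the number of edges
  have hD : (D A : ℝ) = ∑ u ∈ V, ∑ v ∈ V, (cross (cl u) (cl v) : ℝ) := by
    have h1 : D A = ∑ u, ∑ v, cross (cl u) (cl v) := by
      unfold D
      rw [cross_fiber A A p]
      refine Finset.sum_congr rfl fun u _ => ?_
      rw [cross_comm, cross_fiber A _ p]
      refine Finset.sum_congr rfl fun v _ => ?_
      rw [cross_comm]
    have h2 : ∀ u v, (u ∉ V ∨ v ∉ V) → cross (cl u) (cl v) = 0 := by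
      intro u v huv
      rcases huv with hu | hv
      · simp only [hcl]
        rw [hout u hu]
        simp [cross]
      · simp only [hcl]
        rw [hout v hv]
        simp [cross]
    have h3 : D A = ∑ u ∈ V, ∑ v ∈ V, cross (cl u) (cl v) := by
      rw [h1]
      symm
      rw [← Finset.sum_subset (Finset.subset_univ V) (f := fun u => ∑ v, cross (cl u) (cl v))]
      · refine Finset.sum_congr rfl fun u _ => ?_
        apply Finset.sum_subset (Finset.subset_univ V)
        intro v _ hv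
        exact h2 u v (Or.inr hv)
      · intro u _ hu
        exact Finset.sum_eq_zero fun v _ => h2 u v (Or.inl hu)
    rw [h3]
    push_cast
    rfl
  have hpair : ∀ u ∈ V, ∀ v ∈ V, (cross (cl u) (cl v) : ℝ)
      ≤ (if u = v then (D (cl u) : ℝ) - a u else 0) + (a u + a v - |a u - a v|) / 2 := by
    intro u _ v _
    by_cases huv : u = v
    · rw [if_pos huv, ← huv, sub_self, abs_zero]
      have : (D (cl u) : ℝ) = (cross (cl u) (cl u) : ℝ) := rfl
      rw [this]
      linarith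
    · rw [if_neg huv, zero_add]
      have h1 : (cross (cl u) (cl v) : ℝ) ≤ a u := by
        simp only [ha, hcl]
        exact_mod_cast cross_two_class A p huv
      have h2 : (cross (cl u) (cl v) : ℝ) ≤ a v := by
        rw [cross_comm]
        simp only [ha, hcl]
        exact_mod_cast cross_two_class A p (Ne.symm huv)
      rcases abs_cases (a u - a v) with h | h <;> rw [h.1] <;> linarith
  have hsumD : (D A : ℝ) ≤ ∑ u ∈ V, (D (cl u) : ℝ) - A.card + ((i : ℝ) + 1 + 1) * A.card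
      - (∑ u ∈ V, ∑ v ∈ V, |a u - a v|) / 2 := by
    rw [hD]
    have h1 : ∑ u ∈ V, ∑ v ∈ V, (cross (cl u) (cl v) : ℝ)
        ≤ ∑ u ∈ V, ∑ v ∈ V, ((if u = v then (D (cl u) : ℝ) - a u else 0)
          + (a u + a v - |a u - a v|) / 2) :=
      Finset.sum_le_sum fun u hu => Finset.sum_le_sum fun v hv => hpair u hu v hv
    refine h1.trans (le_of_eq ?_)
    have h2 : ∀ u ∈ V, ∑ v ∈ V, ((if u = v then (D (cl u) : ℝ) - a u else 0)
          + (a u + a v - |a u - a v|) / 2)
        = ((D (cl u) : ℝ) - a u) + (((i : ℝ) + 1 + 1) * a u + A.card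
          - ∑ v ∈ V, |a u - a v|) / 2 := by
      intro u hu
      rw [Finset.sum_add_distrib, Finset.sum_ite_eq, if_pos hu, ← Finset.sum_div,
        Finset.sum_sub_distrib, Finset.sum_add_distrib, Finset.sum_const, hV, nsmul_eq_mul, hm]
      push_cast
      ring
    rw [Finset.sum_congr rfl h2, Finset.sum_add_distrib, Finset.sum_sub_distrib, hm,
      ← Finset.sum_div, Finset.sum_sub_distrib, Finset.sum_add_distrib, ← Finset.mul_sum, hm,
      Finset.sum_const, hV, nsmul_eq_mul]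
    push_cast
    ring
  -- the previous level for the classes
  have hPk : ∀ C : Finset (Perm (Fin n)),
      K * D C ≤ (i + 1) * (C.card : ℝ) ^ 2 + K * (c - 1) * C.card := by
    intro C
    have h := P_all i hi C
    unfold P at h
    have h2 := mul_le_mul_of_nonneg_left h (by positivity : (0 : ℝ) ≤ (i : ℝ) + 1)
    rw [hK, factorial_succ_real]
    simp only [hc]
    linarith
  have hcls : K * ∑ u ∈ V, (D (cl u) : ℝ)
      ≤ (i + 1) * ∑ v ∈ V, a v ^ 2 + K * (c - 1) * A.card := by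
    have h1 : K * ∑ u ∈ V, (D (cl u) : ℝ)
        ≤ ∑ v ∈ V, ((i + 1) * a v ^ 2 + K * (c - 1) * a v) := by
      rw [Finset.mul_sum]
      exact Finset.sum_le_sum (fun v _ => hPk (cl v))
    rw [Finset.sum_add_distrib, ← Finset.mul_sum, ← Finset.mul_sum, hm] at h1
    exact h1
  have hdf' : (A.card : ℝ) ^ 2 + K * (c + i - 1) * A.card - K * g ≤ K * D A := by
    have h9 := mul_le_mul_of_nonneg_left hdf hKpos.le
    rw [hK, mul_df, choose_succ_two] at h9
    rw [hK]
    linarith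
  have hKD := mul_le_mul_of_nonneg_left hsumD hKpos.le
  have hzw : z ≤ w := by
    rw [← hz₀]
    exact hw v₀ hv₀
  have hd : 0 ≤ w - z := by linarith
  rw [hS]
  set S : ℝ := ∑ v ∈ V, a v ^ 2
  set m : ℝ := (A.card : ℝ)
  set Y : ℝ := ∑ u ∈ V, ∑ v ∈ V, |a u - a v|
  set DS : ℝ := ∑ u ∈ V, (D (cl u) : ℝ)
  set DA : ℝ := (D A : ℝ)
  push_cast at hreal ⊢
  have hKX : K * (Y / 2) ≤ - (m ^ 2 - (i + 1) * S) + K * m + K * g := by
    have e1 : K * (DS - m + ((i : ℝ) + 1 + 1) * m - Y / 2)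
        = K * DS - K * m + K * ((i : ℝ) + 1 + 1) * m - K * (Y / 2) := by ring
    rw [e1] at hKD
    linarith
  have h1 := mul_le_mul_of_nonneg_left hreal hKpos.le
  have h2 := mul_le_mul_of_nonneg_left hKX hd
  have e2 : K * ((w - z) * (Y / 2 - m + ((i : ℝ) + 1 + 1) * z))
      = (w - z) * (K * (Y / 2)) + (w - z) * (- K * m + K * ((i : ℝ) + 1 + 1) * z) := by ring
  rw [e2] at h1
  have e3 : K * (((i : ℝ) + 1 + 1) * S - m ^ 2 - (S - 2 * z * m + ((i : ℝ) + 1 + 1) * z ^ 2))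
      - (w - z) * (- (m ^ 2 - (i + 1) * S) + K * m + K * g)
      - (w - z) * (- K * m + K * ((i : ℝ) + 1 + 1) * z)
      = K * (z * (2 * m - ((i : ℝ) + 1 + 1) * w) - (w - z) * g)
        - (m ^ 2 - (i + 1) * S) * (K - w + z) := by ring
  linarith

end Pool.H60.NN
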