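import Pool.Agent.H60.NN.Main
import Pool.Agent.H60.NN.Match
import Pool.Agent.H60.NN.Gg

set_option autoImplicit false

/-!
# Sizes near a multiple of `k!`, on both sides
-/

open Finset Equiv Pool.H60.Transp Pool.H60.NM

namespace Pool.H60.NN

variable {n k j : ℕ} {U : ℕ → ℝ}

open Classical in
/-- the bound for all sizes near a multiple of `k!` -/
theorem near (P : Par k j U) (A : Finset (Perm (Fin n))) {c d : ℕ} (hc : c ≤ k)
    (hd : (d : ℝ) ≤ 2 * Gs k j)
    (h : A.card + d = c * k.factorial ∨ A.card = c * k.factorial + d) :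
    gg k j U d ≤ df k A := by
  by_contra hlt
  push Not at hlt
  have N := P.nums
  have hk := N.hk
  have hK := fac_pos k
  have hI := N.hI
  have hH := N.hH
  have hgC := N.hgC
  have hC55 := N.hC55
  have hk0 : (0 : ℝ) < k := by linarith
  have hgpos : 0 < Gs k j := by linarith
  have hKg : 100 * Gs k j ≤ (k.factorial : ℕ) := by
    have h := N.hKbig'
    rw [hI, hH] at h
    nlinarith
  have hd0 : (0 : ℝ) ≤ d := Nat.cast_nonneg d
  have hdf : df k A < Gs k j := lt_of_lt_of_le hlt (gg_le P d)
  have hck : (c : ℝ) ≤ k := by exact_mod_cast hc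
  have hcK : (c : ℝ) * (k.factorial : ℕ) ≤ k * (k.factorial : ℕ) :=
    mul_le_mul_of_nonneg_right hck hK.le
  have habs : |(A.card : ℝ) - c * (k.factorial : ℕ)| = d := by
    rcases h with h | h
    · have h' : (A.card : ℝ) + d = c * (k.factorial : ℕ) := by exact_mod_cast h
      have e : (A.card : ℝ) - c * (k.factorial : ℕ) = -d := by linarith
      rw [e, abs_neg, abs_of_nonneg hd0]
    · have h' : (A.card : ℝ) = c * (k.factorial : ℕ) + d := by exact_mod_cast h
      have e : (A.card : ℝ) - c * (k.factorial : ℕ) = d := by linarith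
      rw [e, abs_of_nonneg hd0]
  obtain ⟨ι, hι, Q, B, h1, h2, h3, h4, h5⟩ := str_main P A c hc (by rw [habs]; linarith)
    hdf.le
  have hm : (A.card : ℝ) ≤ ((k : ℝ) + 1) * (k.factorial : ℕ) := by
    have := le_abs_self ((A.card : ℝ) - c * (k.factorial : ℕ))
    rw [habs] at this
    linarith
  have F := sys_fam P A hm hdf h1 h2 h3 h4 (by linarith)
  set Z := univ.biUnion Q with hZ
  -- `∑ |B i| ≤ |A ∩ Z|`
  have hsum : ∑ i, (B i).card ≤ (A ∩ Z).card := by
    rw [← Finset.card_biUnion (fun i _ i' _ hne => h4 i i' hne)]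
    apply Finset.card_le_card
    intro σ hσ
    obtain ⟨i, hi, hi'⟩ := Finset.mem_biUnion.1 hσ
    exact Finset.mem_inter.2 ⟨h3 i hi', Finset.mem_biUnion.2 ⟨i, hi, h2 i hi'⟩⟩
  have hc1 := Finset.card_sdiff_add_card_inter A Z
  have hc2 := Finset.card_sdiff_add_card_inter Z A
  rw [Finset.inter_comm] at hc2
  have hcZ : Z.card = Fintype.card ι * k.factorial := F.card_union
  have r1 : ∑ i, ((B i).card : ℝ) ≤ (A ∩ Z).card := by exact_mod_cast hsum
  have r2 : ((A \ Z).card : ℝ) + (A ∩ Z).card = A.card := by exact_mod_cast hc1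
  have r3 : ((Z \ A).card : ℝ) + (A ∩ Z).card = Fintype.card ι * (k.factorial : ℕ) := by
    rw [hcZ] at hc2
    exact_mod_cast hc2
  have hx0 : (0 : ℝ) ≤ (Z \ A).card := Nat.cast_nonneg _
  have hl0 : (0 : ℝ) ≤ (A \ Z).card := Nat.cast_nonneg _
  have hxl : ((Z \ A).card : ℝ) + (A \ Z).card ≤ 2 * Gs k j := by linarith
  have hx : ((Z \ A).card : ℝ) ≤ 2 * Gs k j := by linarith
  have hl : ((A \ Z).card : ℝ) ≤ 2 * Gs k j := by linarith
  have hXI : (Z \ A).card ≤ Is k j := by
    have : ((Z \ A).card : ℝ) ≤ (Is k j : ℕ) := by rw [hI]; linarith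
    exact_mod_cast this
  have hLI : (A \ Z).card ≤ Is k j := by
    have : ((A \ Z).card : ℝ) ≤ (Is k j : ℕ) := by rw [hI]; linarith
    exact_mod_cast this
  have hmain := F.df_ge P A hXI hLI
  -- sizes
  have hxlK : (Z \ A).card + (A \ Z).card + d < k.factorial := by
    have : ((Z \ A).card : ℝ) + (A \ Z).card + d < (k.factorial : ℕ) := by linarith
    exact_mod_cast this
  have hcard : A.card + (Z \ A).card = Fintype.card ι * k.factorial + (A \ Z).card := by
    rw [← hcZ]
    omega
  have hcc : c = Fintype.card ι := by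
    rcases h with h | h
    · have h7 : c * k.factorial + (Z \ A).card
          = Fintype.card ι * k.factorial + (A \ Z).card + d := by omega
      by_contra hne
      rcases Nat.lt_or_gt_of_ne hne with h8 | h8
      · have h9 : (c + 1) * k.factorial ≤ Fintype.card ι * k.factorial :=
          Nat.mul_le_mul_right _ h8
        rw [Nat.add_mul, Nat.one_mul] at h9
        omega
      · have h9 : (Fintype.card ι + 1) * k.factorial ≤ c * k.factorial :=
          Nat.mul_le_mul_right _ h8
        rw [Nat.add_mul, Nat.one_mul] at h9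
        omega
    · have h7 : c * k.factorial + d + (Z \ A).card
          = Fintype.card ι * k.factorial + (A \ Z).card := by omega
      by_contra hne
      rcases Nat.lt_or_gt_of_ne hne with h8 | h8
      · have h9 : (c + 1) * k.factorial ≤ Fintype.card ι * k.factorial :=
          Nat.mul_le_mul_right _ h8
        rw [Nat.add_mul, Nat.one_mul] at h9
        omega
      · have h9 : (Fintype.card ι + 1) * k.factorial ≤ c * k.factorial :=
          Nat.mul_le_mul_right _ h8
        rw [Nat.add_mul, Nat.one_mul] at h9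
        omega
  subst hcc
  rcases h with h | h
  · have h7 : (Z \ A).card = d + (A \ Z).card := by omega
    have h8 := ggN P (a := d) (b := (A \ Z).card) (by
      have h9 : ((Z \ A).card : ℝ) = d + (A \ Z).card := by exact_mod_cast h7
      linarith)
    rw [← h7] at h8
    have e : 2 * ((Z \ A).card : ℝ) * (A \ Z).card / (k.factorial : ℕ)
        = 2 * ((A \ Z).card : ℝ) * ((Z \ A).card : ℕ) / (k.factorial : ℕ) := by ring
    linarith
  · have h7 : (A \ Z).card = d + (Z \ A).card := by omega
    have h8 := ggN P (a := d) (b := (Z \ A).card) (by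
      have h9 : ((A \ Z).card : ℝ) = d + (Z \ A).card := by exact_mod_cast h7
      linarith)
    rw [← h7] at h8
    linarith

end Pool.H60.NN
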