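import Pool.Agent.H60.NM.Avg

set_option autoImplicit false

/-!
# Two levels, and numbers

`ph k x = x ^ 2 / k! + ((k choose 2) - 1) x` is the bound of level `k` for `D A`, `|A| = x`.
A `Comp j U` is an improvement `U` of the bound of level `j`. A `Par k j U` says that the level
`k` is at least 8 above `j`.
-/

open Finset Equiv Pool.H60.Transp Pool.H60.NM

namespace Pool.H60.NN

/-- the bound of level `k` -/
noncomputable def ph (k : ℕ) (x : ℝ) : ℝ :=
  x ^ 2 / (k.factorial : ℕ) + (((k.choose 2 : ℕ) : ℝ) - 1) * x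

lemma df_eq {n : ℕ} (k : ℕ) (A : Finset (Perm (Fin n))) :
    df k A = ph k A.card - D A := rfl

/-- an improvement `U` of the bound of level `j` -/
structure Comp (j : ℕ) (U : ℕ → ℝ) : Prop where
  nonneg : ∀ i, 0 ≤ U i
  zero : U 0 = 0
  top : U (j + 1).factorial = 0
  bound : ∀ (n : ℕ) (A : Finset (Perm (Fin n))), U A.card ≤ df j A

/-- the bound for the slopes of the improvements of level `j` -/
noncomputable def sl (k j : ℕ) : ℝ :=
  2 * (((k.choose 2 : ℕ) : ℝ) - (j.choose 2 : ℕ)) - (3 * j + 4)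

/-- two levels at distance at least 8 -/
structure Par (k j : ℕ) (U : ℕ → ℝ) : Prop where
  hj : 1 ≤ j
  hjk : j + 8 ≤ k
  hk : 11 ≤ k
  comp : Comp j U
  rev : ∀ a b, a + b ≤ (j + 1).factorial → U a ≤ U (a + b) + U b + sl k j * b
  top : ∀ a, a ≤ (j + 1).factorial → U a ≤ sl k j * (((j + 1).factorial : ℕ) - a)

/-- the deficiency of level `k` of the sets which are extremal for `U` -/
noncomputable def G (k j : ℕ) (U : ℕ → ℝ) (i : ℕ) : ℝ := ph k i - ph j i + U i

/-- the bound of `G` on `[0, (j + 1)!]` -/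
noncomputable def Gs (k j : ℕ) : ℝ := ((j + 1).factorial : ℕ) * (k.choose 2 : ℕ)

/-- the bound of the deficiencies considered -/
noncomputable def Hs (k j : ℕ) : ℝ := 10 * k * Gs k j

/-- the range of sizes below `k!` considered -/
def Is (k j : ℕ) : ℕ := 30 * (j + 1).factorial * k.choose 2

/-- the real numbers and the inequalities between them -/
structure Nums (k D0 K C g H I : ℝ) : Prop where
  hk : 11 ≤ k
  hD : 1 ≤ D0
  hC : C = k * (k - 1) / 2
  hC55 : 55 ≤ C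
  hCk : 5 * k ≤ C
  hg : g = D0 * C
  hgC : C ≤ g
  hgD : 5 * k * D0 ≤ g
  hH : H = 10 * k * g
  hI : I = 30 * g
  hKbig : H * ((k + 1) * (k + 3)) + I < K
  hKbig' : 160 * H + I < K

variable {k j : ℕ} {U : ℕ → ℝ}

/-- everything in terms of `q`, `k = q + 7` -/
lemma fac7 (q : ℕ) : (((q + 7).factorial : ℕ) : ℝ)
    = (q + 7) * (q + 6) * (q + 5) * (q + 4) * (q + 3) * (q + 2) * (q + 1)
      * (q.factorial : ℕ) := by
  rw [factorial_succ_real, factorial_succ_real, factorial_succ_real, factorial_succ_real,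
    factorial_succ_real, factorial_succ_real, factorial_succ_real]
  push_cast
  ring

lemma fac4 (q : ℕ) : (((q + 4).factorial : ℕ) : ℝ)
    = (q + 4) * (q + 3) * (q + 2) * (q + 1) * (q.factorial : ℕ) := by
  rw [factorial_succ_real, factorial_succ_real, factorial_succ_real, factorial_succ_real]
  push_cast
  ring

theorem Par.nums (P : Par k j U) : Nums k ((j + 1).factorial : ℕ) (k.factorial : ℕ)
    (k.choose 2 : ℕ) (Gs k j) (Hs k j) (Is k j) := by
  obtain ⟨q, rfl⟩ : ∃ q, k = q + 7 := ⟨k - 7, by have := P.hk; omega⟩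
  have hq4 : (4 : ℝ) ≤ q := by
    have : 4 ≤ q := by have := P.hk; omega
    exact_mod_cast this
  have hC := choose_two_real (q + 7)
  have hK := fac7 q
  have hDR : (((j + 1).factorial : ℕ) : ℝ) ≤ (q.factorial : ℕ) := by
    have : (j + 1).factorial ≤ q.factorial := Nat.factorial_le (by have := P.hjk; omega)
    exact_mod_cast this
  have hD1 : (1 : ℝ) ≤ ((j + 1).factorial : ℕ) := by
    have : 1 ≤ (j + 1).factorial := Nat.factorial_pos _
    exact_mod_cast this
  have hI : ((Is (q + 7) j : ℕ) : ℝ) = 30 * Gs (q + 7) j := by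
    unfold Is Gs
    push_cast
    ring
  have ek : ((q + 7 : ℕ) : ℝ) = q + 7 := by push_cast; ring
  rw [ek] at hC
  rw [ek]
  set K : ℝ := (((q + 7).factorial : ℕ) : ℝ)
  set C : ℝ := (((q + 7).choose 2 : ℕ) : ℝ) with hCdef
  set R : ℝ := ((q.factorial : ℕ) : ℝ)
  set d : ℝ := (((j + 1).factorial : ℕ) : ℝ) with hd
  set x : ℝ := (q : ℝ) with hx
  have hg : Gs (q + 7) j = d * C := rfl
  have hH : Hs (q + 7) j = 10 * (x + 7) * Gs (q + 7) j := by
    unfold Hs
    rw [ek]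
  have hC55 : 55 ≤ C := by nlinarith
  have hCk : 5 * (x + 7) ≤ C := by nlinarith
  have hgC : C ≤ Gs (q + 7) j := by rw [hg]; nlinarith
  have hg0 : 0 ≤ Gs (q + 7) j := by linarith
  have hKbig : Hs (q + 7) j * ((x + 7 + 1) * (x + 7 + 3)) + (Is (q + 7) j : ℕ) < K := by
    rw [hI, hH, hg]
    have h1 : 10 * (x + 7) * ((x + 8) * (x + 10)) + 30
        < 2 * ((x + 5) * (x + 4) * (x + 3) * (x + 2) * (x + 1)) := by
      obtain ⟨t, ht⟩ : ∃ t : ℝ, t = x - 4 := ⟨_, rfl⟩
      have ht0 : 0 ≤ t := by linarith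
      have hxt : x = t + 4 := by linarith
      rw [hxt]
      have e : 2 * ((t + 4 + 5) * (t + 4 + 4) * (t + 4 + 3) * (t + 4 + 2) * (t + 4 + 1))
          - (10 * (t + 4 + 7) * ((t + 4 + 8) * (t + 4 + 10)) + 30)
          = 11730 + 18008 * t + 6280 * t ^ 2 + 960 * t ^ 3 + 70 * t ^ 4 + 2 * t ^ 5 := by ring
      have h2 : 0 ≤ 18008 * t + 6280 * t ^ 2 + 960 * t ^ 3 + 70 * t ^ 4 + 2 * t ^ 5 := by positivity
      linarith
    have hdC : 0 < d * C := by nlinarith
    have h2 : 10 * (x + 7) * (d * C) * ((x + 7 + 1) * (x + 7 + 3)) + 30 * (d * C)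
        = d * C * (10 * (x + 7) * ((x + 8) * (x + 10)) + 30) := by ring
    rw [h2]
    have h3 := mul_lt_mul_of_pos_left h1 hdC
    have h4 : d * C * (2 * ((x + 5) * (x + 4) * (x + 3) * (x + 2) * (x + 1)))
        ≤ R * C * (2 * ((x + 5) * (x + 4) * (x + 3) * (x + 2) * (x + 1))) := by
      apply mul_le_mul_of_nonneg_right _ (by positivity)
      exact mul_le_mul_of_nonneg_right hDR (by linarith)
    have h5 : R * C * (2 * ((x + 5) * (x + 4) * (x + 3) * (x + 2) * (x + 1))) = K := by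
      rw [hC, hK]; ring
    linarith
  refine ⟨by linarith, hD1, hC, hC55, hCk, hg, hgC, ?_, hH, hI, hKbig, ?_⟩
  · rw [hg]
    nlinarith
  · have hH0 : 0 ≤ Hs (q + 7) j := by rw [hH]; positivity
    have : (160 : ℝ) ≤ (x + 7 + 1) * (x + 7 + 3) := by nlinarith
    nlinarith

/-- `Is` is small compared to `(k - 3)!` -/
lemma Is_le (P : Par k j U) :
    ((Is k j : ℕ) : ℝ) ≤ ((k : ℝ) - 6) * ((k - 3).factorial : ℕ) := by
  have N := P.nums
  obtain ⟨q, rfl⟩ : ∃ q, k = q + 7 := ⟨k - 7, by have := P.hk; omega⟩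
  have hq4 : (4 : ℝ) ≤ q := by
    have : 4 ≤ q := by have := P.hk; omega
    exact_mod_cast this
  have hDR : (((j + 1).factorial : ℕ) : ℝ) ≤ (q.factorial : ℕ) := by
    have : (j + 1).factorial ≤ q.factorial := Nat.factorial_le (by have := P.hjk; omega)
    exact_mod_cast this
  have e1 : q + 7 - 3 = q + 4 := by omega
  rw [e1, fac4, N.hI, N.hg, N.hC]
  have ek : ((q + 7 : ℕ) : ℝ) = q + 7 := by push_cast; ring
  rw [ek]
  set R : ℝ := ((q.factorial : ℕ) : ℝ)
  set d : ℝ := (((j + 1).factorial : ℕ) : ℝ) with hd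
  set x : ℝ := (q : ℝ) with hx
  have hR0 : 0 < R := fac_pos q
  have h1 : 15 * ((x + 7) * (x + 6)) ≤ (x + 1) * ((x + 4) * (x + 3) * (x + 2) * (x + 1)) := by
    obtain ⟨t, ht⟩ : ∃ t : ℝ, t = x - 4 := ⟨_, rfl⟩
    have ht0 : 0 ≤ t := by linarith
    have hxt : x = t + 4 := by linarith
    rw [hxt]
    have e : (t + 4 + 1) * ((t + 4 + 4) * (t + 4 + 3) * (t + 4 + 2) * (t + 4 + 1))
        - 15 * ((t + 4 + 7) * (t + 4 + 6)) = 6750 + 6695 * t + 2306 * t ^ 2 + 381 * t ^ 3 + 31 * t ^ 4 + 1 * t ^ 5 := by ring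
    have h2 : 0 ≤ 6750 + 6695 * t + 2306 * t ^ 2 + 381 * t ^ 3 + 31 * t ^ 4 + 1 * t ^ 5 := by positivity
    linarith
  have h5 : 15 * ((x + 7) * (x + 6)) * d ≤ 15 * ((x + 7) * (x + 6)) * R :=
    mul_le_mul_of_nonneg_left hDR (by positivity)
  have h6 := mul_le_mul_of_nonneg_right h1 hR0.le
  have e2 : 30 * (d * ((x + 7) * (x + 7 - 1) / 2)) = 15 * ((x + 7) * (x + 6)) * d := by ring
  have e3 : (x + 7 - 6) * ((x + 4) * (x + 3) * (x + 2) * (x + 1) * R)
      = (x + 1) * ((x + 4) * (x + 3) * (x + 2) * (x + 1)) * R := by ring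
  rw [e2, e3]
  linarith

lemma choose_diff {k l : ℕ} :
    ((k.choose 2 : ℕ) : ℝ) - (l.choose 2 : ℕ) = ((k : ℝ) - l) * ((k : ℝ) + l - 1) / 2 := by
  rw [choose_two_real, choose_two_real]
  ring

/-- the difference of the bounds of two levels is increasing -/
lemma ph_step {k l x : ℕ} (hx : x + 1 ≤ (l + 1).factorial) :
    ph k x - ph l x + (((k.choose 2 : ℕ) : ℝ) - (l.choose 2 : ℕ) - 2 * (l + 1))
      ≤ ph k (x + 1 : ℕ) - ph l (x + 1 : ℕ) := by
  have hK := fac_pos k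
  have hL := fac_pos l
  have h1 : ((x : ℝ) + 1) ≤ (l + 1) * (l.factorial : ℕ) := by
    rw [← factorial_succ_real]
    exact_mod_cast hx
  have hx0 : (0 : ℝ) ≤ x := Nat.cast_nonneg x
  have h2 : ((x : ℝ) + 1) ^ 2 / (l.factorial : ℕ) - (x : ℝ) ^ 2 / (l.factorial : ℕ)
      ≤ 2 * (l + 1) := by
    rw [← sub_div, div_le_iff₀ hL]
    nlinarith
  have h3 : (x : ℝ) ^ 2 / (k.factorial : ℕ) ≤ ((x : ℝ) + 1) ^ 2 / (k.factorial : ℕ) :=
    div_le_div_of_nonneg_right (by nlinarith) hK.le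
  unfold ph
  push_cast
  linarith

lemma choose_diff3 {k l : ℕ} (hlk : l + 3 ≤ k) :
    2 * ((l : ℝ) + 1) ≤ ((k.choose 2 : ℕ) : ℝ) - (l.choose 2 : ℕ) := by
  rw [choose_diff]
  have h : (l : ℝ) + 3 ≤ k := by exact_mod_cast hlk
  have hl : (0 : ℝ) ≤ l := Nat.cast_nonneg l
  nlinarith

lemma choose_diff7 {k l : ℕ} (hlk : l + 7 ≤ k) :
    2 * ((l : ℝ) + 1) + 2 * (l + 1) ≤ ((k.choose 2 : ℕ) : ℝ) - (l.choose 2 : ℕ) := by
  rw [choose_diff]
  have h : (l : ℝ) + 7 ≤ k := by exact_mod_cast hlk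
  have hl : (0 : ℝ) ≤ l := Nat.cast_nonneg l
  nlinarith

/-- the two bounds agree at `(l + 1)!` -/
lemma ph_cross (l : ℕ) : ph l ((l + 1).factorial : ℕ) = ph (l + 1) ((l + 1).factorial : ℕ) := by
  have hL := fac_pos l
  unfold ph
  rw [choose_succ_two, factorial_succ_real]
  have h1 : ((l : ℝ) + 1) ≠ 0 := by positivity
  field_simp
  ring

/-! ### the function `G` -/

lemma G_zero (P : Par k j U) : G k j U 0 = 0 := by
  unfold G ph
  rw [P.comp.zero]
  simp

/-- the difference of the bounds of the two levels is increasing -/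
lemma phd_mono (P : Par k j U) {i i' : ℕ} (hij : i ≤ i') (hj : i' ≤ (j + 1).factorial) :
    ph k i - ph j i ≤ ph k i' - ph j i' := by
  induction i', hij using Nat.le_induction with
  | base => exact le_rfl
  | succ i' hij ih =>
    refine le_trans (ih (by omega)) ?_
    have h1 := ph_step (k := k) (l := j) (x := i') hj
    have h2 := choose_diff3 (k := k) (l := j) (by have := P.hjk; omega)
    linarith

lemma phd_nonneg (P : Par k j U) {i : ℕ} (hi : i ≤ (j + 1).factorial) :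
    0 ≤ ph k i - ph j i := by
  have h := phd_mono P (Nat.zero_le i) hi
  have e : ∀ l : ℕ, ph l ((0 : ℕ) : ℝ) = 0 := by
    intro l
    unfold ph
    simp
  rw [e, e] at h
  linarith

lemma G_nonneg (P : Par k j U) {i : ℕ} (hi : i ≤ (j + 1).factorial) : 0 ≤ G k j U i := by
  have h1 := phd_nonneg P hi
  have h2 := P.comp.nonneg i
  unfold G
  linarith

lemma G_top (P : Par k j U) : G k j U (j + 1).factorial
    = ph k ((j + 1).factorial : ℕ) - ph j ((j + 1).factorial : ℕ) := by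
  unfold G
  rw [P.comp.top]
  ring

lemma U_le_ph {j : ℕ} {U : ℕ → ℝ} (C : Comp j U) {i : ℕ} (hi : i ≤ (j + 1).factorial) :
    U i ≤ ph j i := by
  have h1 : i ≤ (univ : Finset (Perm (Fin (j + 1)))).card := by
    rw [Finset.card_univ, Fintype.card_perm, Fintype.card_fin]
    exact hi
  obtain ⟨A, -, hA⟩ := Finset.exists_subset_card_eq h1
  have h2 := C.bound (j + 1) A
  rw [hA, df_eq, hA] at h2
  have h3 : (0 : ℝ) ≤ D A := Nat.cast_nonneg _
  linarith

lemma G_le (P : Par k j U) {i : ℕ} (hi : i ≤ (j + 1).factorial) : G k j U i ≤ Gs k j := by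
  have h1 := U_le_ph P.comp hi
  have hK := fac_pos k
  have hjk : (j + 1).factorial ≤ k.factorial := Nat.factorial_le (by have := P.hjk; omega)
  have hi' : (i : ℝ) ≤ ((j + 1).factorial : ℕ) := by exact_mod_cast hi
  have hiK : (i : ℝ) ≤ (k.factorial : ℕ) := by exact_mod_cast le_trans hi hjk
  have hi0 : (0 : ℝ) ≤ i := Nat.cast_nonneg i
  have hC : (0 : ℝ) ≤ (k.choose 2 : ℕ) := Nat.cast_nonneg _
  have h2 : (i : ℝ) ^ 2 / (k.factorial : ℕ) ≤ i := by
    rw [div_le_iff₀ hK]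
    nlinarith
  have h3 := mul_le_mul_of_nonneg_right hi' hC
  unfold ph at h1
  unfold G ph Gs
  linarith

/-- `1 / j! - 1 / k!` -/
noncomputable def bt (k j : ℕ) : ℝ := 1 / (j.factorial : ℕ) - 1 / (k.factorial : ℕ)

/-- the difference of the degrees -/
noncomputable def Ld (k j : ℕ) : ℝ := ((k.choose 2 : ℕ) : ℝ) - (j.choose 2 : ℕ)

lemma G_form (k j : ℕ) (U : ℕ → ℝ) (i : ℕ) :
    G k j U i = Ld k j * i - bt k j * (i : ℝ) ^ 2 + U i := by
  have hK := fac_pos k
  have hJ := fac_pos j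
  unfold G ph Ld bt
  field_simp
  ring

lemma bt_nonneg (P : Par k j U) : 0 ≤ bt k j := by
  have hJ := fac_pos j
  have h : ((j.factorial : ℕ) : ℝ) ≤ (k.factorial : ℕ) := by
    exact_mod_cast Nat.factorial_le (by have := P.hjk; omega : j ≤ k)
  have := one_div_le_one_div_of_le hJ h
  unfold bt
  linarith

lemma bt_mul (P : Par k j U) : bt k j * ((j + 1).factorial : ℕ) ≤ j + 1 := by
  have hJ := fac_pos j
  have hK := fac_pos k
  have hj0 : (0 : ℝ) ≤ j := Nat.cast_nonneg j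
  unfold bt
  rw [factorial_succ_real, sub_mul]
  have e : 1 / ((j.factorial : ℕ) : ℝ) * ((j + 1) * (j.factorial : ℕ)) = j + 1 := by
    field_simp
  have h : 0 ≤ 1 / ((k.factorial : ℕ) : ℝ) * ((j + 1) * (j.factorial : ℕ)) := by positivity
  linarith

lemma Ld_ge (P : Par k j U) : 8 * (j : ℝ) + 28 ≤ Ld k j := by
  have h : (j : ℝ) + 8 ≤ k := by exact_mod_cast P.hjk
  have hj0 : (0 : ℝ) ≤ j := Nat.cast_nonneg j
  unfold Ld
  rw [choose_diff]
  nlinarith

lemma sl_eq (k j : ℕ) : sl k j = 2 * Ld k j - (3 * j + 4) := rfl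

end Pool.H60.NN
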