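import Pool.Agent.H60.NN.Par

set_option autoImplicit false

/-!
# Small sets, and the end of the argument
-/

open Finset Equiv Pool.H60.Transp Pool.H60.NM

namespace Pool.H60.NN

variable {n k j : ℕ} {U : ℕ → ℝ}

/-- level `k - 3` -/
lemma small_lin (P : Par k j U) (M : Finset (Perm (Fin n))) (hM : M.card ≤ Is k j) :
    2 * (k : ℝ) * M.card ≤ df k M := by
  have hk9 := P.hk
  have hIs := Is_le P
  have h := D_le_level (j := k - 3) (by omega) M
  have hK := fac_pos k
  have hL := fac_pos (k - 3)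
  have hi0 : (0 : ℝ) ≤ M.card := Nat.cast_nonneg _
  have hi : (M.card : ℝ) ≤ (Is k j : ℕ) := by exact_mod_cast hM
  have h1 := choose_diff (k := k) (l := k - 3)
  have e1 : ((k - 3 : ℕ) : ℝ) = (k : ℝ) - 3 := by
    rw [Nat.cast_sub (by omega)]
    norm_num
  rw [e1] at h1
  have h2 : (0 : ℝ) ≤ (M.card : ℝ) ^ 2 / (k.factorial : ℕ) := by positivity
  have h3 : (M.card : ℝ) ^ 2 / ((k - 3).factorial : ℕ) ≤ ((k : ℝ) - 6) * M.card := by
    rw [div_le_iff₀ hL]
    nlinarith
  unfold df
  nlinarith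

lemma small_exact (P : Par k j U) (M : Finset (Perm (Fin n))) :
    G k j U M.card ≤ df k M := by
  have h := P.comp.bound n M
  rw [df_eq] at h ⊢
  unfold G
  linarith

/-- sizes between `(j + 1)!` and `Is` -/
lemma chain (P : Par k j U) {x : ℕ} (hx0 : (j + 1).factorial ≤ x) (hx : x ≤ Is k j) :
    ∃ l, 1 ≤ l ∧ l + 3 ≤ k ∧ x ≤ (l + 1).factorial ∧
      G k j U (j + 1).factorial ≤ ph k x - ph l x := by
  have hjk := P.hjk
  have hk9 := P.hk
  induction x, hx0 using Nat.le_induction with
  | base => exact ⟨j, P.hj, by omega, le_rfl, (G_top P).le⟩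
  | succ x hx0 ih =>
    obtain ⟨l, hl1, hl3, hl, hG⟩ := ih (by omega)
    by_cases h : x + 1 ≤ (l + 1).factorial
    · refine ⟨l, hl1, hl3, h, ?_⟩
      have h1 := ph_step (k := k) (l := l) (x := x) h
      have h2 := choose_diff3 hl3
      linarith
    · have hxl : x = (l + 1).factorial := by omega
      have hl4 : l + 4 ≤ k := by
        by_contra hc
        have h1 : (k - 2).factorial ≤ (l + 1).factorial := Nat.factorial_le (by omega)
        have h2 : (k - 2).factorial ≤ Is k j := by omega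
        have h3 : (((k - 2).factorial : ℕ) : ℝ) ≤ (Is k j : ℕ) := by exact_mod_cast h2
        have h4 := Is_le P
        have e1 : k - 2 = (k - 3) + 1 := by omega
        rw [e1, factorial_succ_real, Nat.cast_sub (by omega : 3 ≤ k)] at h3
        push_cast at h3
        have hL := fac_pos (k - 3)
        nlinarith
      have hx1 : x + 1 ≤ (l + 1 + 1).factorial := by
        rw [Nat.factorial_succ, ← hxl]
        have : 1 ≤ x := by rw [hxl]; exact Nat.factorial_pos _
        nlinarith
      refine ⟨l + 1, by omega, by omega, hx1, ?_⟩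
      have h1 := ph_step (k := k) (l := l + 1) (x := x) hx1
      have h2 := choose_diff3 (k := k) (l := l + 1) (by omega)
      have h3 := ph_cross l
      rw [← hxl] at h3
      linarith

/-- the deficiency above a multiple of `k!` -/
noncomputable def gg (k j : ℕ) (U : ℕ → ℝ) (i : ℕ) : ℝ := G k j U (min i (j + 1).factorial)

lemma gg_nonneg (P : Par k j U) (i : ℕ) : 0 ≤ gg k j U i := G_nonneg P (min_le_right _ _)

lemma gg_le (P : Par k j U) (i : ℕ) : gg k j U i ≤ Gs k j := G_le P (min_le_right _ _)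

lemma small_gg (P : Par k j U) (M : Finset (Perm (Fin n))) (hM : M.card ≤ Is k j) :
    gg k j U M.card ≤ df k M := by
  rcases le_total M.card (j + 1).factorial with h | h
  · unfold gg
    rw [min_eq_left h]
    exact small_exact P M
  · unfold gg
    rw [min_eq_right h]
    obtain ⟨l, hl1, -, -, hG⟩ := chain P h hM
    have h1 := D_le_level hl1 M
    refine le_trans hG ?_
    rw [df_eq]
    unfold ph at hG ⊢
    linarith

/-- the previous level, `k` instead of `k + 1` -/
lemma df_mid' {k : ℕ} (hk : 2 ≤ k) (A : Finset (Perm (Fin n))) :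
    ((k : ℝ) - 1) * A.card * ((k.factorial : ℕ) - A.card) / (k.factorial : ℕ) ≤ df k A := by
  obtain ⟨j, rfl⟩ : ∃ j, k = j + 1 := ⟨k - 1, by omega⟩
  have h := df_mid (k := j) (by omega) A
  have e : (((j + 1 : ℕ) : ℝ) - 1) = j := by push_cast; ring
  rw [e]
  exact h

lemma rest_pos {A : Finset (Perm (Fin n))} {p : Fin n} (hp : p ∈ N A) (v : Fin n) :
    0 < (A.filter (fun σ => ¬ σ p = v)).card := by
  rw [Finset.card_pos]
  simp only [N, mem_filter, mem_univ, true_and] at hp
  obtain ⟨σ, hσ, π, hπ, hne⟩ := hp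
  by_cases h1 : σ p = v
  · exact ⟨π, mem_filter.2 ⟨hπ, fun h2 => hne (h1.trans h2.symm)⟩⟩
  · exact ⟨σ, mem_filter.2 ⟨hσ, h1⟩⟩

/-- a set with small classes and small deficiency does not exist -/
theorem finish (P : Par k j U) (A : Finset (Perm (Fin n))) (hN : k + 1 ≤ (N A).card)
    {s : ℝ} (hs : s * ((k : ℝ) + 3) ≤ (k.factorial : ℕ))
    (hcl : ∀ p ∈ N A, ∀ v, ((k : ℝ) + 1) * (A.filter (fun σ => σ p = v)).card
      ≤ k * (k.factorial : ℕ) + 2 * s)
    (h2m : 2 * (A.card : ℝ) ≤ k * (k.factorial : ℕ))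
    (hm : ((k.factorial : ℕ) : ℝ) ≤ A.card + (Is k j : ℕ))
    (hdf : df k A ≤ Hs k j) : False := by
  have N := P.nums
  have hk9 := P.hk
  have hkx := N.hk
  have hH0 : 0 ≤ Hs k j := by
    have h1 := N.hgC
    have h2 := N.hC55
    rw [N.hH]
    have h3 : 0 ≤ Gs k j := by linarith
    positivity
  have hlt : ∀ p ∈ Pool.H60.Transp.N A, ∀ v,
      ((A.filter (fun σ => σ p = v)).card : ℝ) * (1 + ((k : ℝ) + 2))
        ≤ ((k : ℝ) + 2) * (k.factorial : ℕ) := by
    intro p hp v
    have h := hcl p hp v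
    set a : ℝ := ((A.filter (fun σ => σ p = v)).card : ℝ)
    set K : ℝ := ((k.factorial : ℕ) : ℝ)
    have h1 : ((k : ℝ) + 1) * a * (k + 3) ≤ (k * K + 2 * s) * (k + 3) :=
      mul_le_mul_of_nonneg_right h (by linarith)
    have h2 : (k * K + 2 * s) * ((k : ℝ) + 3) ≤ (k + 1) * ((k + 2) * K) := by nlinarith
    have h3 : ((k : ℝ) + 1) * (a * (1 + (k + 2))) ≤ (k + 1) * ((k + 2) * K) := by linarith
    exact le_of_mul_le_mul_left h3 (by linarith)
  have hsm : ∀ p ∈ Pool.H60.Transp.N A, ∀ v,
      (A.filter (fun σ => σ p = v)).card < k.factorial := by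
    intro p hp v
    have h := hlt p hp v
    have hK := fac_pos k
    have : ((A.filter (fun σ => σ p = v)).card : ℝ) < (k.factorial : ℕ) := by
      by_contra hc
      push Not at hc
      nlinarith
    exact_mod_cast this
  obtain ⟨i, rfl⟩ : ∃ i, k = i + 1 := ⟨k - 1, by omega⟩
  have ej : (((i + 1 : ℕ) : ℝ)) = i + 1 := by push_cast; ring
  refine avg_err (k := i) (by omega) A (W := (i : ℝ) + 3) (h := Hs (i + 1) j)
    (by positivity) hH0 (by omega) ?_ hdf ?_ ?_
  · intro p hp
    refine class_sq_err (by omega) A p (by positivity) hH0 (hsm p hp) ?_ hdf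
    intro v
    have h := hlt p hp v
    rw [ej] at h
    have e2 : (i : ℝ) + 1 + 2 = i + 3 := by ring
    rw [e2] at h
    exact h
  · rw [ej] at h2m
    exact h2m
  · have h := N.hKbig
    rw [ej] at h
    have e3 : ((i : ℝ) + 1 + 1) * (i + 1 + 3) = (i + 2) * (i + 3 + 1) := by ring
    rw [e3] at h
    linarith

end Pool.H60.NN
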