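import Pool.Agent.H60.NN.Fin

set_option autoImplicit false

/-!
# Stability at the multiples of `k!`
-/

open Finset Equiv Pool.H60.Transp Pool.H60.NM

namespace Pool.H60.NN

variable {n : ℕ}

open Classical in
/-- a set of `c * k!` permutations which is nearly extremal is close to a union of `c` pairwise
disjoint and perfectly matched cosets -/
theorem stab {k c ε : ℕ} (hk : 11 ≤ k) (hc : c ≤ k) (A : Finset (Perm (Fin n)))
    (hA : A.card = c * k.factorial) (hb : bd A ≤ bd (lexInit n A.card) + ε)
    (hε : ε < (k - 7).factorial * k.choose 2) :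
    ∃ Q : Fin c → Finset (Perm (Fin n)), Fam k Q ∧
      (A \ univ.biUnion Q).card + (univ.biUnion Q \ A).card ≤ 2 * ε := by
  have P := par_zero (k := k) (j := k - 8) (by omega) (by omega) hk
  have Nn := P.nums
  have hK := fac_pos k
  have hg : Gs k (k - 8) = (((k - 7).factorial * k.choose 2 : ℕ) : ℝ) := by
    unfold Gs
    have e : k - 8 + 1 = k - 7 := by omega
    rw [e]
    push_cast
    ring
  have hεg : (ε : ℝ) < Gs k (k - 8) := by
    rw [hg]
    exact_mod_cast hε
  have hg0 : 0 < Gs k (k - 8) := Gs_pos P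
  have hKg : 17600 * Gs k (k - 8) < (k.factorial : ℕ) := by
    have h1 := Nn.hKbig'
    have hkg := mul_le_mul_of_nonneg_right Nn.hk hg0.le
    rw [Nn.hH, Nn.hI] at h1
    linarith
  -- the deficiency
  have hdf : df k A ≤ ε := by
    have hn : Ef n A.card = Ef (k + 1) A.card := by
      apply Ef_eq_of_card (card_le_fact A)
      rw [hA, Nat.factorial_succ]
      exact Nat.mul_le_mul_right _ (by omega)
    obtain ⟨-, h1⟩ := Ex_zero (j := k) (c := c) (by omega)
    rw [← hA] at h1
    have h2 := bd_add_D A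
    have h3 := bd_add_D (lexInit n A.card)
    rw [card_lex (card_le_fact A), D_lex (card_le_fact A), hn] at h3
    have h4 : 2 * Ef (k + 1) A.card ≤ D A + ε := by omega
    have h5 : 2 * (Ef (k + 1) A.card : ℝ) ≤ D A + ε := by exact_mod_cast h4
    rw [df_eq]
    linarith
  have hck : (c : ℝ) ≤ k := by exact_mod_cast hc
  have hAR : (A.card : ℝ) = c * (k.factorial : ℕ) := by exact_mod_cast hA
  obtain ⟨ι, hι, Q, B, h1, h2, h3, h4, h5⟩ := str_main P A c hc (by
    rw [hAR, sub_self, abs_zero]
    linarith) (by linarith)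
  have hm : (A.card : ℝ) ≤ ((k : ℝ) + 1) * (k.factorial : ℕ) := by
    rw [hAR]
    exact mul_le_mul_of_nonneg_right (by linarith) hK.le
  have F := sys_fam P A hm (by linarith) h1 h2 h3 h4 (by linarith)
  set Z := univ.biUnion Q with hZ
  have hsum : ∑ i, (B i).card ≤ (A ∩ Z).card := by
    rw [← Finset.card_biUnion (fun i _ i' _ hne => h4 i i' hne)]
    apply Finset.card_le_card
    intro σ hσ
    obtain ⟨i, hi, hi'⟩ := Finset.mem_biUnion.1 hσ
    exact Finset.mem_inter.2 ⟨h3 i hi', Finset.mem_biUnion.2 ⟨i, hi, h2 i hi'⟩⟩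
  have hc1 := Finset.card_sdiff_add_card_inter A Z
  have hc2 := Finset.card_sdiff_add_card_inter Z A
  rw [Finset.inter_comm] at hc2
  have hcZ : Z.card = Fintype.card ι * k.factorial := F.card_union
  have r1 : ∑ i, ((B i).card : ℝ) ≤ (A ∩ Z).card := by exact_mod_cast hsum
  have r2 : ((A \ Z).card : ℝ) + (A ∩ Z).card = A.card := by exact_mod_cast hc1
  have r3 : ((Z \ A).card : ℝ) + (A ∩ Z).card = Fintype.card ι * (k.factorial : ℕ) := by
    rw [hcZ] at hc2
    exact_mod_cast hc2
  have hx : ((A \ Z).card : ℝ) + (Z \ A).card ≤ 2 * ε := by linarith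
  have hx' : (A \ Z).card + (Z \ A).card ≤ 2 * ε := by exact_mod_cast hx
  have h2ε : 2 * ε < k.factorial := by
    have : 2 * (ε : ℝ) < (k.factorial : ℕ) := by linarith
    exact_mod_cast this
  have hcc : Fintype.card ι = c := by
    have h7 : c * k.factorial + (Z \ A).card = Fintype.card ι * k.factorial + (A \ Z).card := by
      omega
    by_contra hne
    rcases Nat.lt_or_gt_of_ne hne with h8 | h8
    · have h9 : (Fintype.card ι + 1) * k.factorial ≤ c * k.factorial :=
        Nat.mul_le_mul_right _ h8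
      rw [Nat.add_mul, Nat.one_mul] at h9
      omega
    · have h9 : (c + 1) * k.factorial ≤ Fintype.card ι * k.factorial :=
        Nat.mul_le_mul_right _ h8
      rw [Nat.add_mul, Nat.one_mul] at h9
      omega
  let e : Fin c ≃ ι := (Fintype.equivFinOfCardEq hcc).symm
  have hZe : univ.biUnion (fun i => Q (e i)) = Z := by
    ext σ
    simp only [hZ, Finset.mem_biUnion, mem_univ, true_and]
    exact e.exists_congr_left.trans (by simp)
  refine ⟨fun i => Q (e i), ⟨fun i => F.cos _, fun i i' h => F.dis _ _ (fun h' => h (e.injective h')),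
    fun i i' h => F.mat _ _ (fun h' => h (e.injective h'))⟩, ?_⟩
  rw [hZe]
  exact hx'

end Pool.H60.NN
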