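import Pool.Agent.H60.NN.Near
import Pool.Agent.H60.NN.Rev

set_option autoImplicit false

/-!
# From the level `j` to the level `k`

`Un1 k j U` and `Un2 k j U` are the improvements of the bound of level `k` obtained from an
improvement `U` of level `j`, above the multiples of `k!` and on both sides of them. `Ex j U m`
says that the improved bound of level `j` is the value of the lexicographic initial segment for
the size `m`.
-/

open Finset Equiv Pool.H60.Transp Pool.H60.NM

namespace Pool.H60.NN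

variable {n k j : ℕ} {U : ℕ → ℝ}

lemma Gs_pos (P : Par k j U) : 0 < Gs k j := by
  have N := P.nums
  linarith [N.hgC, N.hC55]

lemma Gs_le (P : Par k j U) : 100 * Gs k j ≤ (k.factorial : ℕ) := by
  have N := P.nums
  have hg := Gs_pos P
  have h := N.hKbig'
  rw [N.hI, N.hH] at h
  have hk := N.hk
  nlinarith

lemma D0_le (P : Par k j U) : 55 * (((j + 1).factorial : ℕ) : ℝ) ≤ Gs k j := by
  have N := P.nums
  have h1 := N.hgD
  have hk := N.hk
  have hD := N.hD
  nlinarith

lemma gg_zero (P : Par k j U) : gg k j U 0 = 0 := by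
  unfold gg
  rw [min_eq_left (Nat.zero_le _)]
  exact G_zero P

/-- the taper -/
noncomputable def tp (k j δ : ℕ) : ℝ :=
  max 0 (min 1 ((((j + 1).factorial : ℕ) + 3 / 2 * Gs k j - δ) / (3 / 2 * Gs k j)))

lemma tp_nonneg (k j δ : ℕ) : 0 ≤ tp k j δ := le_max_left _ _

lemma tp_le_one (k j δ : ℕ) : tp k j δ ≤ 1 := max_le zero_le_one (min_le_left _ _)

lemma tp_anti (P : Par k j U) {i i' : ℕ} (h : i ≤ i') : tp k j i' ≤ tp k j i := by
  have hg := Gs_pos P
  unfold tp
  apply max_le_max le_rfl
  apply min_le_min le_rfl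
  apply div_le_div_of_nonneg_right _ (by linarith)
  have : (i : ℝ) ≤ i' := by exact_mod_cast h
  linarith

lemma tp_lip (P : Par k j U) (a b : ℕ) : tp k j a ≤ tp k j (a + b) + b / (3 / 2 * Gs k j) := by
  have hg := Gs_pos P
  have hb0 : (0 : ℝ) ≤ b := Nat.cast_nonneg b
  have h1 : (0 : ℝ) ≤ b / (3 / 2 * Gs k j) := by positivity
  unfold tp
  push_cast
  set w : ℝ := 3 / 2 * Gs k j
  set d : ℝ := (((j + 1).factorial : ℕ) : ℝ) + w
  have e : (d - a) / w = (d - ((a : ℝ) + b)) / w + b / w := by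
    rw [← add_div]
    congr 1
    ring
  rw [e]
  set x : ℝ := (d - ((a : ℝ) + b)) / w
  set t : ℝ := b / w
  have h2 : min 1 x ≤ max 0 (min 1 x) := le_max_right _ _
  have h3 : 0 ≤ max 0 (min 1 x) := le_max_left _ _
  apply max_le
  · linarith
  · rcases le_total 1 x with h4 | h4
    · rw [min_eq_left h4] at h2 ⊢
      exact le_trans (min_le_left _ _) (by linarith)
    · rw [min_eq_right h4] at h2 ⊢
      exact le_trans (min_le_right _ _) (by linarith)

lemma tp_one (P : Par k j U) {d : ℕ} (hd : d ≤ (j + 1).factorial) : tp k j d = 1 := by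
  have hg := Gs_pos P
  unfold tp
  have hd' : (d : ℝ) ≤ ((j + 1).factorial : ℕ) := by exact_mod_cast hd
  rw [min_eq_left, max_eq_right zero_le_one]
  rw [le_div_iff₀ (by linarith)]
  linarith

lemma tp_zero (P : Par k j U) {d : ℕ} (hd : 2 * Gs k j ≤ d) : tp k j d = 0 := by
  have hg := Gs_pos P
  unfold tp
  apply max_eq_left
  apply le_trans (min_le_right _ _)
  apply div_nonpos_of_nonpos_of_nonneg _ (by linarith)
  have h1 := D0_le P
  have h2 : (0 : ℝ) ≤ ((j + 1).factorial : ℕ) := Nat.cast_nonneg _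
  linarith

/-- the improvement at the distance `δ` from a multiple of `k!` -/
noncomputable def uu (k j : ℕ) (U : ℕ → ℝ) (δ : ℕ) : ℝ := tp k j δ * gg k j U δ

lemma uu_nonneg (P : Par k j U) (δ : ℕ) : 0 ≤ uu k j U δ :=
  mul_nonneg (tp_nonneg _ _ _) (gg_nonneg P _)

lemma uu_le (P : Par k j U) (δ : ℕ) : uu k j U δ ≤ gg k j U δ := by
  unfold uu
  have h1 := mul_le_mul_of_nonneg_right (tp_le_one k j δ) (gg_nonneg P δ)
  linarith

lemma uu_zero (P : Par k j U) : uu k j U 0 = 0 := by
  unfold uu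
  rw [gg_zero P, mul_zero]

lemma uu_far (P : Par k j U) {δ : ℕ} (h : 2 * Gs k j ≤ δ) : uu k j U δ = 0 := by
  unfold uu
  rw [tp_zero P h, zero_mul]

lemma uu_eq (P : Par k j U) {d : ℕ} (hd : d ≤ (j + 1).factorial) : uu k j U d = G k j U d := by
  unfold uu gg
  rw [tp_one P hd, one_mul, min_eq_left hd]

lemma uu_le_Gs (P : Par k j U) (δ : ℕ) : uu k j U δ ≤ Gs k j :=
  le_trans (uu_le P δ) (gg_le P δ)

/-- subadditivity -/
lemma uuS (P : Par k j U) (W : Wsub j U) (a b : ℕ) :
    uu k j U (a + b) ≤ uu k j U a + uu k j U b := by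
  unfold uu
  have h1 := mul_le_mul_of_nonneg_left (ggS P W a b) (tp_nonneg k j (a + b))
  have h2 := mul_le_mul_of_nonneg_right (tp_anti P (Nat.le_add_right a b)) (gg_nonneg P a)
  have h3 := mul_le_mul_of_nonneg_right (tp_anti P (Nat.le_add_left b a)) (gg_nonneg P b)
  linarith

/-- the reverse inequality -/
lemma uuR (P : Par k j U) (a b : ℕ) :
    uu k j U a ≤ uu k j U (a + b) + uu k j U b + 4 / 3 * b := by
  have hg := Gs_pos P
  have hb0 : (0 : ℝ) ≤ b := Nat.cast_nonneg b
  have hw : (0 : ℝ) < 3 / 2 * Gs k j := by linarith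
  have ht : 0 ≤ (b : ℝ) / (3 / 2 * Gs k j) := by positivity
  have h1 := mul_le_mul_of_nonneg_left (ggR P a b) (tp_nonneg k j a)
  have h2 := tp_lip P a b
  have h3 : tp k j a ≤ tp k j b + b / (3 / 2 * Gs k j) := by
    rcases le_total b a with h | h
    · have := tp_anti P h
      linarith
    · have h4 := tp_lip P a (b - a)
      rw [Nat.add_sub_cancel' h] at h4
      have h5 : ((b - a : ℕ) : ℝ) / (3 / 2 * Gs k j) ≤ b / (3 / 2 * Gs k j) := by
        apply div_le_div_of_nonneg_right _ hw.le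
        exact_mod_cast Nat.sub_le b a
      linarith
  have h4 := mul_le_mul_of_nonneg_right h2 (gg_nonneg P (a + b))
  have h5 := mul_le_mul_of_nonneg_right h3 (gg_nonneg P b)
  have h6 : (b : ℝ) / (3 / 2 * Gs k j) * gg k j U (a + b) ≤ 2 / 3 * b := by
    refine le_trans (mul_le_mul_of_nonneg_left (gg_le P (a + b)) ht) (le_of_eq ?_)
    field_simp
  have h7 : (b : ℝ) / (3 / 2 * Gs k j) * gg k j U b ≤ 2 / 3 * b := by
    refine le_trans (mul_le_mul_of_nonneg_left (gg_le P b) ht) (le_of_eq ?_)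
    field_simp
  unfold uu
  linarith

/-- the improvement above the multiples of `k!` -/
noncomputable def Un1 (k j : ℕ) (U : ℕ → ℝ) (i : ℕ) : ℝ :=
  if i / k.factorial ≤ k then uu k j U (i % k.factorial) else 0

/-- the improvement below the multiples of `k!` -/
noncomputable def Um (k j : ℕ) (U : ℕ → ℝ) (i : ℕ) : ℝ :=
  if i / k.factorial + 1 ≤ k then uu k j U (k.factorial - i % k.factorial) else 0

/-- the two-sided improvement -/
noncomputable def Un2 (k j : ℕ) (U : ℕ → ℝ) (i : ℕ) : ℝ := Un1 k j U i + Um k j U i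

lemma Un1_nonneg (P : Par k j U) (i : ℕ) : 0 ≤ Un1 k j U i := by
  unfold Un1
  split_ifs
  · exact uu_nonneg P _
  · exact le_rfl

lemma Um_nonneg (P : Par k j U) (i : ℕ) : 0 ≤ Um k j U i := by
  unfold Um
  split_ifs
  · exact uu_nonneg P _
  · exact le_rfl

lemma Un1_far (P : Par k j U) {i : ℕ} (h : 2 * Gs k j ≤ (i % k.factorial : ℕ)) :
    Un1 k j U i = 0 := by
  unfold Un1
  rw [uu_far P h, ite_self]

lemma Um_far (P : Par k j U) {i : ℕ} (h : 2 * Gs k j ≤ (k.factorial - i % k.factorial : ℕ)) :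
    Um k j U i = 0 := by
  unfold Um
  rw [uu_far P h, ite_self]

/-! ### the bounds -/

lemma Un1_le (P : Par k j U) (A : Finset (Perm (Fin n))) : Un1 k j U A.card ≤ df k A := by
  have h0 := df_nonneg (k := k) (by have := P.hk; omega) A
  by_cases h : 2 * Gs k j ≤ (A.card % k.factorial : ℕ)
  · rw [Un1_far P h]
    exact h0
  · push Not at h
    unfold Un1
    split_ifs with hc
    · refine le_trans (uu_le P _) (near P A hc h.le (Or.inr ?_))
      rw [Nat.mul_comm]
      exact (Nat.div_add_mod _ _).symm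
    · exact h0

lemma Um_le (P : Par k j U) (A : Finset (Perm (Fin n))) : Um k j U A.card ≤ df k A := by
  have h0 := df_nonneg (k := k) (by have := P.hk; omega) A
  by_cases h : 2 * Gs k j ≤ (k.factorial - A.card % k.factorial : ℕ)
  · rw [Um_far P h]
    exact h0
  · push Not at h
    unfold Um
    split_ifs with hc
    · refine le_trans (uu_le P _) (near P A hc h.le (Or.inl ?_))
      have h1 := Nat.div_add_mod A.card k.factorial
      have h2 := Nat.mod_lt A.card (Nat.factorial_pos k)
      rw [Nat.add_mul, Nat.one_mul, Nat.mul_comm (A.card / k.factorial)]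
      omega
    · exact h0

lemma Un2_le (P : Par k j U) (A : Finset (Perm (Fin n))) : Un2 k j U A.card ≤ df k A := by
  have h6 := Gs_le P
  have h7 := Gs_pos P
  have hK := Nat.factorial_pos k
  have hr := Nat.mod_lt A.card hK
  have hr' : ((A.card % k.factorial : ℕ) : ℝ) + (k.factorial - A.card % k.factorial : ℕ)
      = (k.factorial : ℕ) := by
    exact_mod_cast (by omega : A.card % k.factorial
      + (k.factorial - A.card % k.factorial) = k.factorial)
  unfold Un2
  by_cases h : 2 * Gs k j ≤ (A.card % k.factorial : ℕ)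
  · rw [Un1_far P h, zero_add]
    exact Um_le P A
  · push Not at h
    rw [Um_far P (by linarith), add_zero]
    exact Un1_le P A

theorem comp_Un1 (P : Par k j U) : Comp k (Un1 k j U) := by
  have hK := Nat.factorial_pos k
  refine ⟨Un1_nonneg P, ?_, ?_, fun n A => Un1_le P A⟩
  · unfold Un1
    rw [Nat.zero_mod, uu_zero P, ite_self]
  · unfold Un1
    rw [Nat.factorial_succ, Nat.mul_mod_left, uu_zero P, ite_self]

theorem comp_Un2 (P : Par k j U) : Comp k (Un2 k j U) := by
  have hK := Nat.factorial_pos k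
  have h6 := Gs_le P
  have h7 := Gs_pos P
  refine ⟨fun i => add_nonneg (Un1_nonneg P i) (Um_nonneg P i), ?_, ?_, fun n A => Un2_le P A⟩
  · unfold Un2
    rw [(comp_Un1 P).zero, zero_add]
    apply Um_far P
    rw [Nat.zero_mod, Nat.sub_zero]
    linarith
  · unfold Un2
    rw [(comp_Un1 P).top, zero_add]
    apply Um_far P
    rw [Nat.factorial_succ, Nat.mul_mod_left, Nat.sub_zero]
    linarith

/-! ### the two-sided improvement -/

lemma Un2_nonneg (P : Par k j U) (i : ℕ) : 0 ≤ Un2 k j U i := (comp_Un2 P).nonneg i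

lemma divmod_plus {c t : ℕ} (ht : t < k.factorial) :
    (c * k.factorial + t) / k.factorial = c ∧ (c * k.factorial + t) % k.factorial = t := by
  have hK := Nat.factorial_pos k
  constructor
  · rw [Nat.mul_comm, Nat.mul_add_div hK, Nat.div_eq_of_lt ht, Nat.add_zero]
  · rw [Nat.mul_add_mod_self_right, Nat.mod_eq_of_lt ht]

lemma Un2_right (P : Par k j U) {c t : ℕ} (hc : c ≤ k) (ht : t < k.factorial) :
    uu k j U t ≤ Un2 k j U (c * k.factorial + t) := by
  obtain ⟨h1, h2⟩ := divmod_plus (k := k) (c := c) ht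
  have h3 := Um_nonneg P (c * k.factorial + t)
  have h4 : Un1 k j U (c * k.factorial + t) = uu k j U t := by
    unfold Un1
    rw [h1, h2, if_pos hc]
  unfold Un2
  linarith

lemma Un2_left (P : Par k j U) {c t : ℕ} (hc1 : 1 ≤ c) (hc : c ≤ k) (ht : t ≤ k.factorial) :
    uu k j U t ≤ Un2 k j U (c * k.factorial - t) := by
  rcases Nat.eq_zero_or_pos t with h | h
  · subst h
    rw [uu_zero P]
    exact Un2_nonneg P _
  obtain ⟨b, rfl⟩ : ∃ b, c = b + 1 := ⟨c - 1, by omega⟩
  have e : (b + 1) * k.factorial - t = b * k.factorial + (k.factorial - t) := by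
    rw [Nat.add_mul, Nat.one_mul]
    omega
  obtain ⟨h1, h2⟩ := divmod_plus (k := k) (c := b) (t := k.factorial - t) (by omega)
  have h3 := Un1_nonneg P (b * k.factorial + (k.factorial - t))
  have h4 : Um k j U (b * k.factorial + (k.factorial - t)) = uu k j U t := by
    unfold Um
    rw [h1, h2, if_pos hc, Nat.sub_sub_self ht]
  rw [e]
  unfold Un2
  linarith

lemma Un2_cases (P : Par k j U) (i : ℕ) : Un2 k j U i = 0 ∨
    (∃ c t : ℕ, c ≤ k ∧ (t : ℝ) < 2 * Gs k j ∧ i = c * k.factorial + t ∧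
      Un2 k j U i = uu k j U t) ∨
    (∃ c t : ℕ, 1 ≤ c ∧ c ≤ k ∧ (t : ℝ) < 2 * Gs k j ∧ i + t = c * k.factorial ∧
      Un2 k j U i = uu k j U t) := by
  have h6 := Gs_le P
  have h7 := Gs_pos P
  have hK := Nat.factorial_pos k
  have hr := Nat.mod_lt i hK
  have hdm := Nat.div_add_mod i k.factorial
  have hr' : ((i % k.factorial : ℕ) : ℝ) + (k.factorial - i % k.factorial : ℕ)
      = (k.factorial : ℕ) := by
    exact_mod_cast (by omega : i % k.factorial + (k.factorial - i % k.factorial) = k.factorial)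
  by_cases h : 2 * Gs k j ≤ (i % k.factorial : ℕ)
  · have e1 := Un1_far P h
    by_cases h' : 2 * Gs k j ≤ (k.factorial - i % k.factorial : ℕ)
    · left
      unfold Un2
      rw [e1, Um_far P h', zero_add]
    · push Not at h'
      by_cases hc : i / k.factorial + 1 ≤ k
      · right
        right
        refine ⟨i / k.factorial + 1, k.factorial - i % k.factorial, Nat.le_add_left 1 _, hc, h',
          ?_, ?_⟩
        · rw [Nat.add_mul, Nat.one_mul, Nat.mul_comm (i / k.factorial)]
          omega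
        · unfold Un2 Um
          rw [e1, if_pos hc, zero_add]
      · left
        unfold Un2 Um
        rw [e1, if_neg hc, zero_add]
  · push Not at h
    have e2 : Um k j U i = 0 := Um_far P (by linarith)
    by_cases hc : i / k.factorial ≤ k
    · right
      left
      refine ⟨i / k.factorial, i % k.factorial, hc, h, ?_, ?_⟩
      · rw [Nat.mul_comm]
        exact hdm.symm
      · unfold Un2 Un1
        rw [e2, if_pos hc, add_zero]
    · left
      unfold Un2 Un1
      rw [e2, if_neg hc, add_zero]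

lemma Un2_le_Gs (P : Par k j U) (i : ℕ) : Un2 k j U i ≤ Gs k j := by
  rcases Un2_cases P i with h | ⟨c, t, -, -, -, h⟩ | ⟨c, t, -, -, -, -, h⟩
  · rw [h]
    exact (Gs_pos P).le
  · rw [h]
    exact uu_le_Gs P t
  · rw [h]
    exact uu_le_Gs P t

lemma lt_fact (P : Par k j U) {t : ℕ} (h : (t : ℝ) ≤ 50 * Gs k j) : t < k.factorial := by
  have h6 := Gs_le P
  have h7 := Gs_pos P
  have : (t : ℝ) < (k.factorial : ℕ) := by linarith
  exact_mod_cast this

lemma Un2_small (P : Par k j U) {t : ℕ} (ht : t < k.factorial) :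
    uu k j U t ≤ Un2 k j U t := by
  have h := Un2_right P (c := 0) (Nat.zero_le _) ht
  rwa [Nat.zero_mul, Nat.zero_add] at h

/-- the reverse inequality for the two-sided improvement -/
theorem Un2_rev (P : Par k j U) (W : Wsub j U) (a b : ℕ) :
    Un2 k j U a ≤ Un2 k j U (a + b) + Un2 k j U b + 8 * b := by
  have h0 := Un2_nonneg P (a + b)
  have h1 := Un2_nonneg P b
  have hb0 : (0 : ℝ) ≤ b := Nat.cast_nonneg b
  have hg := Gs_pos P
  rcases Un2_cases P a with h | ⟨c, t, hc, ht, he, h⟩ | ⟨c, t, hc1, hc, ht, he, h⟩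
  · linarith
  · by_cases hb : Gs k j ≤ 8 * b
    · have := Un2_le_Gs P a
      linarith
    push Not at hb
    have h2 := Un2_small P (lt_fact P (t := b) (by linarith))
    have h3 := Un2_right P hc (lt_fact P (t := t + b) (by push_cast; linarith))
    rw [← Nat.add_assoc, ← he] at h3
    have h4 := uuR P t b
    linarith
  · by_cases hb : Gs k j ≤ 8 * b
    · have := Un2_le_Gs P a
      linarith
    push Not at hb
    have h2 := Un2_small P (lt_fact P (t := b) (by linarith))
    rcases le_total b t with hbt | hbt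
    · have h3 := Un2_left P hc1 hc (lt_fact P (t := t - b) (by
        have : ((t - b : ℕ) : ℝ) ≤ t := by exact_mod_cast Nat.sub_le t b
        linarith)).le
      have e : c * k.factorial - (t - b) = a + b := by omega
      rw [e] at h3
      have h4 := uuS P W (t - b) b
      rw [Nat.sub_add_cancel hbt] at h4
      linarith
    · have h5 : ((b - t : ℕ) : ℝ) ≤ b := by exact_mod_cast Nat.sub_le b t
      have h3 := Un2_right P hc (lt_fact P (t := b - t) (by linarith))
      have e : c * k.factorial + (b - t) = a + b := by omega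
      rw [e] at h3
      have h4 := uuR P t (b - t)
      rw [Nat.add_sub_cancel' hbt] at h4
      have h6 : (0 : ℝ) ≤ ((b - t : ℕ) : ℝ) := Nat.cast_nonneg _
      linarith

/-- below `(k + 1)!` -/
theorem Un2_top (P : Par k j U) {a : ℕ} (ha : a ≤ (k + 1).factorial) :
    Un2 k j U a ≤ 8 * (((k + 1).factorial : ℕ) - a) := by
  have hg := Gs_pos P
  have h6 := Gs_le P
  have ha' : (a : ℝ) ≤ ((k + 1).factorial : ℕ) := by exact_mod_cast ha
  have h1 := Un2_le_Gs P a
  rcases Un2_cases P a with h | ⟨c, t, hc, ht, he, h⟩ | ⟨c, t, hc1, hc, ht, he, h⟩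
  · rw [h]
    linarith
  · have he' : (a : ℝ) = c * (k.factorial : ℕ) + t := by exact_mod_cast he
    have hc' : (c : ℝ) ≤ k := by exact_mod_cast hc
    have h2 := mul_le_mul_of_nonneg_right hc' (fac_pos k).le
    rw [factorial_succ_real]
    linarith
  · have he' : (a : ℝ) + t = c * (k.factorial : ℕ) := by exact_mod_cast he
    have hc' : (c : ℝ) ≤ k := by exact_mod_cast hc
    have h2 := mul_le_mul_of_nonneg_right hc' (fac_pos k).le
    have h3 : (0 : ℝ) ≤ t := Nat.cast_nonneg t
    rw [factorial_succ_real]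
    linarith

/-- subadditivity of the two-sided improvement up to an error -/
lemma Un2_sub_aux (P : Par k j U) (W : Wsub j U) {a b : ℕ} (hab : a ≤ b) :
    Un2 k j U (a + b) ≤ Un2 k j U a + Un2 k j U b
      + 3 / 2 * ((a : ℝ) * b / (k.factorial : ℕ)) := by
  have hg := Gs_pos P
  have h6 := Gs_le P
  have hK := fac_pos k
  have h0 := Un2_nonneg P a
  have h1 := Un2_nonneg P b
  have ha0 : (0 : ℝ) ≤ a := Nat.cast_nonneg a
  have hb0 : (0 : ℝ) ≤ b := Nat.cast_nonneg b
  have hab' : (a : ℝ) ≤ b := by exact_mod_cast hab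
  have hpos : 0 ≤ (a : ℝ) * b / (k.factorial : ℕ) := by positivity
  have hGs := Un2_le_Gs P (a + b)
  -- two estimates of the error term
  have hA : 2 * Gs k j ≤ a → ((k.factorial : ℕ) : ℝ) - 2 * Gs k j ≤ 2 * b →
      Gs k j ≤ 3 / 2 * ((a : ℝ) * b / (k.factorial : ℕ)) := by
    intro h2 h3
    have h4 : (2 * Gs k j) * b ≤ (a : ℝ) * b := mul_le_mul_of_nonneg_right h2 hb0
    have h5 : Gs k j * (((k.factorial : ℕ) : ℝ) - 2 * Gs k j) ≤ Gs k j * (2 * b) :=
      mul_le_mul_of_nonneg_left h3 hg.le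
    have h7 : Gs k j * (2 * Gs k j) ≤ Gs k j * ((k.factorial : ℕ) / 4) :=
      mul_le_mul_of_nonneg_left (by linarith) hg.le
    have h9 := mul_pos hg hK
    have h8 : 2 / 3 * Gs k j ≤ (a : ℝ) * b / (k.factorial : ℕ) := by
      rw [le_div_iff₀ hK]
      linarith
    linarith
  have hB : 8 / 9 * ((k.factorial : ℕ) : ℝ) ≤ b →
      4 / 3 * (a : ℝ) ≤ 3 / 2 * ((a : ℝ) * b / (k.factorial : ℕ)) := by
    intro h2
    have h3 : (a : ℝ) * (8 / 9 * ((k.factorial : ℕ) : ℝ)) ≤ a * b :=
      mul_le_mul_of_nonneg_left h2 ha0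
    have h4 : 8 / 9 * (a : ℝ) ≤ (a : ℝ) * b / (k.factorial : ℕ) := by
      rw [le_div_iff₀ hK]
      linarith
    linarith
  rcases Un2_cases P (a + b) with h | ⟨c, t, hc, ht, he, h⟩ | ⟨c, t, hc1, hc, ht, he, h⟩
  · rw [h]
    linarith
  · have he' : (a : ℝ) + b = c * (k.factorial : ℕ) + t := by exact_mod_cast he
    have ht0 : (0 : ℝ) ≤ t := Nat.cast_nonneg t
    rcases Nat.eq_zero_or_pos c with hc0 | hc0
    · subst hc0
      rw [Nat.zero_mul, Nat.zero_add] at he
      have he2 : (a : ℝ) + b = t := by exact_mod_cast he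
      have h2 := Un2_small P (lt_fact P (t := a) (by linarith))
      have h3 := Un2_small P (lt_fact P (t := b) (by linarith))
      have h4 := uuS P W a b
      rw [h, ← he]
      linarith
    have hc1 : (1 : ℝ) ≤ c := by exact_mod_cast hc0
    have hcK : ((k.factorial : ℕ) : ℝ) ≤ c * (k.factorial : ℕ) := by nlinarith
    by_cases h2g : 2 * Gs k j ≤ a
    · have := hA h2g (by linarith)
      linarith
    push Not at h2g
    have h2 := Un2_small P (lt_fact P (t := a) (by linarith))
    rw [h]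
    rcases le_total a t with hat | hat
    · have h5 : ((t - a : ℕ) : ℝ) ≤ t := by exact_mod_cast Nat.sub_le t a
      have h3 := Un2_right P hc (lt_fact P (t := t - a) (by linarith))
      have e : c * k.factorial + (t - a) = b := by omega
      rw [e] at h3
      have h4 := uuS P W (t - a) a
      rw [Nat.sub_add_cancel hat] at h4
      linarith
    · have h5 : ((a - t : ℕ) : ℝ) ≤ a := by exact_mod_cast Nat.sub_le a t
      have h3 := Un2_left P hc0 hc (lt_fact P (t := a - t) (by linarith)).le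
      have e : c * k.factorial - (a - t) = b := by omega
      rw [e] at h3
      have h4 := uuR P t (a - t)
      rw [Nat.add_sub_cancel' hat] at h4
      have := hB (by linarith)
      linarith
  · have he' : (a : ℝ) + b + t = c * (k.factorial : ℕ) := by exact_mod_cast he
    have ht0 : (0 : ℝ) ≤ t := Nat.cast_nonneg t
    have hc1' : (1 : ℝ) ≤ c := by exact_mod_cast hc1
    have hcK : ((k.factorial : ℕ) : ℝ) ≤ c * (k.factorial : ℕ) := by nlinarith
    by_cases h2g : 2 * Gs k j ≤ a
    · have := hA h2g (by linarith)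
      linarith
    push Not at h2g
    have h2 := Un2_small P (lt_fact P (t := a) (by linarith))
    have h3 := Un2_left P hc1 hc (lt_fact P (t := t + a) (by push_cast; linarith)).le
    have e : c * k.factorial - (t + a) = b := by omega
    rw [e] at h3
    have h4 := uuR P t a
    have := hB (by linarith)
    rw [h]
    linarith

theorem Un2_sub (P : Par k j U) (W : Wsub j U) : Wsub k (Un2 k j U) := by
  intro a b _
  rcases le_total a b with h | h
  · exact Un2_sub_aux P W h
  · have h1 := Un2_sub_aux P W h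
    rw [Nat.add_comm b a, mul_comm (b : ℝ) a] at h1
    linarith

lemma sl_ge {k j : ℕ} (h : j + 8 ≤ k) : 8 ≤ sl k j := by
  have h' : (j : ℝ) + 8 ≤ k := by exact_mod_cast h
  have hj0 : (0 : ℝ) ≤ j := Nat.cast_nonneg j
  unfold sl
  rw [choose_diff]
  nlinarith

/-- the next level -/
theorem par_Un2 (P : Par k j U) (W : Wsub j U) {k' : ℕ} (hk' : k + 8 ≤ k') :
    Par k' k (Un2 k j U) := by
  have hk := P.hk
  have hs := sl_ge hk'
  refine ⟨by omega, hk', by omega, comp_Un2 P, ?_, ?_⟩
  · intro a b _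
    have h1 := Un2_rev P W a b
    have hb0 : (0 : ℝ) ≤ b := Nat.cast_nonneg b
    have h2 := mul_le_mul_of_nonneg_right hs hb0
    linarith
  · intro a ha
    have h1 := Un2_top P ha
    have ha' : (a : ℝ) ≤ ((k + 1).factorial : ℕ) := by exact_mod_cast ha
    have h2 := mul_le_mul_of_nonneg_right hs (by linarith : 0 ≤ (((k + 1).factorial : ℕ) : ℝ) - a)
    linarith

/-! ### the values -/

/-- the improved bound of level `j` is the value of the lexicographic segment -/
def Ex (j : ℕ) (U : ℕ → ℝ) (m : ℕ) : Prop :=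
  m ≤ (j + 1).factorial ∧ ph j m - U m ≤ 2 * (Ef (j + 1) m : ℝ)

/-- the value at `c * k! + d` -/
lemma ph_sub_G {c d : ℕ} (hjk : j + 1 ≤ k) (hc : c ≤ k) (hd : d ≤ (j + 1).factorial)
    (hE : ph j d - U d ≤ 2 * (Ef (j + 1) d : ℝ)) :
    ph k (c * k.factorial + d : ℕ) - G k j U d ≤ 2 * (Ef (k + 1) (c * k.factorial + d) : ℝ) := by
  have hK := fac_pos k
  have hdk : d ≤ k.factorial := le_trans hd (Nat.factorial_le hjk)
  have h1 := Ef_add_real (n := k + 1) le_rfl hc hdk
  have h2 : Ef k d = Ef (j + 1) d := Ef_stable hjk hd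
  rw [h1, h2]
  have e : ph k (c * k.factorial + d : ℕ) = ph k d + c * (c - 1) * (k.factorial : ℕ)
      + c * ((k.factorial : ℕ) * (k.choose 2 : ℕ)) + 2 * (c * d) := by
    unfold ph
    push_cast
    field_simp
    ring
  rw [e]
  unfold G
  linarith

/-- the value at `c * k! - d` -/
lemma ph_sub_G' {c d : ℕ} (hjk : j + 1 ≤ k) (hc1 : 1 ≤ c) (hc : c ≤ k + 1)
    (hd : d ≤ (j + 1).factorial) (hE : ph j d - U d ≤ 2 * (Ef (j + 1) d : ℝ)) :
    ph k (c * k.factorial - d : ℕ) - G k j U d
      ≤ 2 * (Ef (k + 1) (c * k.factorial - d) : ℝ) := by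
  have hK := fac_pos k
  have hdk : d ≤ k.factorial := le_trans hd (Nat.factorial_le hjk)
  obtain ⟨b, rfl⟩ : ∃ b, c = b + 1 := ⟨c - 1, by omega⟩
  have e1 : (b + 1) * k.factorial - d = b * k.factorial + (k.factorial - d) := by
    rw [Nat.add_mul, Nat.one_mul]
    omega
  have h1 := Ef_add_real (n := k + 1) (c := b) (r := k.factorial - d) le_rfl (by omega)
    (Nat.sub_le _ _)
  have h2 := Ef_rev k d hdk
  have h3 : Ef k d = Ef (j + 1) d := Ef_stable hjk hd
  rw [h3] at h2
  rw [e1, h1]
  have e : ph k (b * k.factorial + (k.factorial - d) : ℕ) = ph k d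
      + b * (b - 1) * (k.factorial : ℕ) + b * ((k.factorial : ℕ) * (k.choose 2 : ℕ))
      + 2 * (b * ((k.factorial : ℕ) - d))
      + ((k.factorial : ℕ) * (k.choose 2 : ℕ) - 2 * (d * (k.choose 2 : ℕ))) := by
    rw [Nat.cast_add, Nat.cast_mul, Nat.cast_sub hdk]
    unfold ph
    field_simp
    ring
  rw [e, Nat.cast_sub hdk]
  unfold G
  linarith

/-- small distances -/
lemma d_small (P : Par k j U) {d : ℕ} (hd : d ≤ (j + 1).factorial) :
    (d : ℝ) ≤ Gs k j ∧ 4 * d < k.factorial := by
  have h1 := D0_le P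
  have h2 := Gs_le P
  have h3 : (d : ℝ) ≤ ((j + 1).factorial : ℕ) := by exact_mod_cast hd
  have h4 : (0 : ℝ) ≤ ((j + 1).factorial : ℕ) := Nat.cast_nonneg _
  have hg := Gs_pos P
  refine ⟨by linarith, ?_⟩
  have : 4 * (d : ℝ) < (k.factorial : ℕ) := by linarith
  exact_mod_cast this

lemma plus_divmod {c d : ℕ} (hd : d < k.factorial) :
    (c * k.factorial + d) / k.factorial = c ∧ (c * k.factorial + d) % k.factorial = d := by
  have hK := Nat.factorial_pos k
  constructor
  · rw [Nat.mul_comm, Nat.mul_add_div hK, Nat.div_eq_of_lt hd, Nat.add_zero]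
  · rw [Nat.mul_add_mod_self_right, Nat.mod_eq_of_lt hd]

lemma Un1_plus (P : Par k j U) {c d : ℕ} (hc : c ≤ k) (hd : d ≤ (j + 1).factorial) :
    Un1 k j U (c * k.factorial + d) = G k j U d := by
  have h1 := (d_small P hd).2
  obtain ⟨h2, h3⟩ := plus_divmod (k := k) (c := c) (d := d) (by omega)
  unfold Un1
  rw [h2, h3, if_pos hc, uu_eq P hd]

lemma Um_plus (P : Par k j U) {c d : ℕ} (hd : d ≤ (j + 1).factorial) :
    Um k j U (c * k.factorial + d) = 0 := by
  obtain ⟨h0, h1⟩ := d_small P hd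
  obtain ⟨h2, h3⟩ := plus_divmod (k := k) (c := c) (d := d) (by omega)
  apply Um_far P
  rw [h3, Nat.cast_sub (by omega)]
  have h4 := Gs_le P
  have h5 := Gs_pos P
  linarith

lemma Un2_minus (P : Par k j U) {c d : ℕ} (hc1 : 1 ≤ c) (hc : c ≤ k)
    (hd : d ≤ (j + 1).factorial) : Un2 k j U (c * k.factorial - d) = G k j U d := by
  have hK := Nat.factorial_pos k
  unfold Un2
  rcases Nat.eq_zero_or_pos d with h | h
  · subst h
    have e1 := Un1_plus P hc (Nat.zero_le _)
    have e2 := Um_plus (k := k) (j := j) (U := U) P (c := c) (Nat.zero_le _)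
    rw [Nat.add_zero] at e1 e2
    rw [Nat.sub_zero, e1, e2, add_zero]
  · obtain ⟨h0, h1⟩ := d_small P hd
    obtain ⟨b, rfl⟩ : ∃ b, c = b + 1 := ⟨c - 1, by omega⟩
    have e : (b + 1) * k.factorial - d = b * k.factorial + (k.factorial - d) := by
      rw [Nat.add_mul, Nat.one_mul]
      omega
    obtain ⟨h2, h3⟩ := plus_divmod (k := k) (c := b) (d := k.factorial - d) (by omega)
    rw [e]
    have e1 : Un1 k j U (b * k.factorial + (k.factorial - d)) = 0 := by
      apply Un1_far P
      rw [h3, Nat.cast_sub (by omega)]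
      have h4 := Gs_le P
      have h5 := Gs_pos P
      linarith
    have e2 : Um k j U (b * k.factorial + (k.factorial - d)) = G k j U d := by
      unfold Um
      rw [h2, h3, if_pos hc, Nat.sub_sub_self (by omega), uu_eq P hd]
    rw [e1, e2, zero_add]

lemma plus_le {c d : ℕ} (hc : c ≤ k) (hd : d ≤ k.factorial) :
    c * k.factorial + d ≤ (k + 1).factorial := by
  rw [Nat.factorial_succ, Nat.add_mul, Nat.one_mul]
  exact Nat.add_le_add (Nat.mul_le_mul_right _ hc) hd

theorem Ex_plus (P : Par k j U) {c d : ℕ} (hc : c ≤ k) (hE : Ex j U d) :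
    Ex k (Un2 k j U) (c * k.factorial + d) := by
  obtain ⟨hd, hE⟩ := hE
  have hjk := P.hjk
  have h1 := (d_small P hd).2
  refine ⟨plus_le hc (by omega), ?_⟩
  have e : Un2 k j U (c * k.factorial + d) = G k j U d := by
    unfold Un2
    rw [Un1_plus P hc hd, Um_plus P hd, add_zero]
  rw [e]
  exact ph_sub_G (by omega) hc hd hE

theorem Ex_minus (P : Par k j U) {c d : ℕ} (hc1 : 1 ≤ c) (hc : c ≤ k) (hE : Ex j U d) :
    Ex k (Un2 k j U) (c * k.factorial - d) := by
  obtain ⟨hd, hE⟩ := hE
  have hjk := P.hjk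
  have hcc := hc
  refine ⟨?_, ?_⟩
  · refine le_trans (Nat.sub_le _ _) ?_
    have := plus_le (k := k) (c := c) (d := 0) hc (Nat.zero_le _)
    rwa [Nat.add_zero] at this
  · rw [Un2_minus P hc1 hc hd]
    exact ph_sub_G' (by omega) hc1 (by omega) hd hE

theorem comp_zero {j : ℕ} (hj : 1 ≤ j) : Comp j (fun _ => 0) := by
  refine ⟨fun _ => le_rfl, rfl, rfl, ?_⟩
  intro n A
  exact df_nonneg hj A

theorem Ex_zero {j c : ℕ} (hc : c ≤ j + 1) : Ex j (fun _ => 0) (c * j.factorial) := by
  refine ⟨?_, ?_⟩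
  · rw [Nat.factorial_succ]
    exact Nat.mul_le_mul_right _ hc
  · have hJ := fac_pos j
    rcases hc.lt_or_eq with h | h
    · have h1 := Ef_add_real (k := j) (n := j + 1) (c := c) (r := 0) le_rfl (by omega)
        (Nat.zero_le _)
      have e0 : c * j.factorial + 0 = c * j.factorial := rfl
      rw [e0, Ef_zero] at h1
      rw [h1]
      unfold ph
      push_cast
      have e : ((c : ℝ) * (j.factorial : ℕ)) ^ 2 / (j.factorial : ℕ)
          = c ^ 2 * (j.factorial : ℕ) := by
        field_simp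
      rw [e]
      linarith
    · rw [h, ← Nat.factorial_succ, Ef_factorial_real, ph_cross, choose_succ_two]
      have hJ1 := fac_pos (j + 1)
      unfold ph
      rw [choose_succ_two]
      have e : (((j + 1).factorial : ℕ) : ℝ) ^ 2 / ((j + 1).factorial : ℕ)
          = ((j + 1).factorial : ℕ) := by
        field_simp
      rw [e]
      linarith

end Pool.H60.NN
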