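import Pool.Agent.H60.NN.Compl

set_option autoImplicit false

/-!
# Sets which contain more than half of a coset of `k + 1` positions

Write `K = k!`, `g = Gs k j`, `m = |A|`, `N := P.nums`. Let `Q' = coset M σ₀`, `|M| = k + 1`, be as
in `Big`, `A₁ = A ∩ Q'`, `E = A \ Q'`, `A' = Q' \ A₁`, `c' = k + 1 - c`.
* An element outside `Q'` has at most one neighbour in `Q'` (`nb_le_one`), so by `D_filter`
  `D A ≤ D A₁ + D E + 2 |E|`, and (`df_eq`, `ph`) `df k A ≥ df k A₁ + df k E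
  + 2 |E| (|A₁| / K - 1) ≥ df k A₁ + |E|` (`4 |A₁| ≥ (2 k + 1) K`, `k ≥ 11`, `df_nonneg`).
* `df k A' = df k A₁`: `D_compl M σ₀` with `|M| = k + 1`, `C_(k+1) = C_k + k`,
  `|A'| = (k + 1) K - |A₁|` (like the proof of `df_compl` in `NM/Row.lean`, but at level `k` in a
  coset of `k + 1` positions: `ph k ((k + 1) K - x) = ph k x + C_(k+1) ((k + 1) K - 2 x)`).
* `|A'| - c' K = - (m - c K) + |E|`, so the condition for `A'` follows from the one for `A`
  (`|E| ≤ df k A - df k A'`).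
* `c` satisfies `c ≥ 1`, `2 c ≥ k + 2`: `c K + 4 g ≥ m ≥ |A₁| ≥ (2 k + 1) K / 4` gives
  `2 c ≥ k + 1` (`8 g < K / 2`), and `2 c ≠ k + 1`. Hence `c' ≤ k`, `2 c' ≠ k + 1` and
  `|A'| + m ≤ (k + 1) K + |E| < 2 m` as `2 m ≥ (k + 2) K - 8 g`.
* `Sys k A' (2 df k A')` gives `Sys k A₁ (2 df k A₁)` by `sys_compl`
  (`2 g < (k - 1)! = K / k`, `Q' \ A' = A₁`), and `sys_union` with the predicate `σ ∈ Q'` and
  `sys_empty` for `E` gives `Sys k A (2 df k A₁ + |E|)`.
-/

open Finset Equiv Pool.H60.Transp Pool.H60.NM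

namespace Pool.H60.NN

variable {n k j : ℕ} {U : ℕ → ℝ}

/-- the set contains more than half of a coset of `k + 1` positions -/
def Big (k : ℕ) (A : Finset (Perm (Fin n))) : Prop :=
  ∃ (M : Finset (Fin n)) (σ₀ : Perm (Fin n)), M.card = k + 1 ∧
    (2 * k + 1) * k.factorial ≤ 4 * (A.filter (fun σ => σ ∈ coset M σ₀)).card

lemma Big.mono {A B : Finset (Perm (Fin n))} (h : B ⊆ A) (hB : Big k B) : Big k A := by
  obtain ⟨M, σ₀, h1, h2⟩ := hB
  refine ⟨M, σ₀, h1, le_trans h2 (Nat.mul_le_mul_left _ ?_)⟩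
  exact Finset.card_le_card (Finset.filter_subset_filter _ h)

theorem step_compl (P : Par k j U) (A : Finset (Perm (Fin n))) {c : ℕ} (hc : c ≤ k)
    (h2c : 2 * c ≠ k + 1)
    (hQ : |(A.card : ℝ) - c * (k.factorial : ℕ)| + 2 * df k A ≤ 4 * Gs k j)
    (hdf : df k A ≤ Gs k j) (hB : Big k A) :
    ∃ (A' : Finset (Perm (Fin n))) (c' : ℕ), A'.card < A.card ∧ c' ≤ k ∧ 2 * c' ≠ k + 1 ∧
      |(A'.card : ℝ) - c' * (k.factorial : ℕ)| + 2 * df k A' ≤ 4 * Gs k j ∧
      df k A' ≤ Gs k j ∧ (Sys k A' (2 * df k A') → Sys k A (2 * df k A)) := by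
  classical
  obtain ⟨M, σ₀, hM, hbig⟩ := hB
  have Nn := P.nums
  have hk11 := P.hk
  have hkx : (11 : ℝ) ≤ k := Nn.hk
  have hK := fac_pos k
  have hg0 : 0 < Gs k j := by
    have h1 := Nn.hgC
    have h2 := Nn.hC55
    linarith
  have hKg : 160 * (110 * Gs k j) < (k.factorial : ℕ) := by
    have h1 := Nn.hKbig'
    rw [Nn.hH, Nn.hI] at h1
    nlinarith
  have hA1Q : A.filter (fun σ => σ ∈ coset M σ₀) ⊆ coset M σ₀ :=
    fun σ hσ => (mem_filter.1 hσ).2
  -- the parts of `A`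
  have hD := D_filter A (fun σ => σ ∈ coset M σ₀)
  have hcr : cross (A.filter (fun σ => ¬ σ ∈ coset M σ₀)) (A.filter (fun σ => σ ∈ coset M σ₀))
      ≤ (A.filter (fun σ => ¬ σ ∈ coset M σ₀)).card := by
    unfold cross
    rw [Finset.card_eq_sum_ones]
    apply Finset.sum_le_sum
    intro σ hσ
    refine le_trans ?_ (nb_le_one M σ₀ (mem_filter.1 hσ).2)
    exact Finset.sum_le_sum_of_subset hA1Q
  have hcard := Finset.card_filter_add_card_filter_not (s := A) (fun σ => σ ∈ coset M σ₀)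
  have hcompl := D_compl M σ₀ hA1Q
  have hcc : (coset M σ₀ \ A.filter (fun σ => σ ∈ coset M σ₀)).card
      + (A.filter (fun σ => σ ∈ coset M σ₀)).card = (k + 1).factorial := by
    rw [Finset.card_sdiff_of_subset hA1Q, card_coset, hM]
    have := Finset.card_le_card hA1Q
    rw [card_coset, hM] at this
    omega
  have hback : coset M σ₀ \ (coset M σ₀ \ A.filter (fun σ => σ ∈ coset M σ₀))
      = A.filter (fun σ => σ ∈ coset M σ₀) := Finset.sdiff_sdiff_eq_self hA1Q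
  have hsub : coset M σ₀ \ A.filter (fun σ => σ ∈ coset M σ₀) ⊆ coset M σ₀ :=
    Finset.sdiff_subset
  have hunion := @sys_union n k A (fun σ => σ ∈ coset M σ₀) _
  have hsc := fun (δ : ℝ) (hδ : δ < ((k - 1).factorial : ℕ)) =>
    @sys_compl n k (by omega) M σ₀ hM _ hsub δ hδ
  rw [hback] at hsc
  have hempty := sys_empty (k := k) (A.filter (fun σ => ¬ σ ∈ coset M σ₀))
  set A₁ := A.filter (fun σ => σ ∈ coset M σ₀) with hA₁
  set E := A.filter (fun σ => ¬ σ ∈ coset M σ₀) with hE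
  set A' := coset M σ₀ \ A₁ with hA'
  rw [hM] at hcompl
  -- real numbers
  have rD : (D A : ℝ) = D A₁ + D E + 2 * cross E A₁ := by exact_mod_cast hD
  have rcr : (cross E A₁ : ℝ) ≤ E.card := by exact_mod_cast hcr
  have rcard : (A₁.card : ℝ) + E.card = A.card := by exact_mod_cast hcard
  have rcompl : (D A₁ : ℝ) + ((k + 1).choose 2 : ℕ) * A'.card
      = D A' + ((k + 1).choose 2 : ℕ) * A₁.card := by exact_mod_cast hcompl
  have rcc : (A'.card : ℝ) + A₁.card = ((k + 1).factorial : ℕ) := by exact_mod_cast hcc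
  have rbig : (2 * (k : ℝ) + 1) * (k.factorial : ℕ) ≤ 4 * A₁.card := by exact_mod_cast hbig
  rw [choose_succ_two] at rcompl
  rw [factorial_succ_real] at rcc
  have hE0 : 0 ≤ df k E := df_nonneg (by omega) E
  have hdA0 : 0 ≤ df k A := df_nonneg (by omega) A
  have hdA1 : 0 ≤ df k A₁ := df_nonneg (by omega) A₁
  have hε0 : (0 : ℝ) ≤ E.card := Nat.cast_nonneg _
  -- `df k A₁ + |E| ≤ df k A`
  have hkey : df k A₁ + E.card ≤ df k A := by
    have h1 : df k A = df k A₁ + df k E + 2 * A₁.card * E.card / (k.factorial : ℕ)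
        - 2 * cross E A₁ := by
      rw [df_eq, df_eq, df_eq, ← rcard, rD]
      unfold ph
      field_simp
      ring
    have h2 : 3 * (E.card : ℝ) ≤ 2 * A₁.card * E.card / (k.factorial : ℕ) := by
      rw [le_div_iff₀ hK]
      have h3 : 3 * ((k.factorial : ℕ) : ℝ) ≤ 2 * A₁.card := by nlinarith
      nlinarith
    linarith
  -- `df k A' = df k A₁`
  have hdf' : df k A' = df k A₁ := by
    rw [df_eq, df_eq]
    unfold ph
    have h1 : (A'.card : ℝ) ^ 2 / (k.factorial : ℕ) - (A₁.card : ℝ) ^ 2 / (k.factorial : ℕ)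
        = ((k : ℝ) + 1) * (A'.card - A₁.card) := by
      rw [← sub_div, div_eq_iff hK.ne']
      have h2 : (A'.card : ℝ) ^ 2 - (A₁.card : ℝ) ^ 2
          = (A'.card + A₁.card) * (A'.card - A₁.card) := by ring
      rw [h2, rcc]
      ring
    linarith
  -- `c`
  have habs := abs_le.1 (show |(A.card : ℝ) - c * (k.factorial : ℕ)| ≤ 4 * Gs k j by linarith)
  have hcK : ((2 * k : ℕ) : ℝ) < ((4 * c : ℕ) : ℝ) := by
    by_contra hcon
    push Not at hcon
    push_cast at hcon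
    have h1 : (4 * (c : ℝ)) * (k.factorial : ℕ) ≤ (2 * k) * (k.factorial : ℕ) :=
      mul_le_mul_of_nonneg_right hcon hK.le
    linarith [habs.2]
  have hcK' : 2 * k < 4 * c := by exact_mod_cast hcK
  have hc2 : k + 2 ≤ 2 * c := by omega
  have rc2 : ((k : ℝ) + 2) ≤ 2 * c := by exact_mod_cast hc2
  have rc' : (((k + 1 - c : ℕ)) : ℝ) = k + 1 - c := by
    rw [Nat.cast_sub (by omega)]
    push_cast
    ring
  refine ⟨A', k + 1 - c, ?_, by omega, by omega, ?_, ?_, ?_⟩
  · have h1 : ((k : ℝ) + 2) * (k.factorial : ℕ) ≤ (2 * c) * (k.factorial : ℕ) :=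
      mul_le_mul_of_nonneg_right rc2 hK.le
    have h2 : (A'.card : ℝ) < A.card := by linarith [habs.1]
    exact_mod_cast h2
  · rw [rc', hdf']
    have h1 : (A'.card : ℝ) - (k + 1 - c) * (k.factorial : ℕ)
        = -((A.card : ℝ) - c * (k.factorial : ℕ)) + E.card := by linarith
    rw [h1]
    have h2 := abs_add_le (-((A.card : ℝ) - c * (k.factorial : ℕ))) (E.card : ℝ)
    rw [abs_neg, abs_of_nonneg hε0] at h2
    linarith
  · rw [hdf']
    linarith
  · intro hS
    rw [hdf'] at hS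
    have hδ : 2 * df k A₁ < ((k - 1).factorial : ℕ) := by
      have h1 : 2 * df k A₁ ≤ 2 * Gs k j := by linarith
      have h2 := Nn.hKbig
      rw [Nn.hH, Nn.hI] at h2
      obtain ⟨i, rfl⟩ : ∃ i, k = i + 1 := ⟨k - 1, by omega⟩
      rw [Nat.add_sub_cancel]
      have h3 := factorial_succ_real i
      rw [h3] at h2
      have h4 : ((i + 1 : ℕ) : ℝ) = i + 1 := by push_cast; ring
      rw [h4] at h2 hkx
      have h5 : ((i : ℝ) + 1) * (2 * Gs (i + 1) j) < (i + 1) * (i.factorial : ℕ) := by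
        refine lt_of_le_of_lt ?_ h2
        nlinarith [mul_pos (mul_pos hg0 (by linarith : (0 : ℝ) < (i : ℝ) + 1))
          (by nlinarith : (0 : ℝ) < ((i : ℝ) + 1 + 1) * ((i : ℝ) + 1 + 3) - 1)]
      have h6 := lt_of_mul_lt_mul_left h5 (by linarith)
      linarith
    have h1 := hunion (hsc _ hδ hS) hempty
    exact sys_mono (by linarith) h1

end Pool.H60.NN
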